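import Pool.Agent.LPHI.Defs
import Pool.Agent.Helper86.Rel.Code

/-!
# The LP-hierarchy: codes of oracle machines, the use principle, locality
-/

set_option autoImplicit false

namespace Pool.Agent.LPHI

open Pool.Agent.PolyTime Pool.Agent.Helper86.Rel

theorem exists_code_u {F : Set (List Bool) → List Bool → List Bool} (hF : OFP F) :
    ∃ c : Code, ∀ O x, c.eval O x = F O x := by
  induction hF with
  | base hf =>
    obtain ⟨n, hn⟩ := exists_fpEnum hf
    exact ⟨Code.base n, fun O x => by rw [← hn]; rfl⟩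
  | oracle => exact ⟨Code.orc, fun O x => rfl⟩
  | comp _ _ ihg ihf =>
    obtain ⟨c, hc⟩ := ihg
    obtain ⟨d, hd⟩ := ihf
    exact ⟨Code.comp c d, fun O x => by rw [Code.eval, hd, hc]⟩
  | pair _ _ ihf ihg =>
    obtain ⟨c, hc⟩ := ihf
    obtain ⟨d, hd⟩ := ihg
    exact ⟨Code.pair c d, fun O x => by rw [Code.eval, hd, hc]⟩
  | @iter f g h _ _ _ p hp ihf ihg ihh =>
    obtain ⟨c, hc⟩ := ihf
    obtain ⟨d, hd⟩ := ihg
    obtain ⟨e, he⟩ := ihh
    obtain ⟨k, hk⟩ := exists_pow_bound p
    refine ⟨Code.iter c d e k, fun O x => ?_⟩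
    rw [Code.eval, hd, he]
    have key : ∀ i, i ≤ (g O x).length →
        (fun s => (c.eval O s).take ((x.length + 2) ^ k))^[i] (h O x) = (f O)^[i] (h O x) := by
      intro i
      induction i with
      | zero => intro _; rfl
      | succ i ih =>
        intro hi
        rw [Function.iterate_succ_apply', Function.iterate_succ_apply', ih (by omega), hc]
        apply List.take_of_length_le
        have := (hp O x (i + 1) hi).trans (hk _)
        rwa [Function.iterate_succ_apply'] at this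
    exact key _ le_rfl

/-- the use principle for fixed oracle machines -/
theorem OFP.use {F : Set (List Bool) → List Bool → List Bool} (hF : OFP F) :
    ∃ k : ℕ, ∀ O x, (F O x).length ≤ (x.length + 2) ^ k ∧
      ∃ Q : Finset (List Bool), Q.card ≤ (x.length + 2) ^ k ∧
        (∀ q ∈ Q, q.length ≤ (x.length + 2) ^ k) ∧
        ∀ O', (∀ q ∈ Q, (q ∈ O' ↔ q ∈ O)) → F O' x = F O x := by
  obtain ⟨c, hc⟩ := exists_code_u hF
  obtain ⟨b, ⟨k, hk⟩, hb⟩ := code_use c
  refine ⟨k, fun O x => ?_⟩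
  obtain ⟨h1, Q, h2, h3, h4⟩ := hb O x
  have hbk := hk x.length
  refine ⟨by rw [← hc]; exact h1.trans hbk, Q, h2.trans hbk, fun q hq => (h3 q hq).trans hbk,
    fun O' hO' => ?_⟩
  have := h4 O' hO'
  simpa only [hc] using this

theorem OFP.fp {F : Set (List Bool) → List Bool → List Bool} (hF : OFP F) :
    FP (F ∅) := by
  induction hF with
  | base hf => exact hf
  | oracle =>
    refine (FP.const [false]).congr (fun x => ?_)
    simp
  | comp _ _ ihg ihf => exact ihg.comp ihf
  | pair _ _ ihf ihg => exact FP.pair ihf ihg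
  | iter _ _ _ p hp ihf ihg ihh => exact FP.iter ihf ihg ihh p (hp ∅)

protected theorem OFP.congr {F G : Set (List Bool) → List Bool → List Bool} (hF : OFP F)
    (h : ∀ O x, F O x = G O x) : OFP G := by
  have : F = G := funext fun O => funext fun x => h O x
  rwa [← this]

protected theorem OFP.id : OFP (fun _ x => x) := OFP.base FP.id

theorem OFP.p1 : OFP (fun _ x => PolyTime.p1 x) := OFP.base FP.p1

theorem OFP.p2 : OFP (fun _ x => PolyTime.p2 x) := OFP.base FP.p2

theorem OFP.p1' {F : Set (List Bool) → List Bool → List Bool} (hF : OFP F) :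
    OFP (fun O x => PolyTime.p1 (F O x)) := OFP.comp OFP.p1 hF

theorem OFP.p2' {F : Set (List Bool) → List Bool → List Bool} (hF : OFP F) :
    OFP (fun O x => PolyTime.p2 (F O x)) := OFP.comp OFP.p2 hF

theorem OFP.ofFP {g : List Bool → List Bool} (hg : FP g)
    {F : Set (List Bool) → List Bool → List Bool} (hF : OFP F) :
    OFP (fun O x => g (F O x)) := (OFP.base hg).comp hF

theorem OFP.cases {c f g h : Set (List Bool) → List Bool → List Bool} (hc : OFP c)
    (hf : OFP f) (hg : OFP g) (hh : OFP h) : OFP (fun O x => match c O x with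
      | [] => f O x
      | false :: _ => g O x
      | true :: _ => h O x) := by
  refine ((OFP.base fp_selFn).comp (hc.pair (hf.pair (hg.pair hh)))).congr (fun O x => ?_)
  unfold selFn
  simp only [p1_pr, p2_pr]
  rcases c O x with _ | ⟨b, _⟩
  · rfl
  · cases b <;> rfl

open Classical in
/-- substitution of oracles: if membership in the oracle `J Z` is decided by a machine with
oracle `Z` then so is everything computed with oracle `J Z` -/
theorem OFP.subst {J : Set (List Bool) → Set (List Bool)}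
    (hJ : OFP (fun Z x => [decide (x ∈ J Z)])) {F : Set (List Bool) → List Bool → List Bool}
    (hF : OFP F) : OFP (fun Z x => F (J Z) x) := by
  induction hF with
  | base hf => exact OFP.base hf
  | oracle => exact hJ
  | comp _ _ ihg ihf => exact ihg.comp ihf
  | pair _ _ ihf ihg => exact ihf.pair ihg
  | iter _ _ _ p hp ihf ihg ihh => exact OFP.iter ihf ihg ihh p (fun Z => hp (J Z))

/-! ### locality -/

/-- membership of `x` in `B^Z` depends on polynomially long strings only -/
def Loc (B : OLang) : Prop :=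
  ∃ c : ℕ, ∀ x W W', (∀ y : List Bool, y.length ≤ (x.length + 2) ^ c → (y ∈ W ↔ y ∈ W')) →
    (x ∈ B W ↔ x ∈ B W')

theorem pow_pow_le (n k c : ℕ) : ((n + 2) ^ k + 2) ^ c ≤ (n + 2) ^ ((k + 2) * c) := by
  rw [pow_mul]
  refine Nat.pow_le_pow_left ?_ _
  have h2 : (n + 2) ^ (k + 2) = (n + 2) ^ k * ((n + 2) * (n + 2)) := by ring
  have h3 : 1 ≤ (n + 2) ^ k := Nat.one_le_pow _ _ (by omega)
  have h4 : (n + 2) ^ k * 4 ≤ (n + 2) ^ k * ((n + 2) * (n + 2)) :=
    Nat.mul_le_mul_left _ (by nlinarith)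
  omega

theorem loc_id : Loc (fun Z => Z) := by
  refine ⟨1, fun x W W' h => h x ?_⟩
  rw [pow_one]
  omega

theorem loc_const (A : Set (List Bool)) : Loc (fun _ => A) :=
  ⟨0, fun _ _ _ _ => Iff.rfl⟩

theorem Loc.compl {B : OLang} (hB : Loc B) : Loc (fun Z => (B Z)ᶜ) := by
  obtain ⟨c, hc⟩ := hB
  exact ⟨c, fun x W W' h => not_congr (hc x W W' h)⟩

theorem Loc.eval {L : OLang} (hL : Loc L) {F : Set (List Bool) → List Bool → List Bool}
    (hF : OFP F) : ∃ c : ℕ, ∀ x W W', (∀ y : List Bool, y.length ≤ (x.length + 2) ^ c →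
      (y ∈ W ↔ y ∈ W')) → F (L W) x = F (L W') x := by
  obtain ⟨c, hc⟩ := hL
  obtain ⟨k, hk⟩ := hF.use
  refine ⟨(k + 2) * c, fun x W W' h => ?_⟩
  obtain ⟨_, Q, _, hQ, hQ'⟩ := hk (L W') x
  refine hQ' (L W) (fun q hq => hc q W W' (fun y hy => h y (hy.trans ?_)))
  refine le_trans (Nat.pow_le_pow_left (Nat.add_le_add_right (hQ q hq) 2) c) ?_
  exact pow_pow_le _ _ _

theorem loc_pc {C : Set OLang} (hC : ∀ B ∈ C, Loc B) : ∀ B ∈ PC C, Loc B := by
  rintro B ⟨L, hL, F, hF, hB⟩
  obtain ⟨c, hc⟩ := (hC L hL).eval hF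
  exact ⟨c, fun x W W' h => by rw [hB, hB, hc x W W' h]⟩

theorem loc_npc {C : Set OLang} (hC : ∀ B ∈ C, Loc B) : ∀ B ∈ NPC C, Loc B := by
  rintro B ⟨L, hL, F, hF, p, hB⟩
  obtain ⟨c, hc⟩ := (hC L hL).eval hF
  obtain ⟨e, he⟩ := exists_pow_bound p
  refine ⟨(e + 4) * c, fun x W W' h => ?_⟩
  rw [hB, hB]
  refine exists_congr fun y => and_congr_right fun hy => ?_
  rw [hc (pr x y) W W' (fun z hz => h z (hz.trans ?_))]
  have h1 : (pr x y).length + 2 ≤ (x.length + 2) ^ (e + 2) + 2 := by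
    rw [length_pr]
    have h2 := hy.trans (he x.length)
    have h3 : (x.length + 2) ^ (e + 2) = (x.length + 2) ^ e * ((x.length + 2) * (x.length + 2)) := by
      ring
    have h4 : 1 ≤ (x.length + 2) ^ e := Nat.one_le_pow _ _ (by omega)
    have h5 : (x.length + 2) ^ e * (2 * x.length + 2) ≤
        (x.length + 2) ^ e * ((x.length + 2) * (x.length + 2)) :=
      Nat.mul_le_mul_left _ (by nlinarith)
    have h6 : 1 * (2 * x.length + 1) ≤ (x.length + 2) ^ e * (2 * x.length + 1) :=
      Nat.mul_le_mul_right _ h4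
    have h7 : (x.length + 2) ^ e * (2 * x.length + 2) =
      (x.length + 2) ^ e * (2 * x.length + 1) + (x.length + 2) ^ e := by ring
    omega
  exact (Nat.pow_le_pow_left h1 c).trans (pow_pow_le _ _ _)

theorem loc_sig {C₀ : Set OLang} (hC : ∀ B ∈ C₀, Loc B) (k : ℕ) : ∀ B ∈ Sig C₀ k, Loc B := by
  induction k with
  | zero => exact loc_pc hC
  | succ k ih => exact loc_npc ih

theorem loc_cls {C₀ : Set OLang} (hC : ∀ B ∈ C₀, Loc B) (l : Level) :
    ∀ B ∈ Cls C₀ l, Loc B := by
  match l with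
  | .delta 0 => exact loc_pc hC
  | .delta (k + 1) => exact loc_pc (loc_sig hC k)
  | .sigma k => exact loc_sig hC k
  | .pi k =>
    intro B hB
    have h := (loc_sig hC k _ hB).compl
    simpa using h

theorem loc_join (A : Set (List Bool)) : Loc (fun Z => join A Z) := by
  refine ⟨1, fun x W W' h => ?_⟩
  unfold join
  simp only [Set.mem_ofPred_eq]
  refine or_congr_right (exists_congr fun y => ?_)
  refine ⟨fun ⟨h1, h2⟩ => ⟨(h y ?_).1 h1, h2⟩, fun ⟨h1, h2⟩ => ⟨(h y ?_).2 h1, h2⟩⟩ <;>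
  · rw [h2]
    simp
    omega

end Pool.Agent.LPHI
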