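import Pool.Agent.LPHI.Tab
import Pool.Agent.PolyTime.More

/-!
# The LP-hierarchy: the `Δ_2` machine which compares the probability of `B` with `n / k`
-/

set_option autoImplicit false

namespace Pool.Agent.LPHI

open Pool.Agent.PolyTime

/-- the special strings -/
def sk (i : ℕ) : List Bool := pr [false] (List.replicate i true)

theorem sk_inj {i i' : ℕ} : sk i = sk i' ↔ i = i' := by
  unfold sk
  rw [pr_inj]
  constructor
  · rintro ⟨-, h⟩
    have := congrArg List.length h
    simpa using this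
  · rintro rfl; exact ⟨rfl, rfl⟩

theorem sk_ne_key {i n : ℕ} {x y : List Bool} (hn : 0 < n) : sk i ≠ key n x y := by
  unfold sk key
  intro h
  rw [pr_inj] at h
  have h1 := h.1
  obtain ⟨m, rfl⟩ : ∃ m, n = m + 1 := ⟨n - 1, by omega⟩
  rw [List.replicate_succ] at h1
  simp at h1

theorem cons_false_ne_sk {i : ℕ} {y : List Bool} : false :: y ≠ sk i := by
  unfold sk
  rw [pr_cons]
  simp

theorem cons_false_ne_key {n : ℕ} {x y u : List Bool} (hn : 0 < n) : false :: u ≠ key n x y := by
  obtain ⟨m, rfl⟩ : ∃ m, n = m + 1 := ⟨n - 1, by omega⟩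
  unfold key
  rw [List.replicate_succ, pr_cons]
  simp

/-- the list `g (i-1), ..., g 0` -/
def rbl (g : ℕ → Bool) : ℕ → List Bool
  | 0 => []
  | i + 1 => g i :: rbl g i

theorem length_rbl (g : ℕ → Bool) (i : ℕ) : (rbl g i).length = i := by
  induction i with
  | zero => rfl
  | succ i ih => simp [rbl, ih]

open Classical in
/-- random bits read from the oracle -/
noncomputable def rb (W : Set (List Bool)) (i : ℕ) : List Bool :=
  rbl (fun i => decide (sk (i + 1) ∈ W)) i

/-- one step of the reading of random bits -/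
noncomputable def rstep (W : Set (List Bool)) (t : List Bool) : List Bool :=
  pr (true :: p1 t) (ans (pr [false] (true :: p1 t) ∈ W) ++ p2 t)

theorem ofp_rstep : OFP rstep :=
  (OFP.cons' true OFP.p1).pair ((OFP.query ((OFP.base (FP.const [false])).pair
    (OFP.cons' true OFP.p1))).append OFP.p2)

theorem rstep_iter (W : Set (List Bool)) (i : ℕ) :
    (rstep W)^[i] (pr [] []) = pr (List.replicate i true) (rb W i) := by
  induction i with
  | zero => rfl
  | succ i ih =>
    rw [Function.iterate_succ_apply', ih, rstep, p1_pr, p2_pr]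
    rfl

theorem ofp_rb : OFP (fun W v => rb W v.length) := by
  have h1 : OFP (fun W v => (rstep W)^[v.length] (pr [] [])) := by
    refine OFP.iter ofp_rstep OFP.id (OFP.base (FP.const (pr [] []))) (3 * Polynomial.X + 1)
      (fun Z x i hi => ?_)
    rw [rstep_iter, length_pr, rb, length_rbl, List.length_replicate]
    simp only [Polynomial.eval_add, Polynomial.eval_mul, Polynomial.eval_ofNat,
      Polynomial.eval_X, Polynomial.eval_one]
    omega
  refine (OFP.p2' h1).congr (fun W v => ?_)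
  rw [rstep_iter, p2_pr]

/-- the number with binary digits `r` is less than `k`, where `z` is the `k`-th string -/
def Lt (z r : List Bool) : Prop := valMSB r + 1 < valMSB (true :: z)

theorem isOD_Lt : IsOD (fun _ t => Lt (p1 t) (p2 t)) := by
  refine IsOD.pure (f := fun t => decide (valMSB (p2 t) + 1 < valMSB (true :: p1 t))) ?_
    (fun t => by simp [Lt])
  exact PolyTime.decide_lt ((pt_valMSB (pt_p2 PolyTime.id)).add (PolyTime.const 1))
    (pt_valMSB ((PolyTime.const true).cons (pt_p1 PolyTime.id)))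

section

variable {j : ℕ} {B : OLang} (T : Tab j B)

/-- the test behind the `NP` set -/
def tst2 (W : Set (List Bool)) (t w : List Bool) : Prop :=
  (t.headD false = false ∧ t.tail ∈ W) ∨ (t.headD false = true ∧
    ((t.tail.headD false = false ∧ T.K (t.tail.tail).length w ∧ ¬ T.R W w) ∨
     (t.tail.headD false = true ∧ T.K (t.tail.tail).length w ∧ w ∈ W)))

theorem isOD_tst2 : IsOD (fun W z => tst2 T W (p1 z) (p2 z)) := by
  have h1 : IsOD (fun _ z => (p1 z).headD false = true) := IsOD.head OFP.p1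
  have h2 : IsOD (fun _ z => (p1 z).tail.headD false = true) := IsOD.head (OFP.tail' OFP.p1)
  have h3 : IsOD (fun _ z => T.K ((p1 z).tail.tail).length (p2 z)) := by
    refine (T.hK.comp ((OFP.tail' (OFP.tail' OFP.p1)).pair OFP.p2)).congr (fun _ z => ?_)
    rw [p1_pr, p2_pr]
  have h4 : IsOD (fun _ z => (p1 z).headD false = false) :=
    h1.not.congr (fun _ z => by simp)
  have h5 : IsOD (fun _ z => (p1 z).tail.headD false = false) :=
    h2.not.congr (fun _ z => by simp)
  exact (h4.and (IsOD.mem (OFP.tail' OFP.p1))).or (h1.and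
    ((h5.and (h3.and (IsOD.comp T.hR OFP.p2).not)).or (h2.and (h3.and (IsOD.mem OFP.p2)))))

/-- the `NP` set -/
def NN : OLang := fun W => {t | ∃ w : List Bool, w.length ≤ T.q.eval t.length ∧ tst2 T W t w}

theorem NN_mem : NN T ∈ Sig {fun Z => Z} 1 := by
  refine ⟨fun Z => Z, subset_pc _ rfl, _, isOD_tst2 T, T.q, fun Z t => ?_⟩
  simp only [NN, Set.mem_ofPred_eq, ans_eq, p1_pr, p2_pr]

theorem cons_false_mem_NN {W : Set (List Bool)} {u : List Bool} :
    false :: u ∈ NN T W ↔ u ∈ W := by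
  unfold NN tst2
  simp only [Set.mem_ofPred_eq, List.headD_cons, List.tail_cons, true_and, false_and,
    reduceCtorEq, or_false]
  exact ⟨fun ⟨_, _, h⟩ => h, fun h => ⟨[], by simp, h⟩⟩

theorem Zb_NN (W : Set (List Bool)) : Zb (NN T W) = W := by
  ext y
  exact cons_false_mem_NN T

theorem check_mem_NN {W : Set (List Bool)} {x : List Bool} :
    true :: false :: x ∈ NN T W ↔ ∃ w, T.K x.length w ∧ ¬ T.R W w := by
  unfold NN tst2
  simp only [Set.mem_ofPred_eq, List.headD_cons, List.tail_cons, true_and, false_and,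
    reduceCtorEq, or_false, false_or]
  constructor
  · rintro ⟨w, _, h⟩; exact ⟨w, h⟩
  · rintro ⟨w, h⟩
    exact ⟨w, (T.hq _ _ h.1).trans (poly_mono _ (by simp only [List.length_cons]; omega)), h⟩

theorem zero_mem_NN {W : Set (List Bool)} {x : List Bool} :
    true :: true :: x ∈ NN T W ↔ ∃ w, T.K x.length w ∧ w ∈ W := by
  unfold NN tst2
  simp only [Set.mem_ofPred_eq, List.headD_cons, List.tail_cons, true_and, false_and,
    reduceCtorEq, false_or]
  constructor
  · rintro ⟨w, _, h⟩; exact ⟨w, h⟩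
  · rintro ⟨w, h⟩
    exact ⟨w, (T.hq _ _ h.1).trans (poly_mono _ (by simp only [List.length_cons]; omega)), h⟩

/-- is `v` a triple with a positive denominator? -/
def valid (v : List Bool) : Prop := v = pr (p1 v) (pr (kx v) (ky v)) ∧ kx v ≠ []

theorem isOD_valid : IsOD (fun _ v => valid v) := by
  refine IsOD.pure (f := fun v => decide (v = pr (p1 v) (pr (kx v) (ky v))) &&
    !(decide (kx v = []))) ?_ (fun v => by simp [valid])
  exact (PolyTime.decideEq PolyTime.id (pt_pr (pt_p1 PolyTime.id) (pt_pr pt_kx pt_ky))).and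
    (PolyTime.decideEq pt_kx (PolyTime.const [])).not

/-- the acceptance condition, with the `NP` oracle `O` -/
def Phi (O : Set (List Bool)) (v : List Bool) : Prop :=
  valid v ∧ ((false :: sk 0 ∉ O ∧ Lt (kx v) (rb (Zb O) v.length) ∧
      true :: false :: p1 v ∉ O ∧ p1 v ∈ T.V (Zb O)) ∨
    (false :: sk 0 ∈ O ∧ ¬ (Lt (ky v) (rb (Zb O) v.length) ∧ true :: true :: p1 v ∉ O)))

theorem isOD_Phi : IsOD (Phi T) := by
  have h0 : IsOD (fun O _ => false :: sk 0 ∈ O) := IsOD.mem (OFP.base (FP.const _))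
  have hr : OFP (fun O v => rb (Zb O) v.length) := IsOD.substF ofp_rb isOD_Zb
  have h1 : IsOD (fun O v => Lt (kx v) (rb (Zb O) v.length)) :=
    (isOD_Lt.comp (ofp_kx.pair hr)).congr (fun O v => by rw [p1_pr, p2_pr])
  have h2 : IsOD (fun O v => Lt (ky v) (rb (Zb O) v.length)) :=
    (isOD_Lt.comp (ofp_ky.pair hr)).congr (fun O v => by rw [p1_pr, p2_pr])
  have h3 : IsOD (fun O v => true :: false :: p1 v ∈ O) :=
    IsOD.mem (OFP.cons' true (OFP.cons' false OFP.p1))
  have h4 : IsOD (fun O v => true :: true :: p1 v ∈ O) :=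
    IsOD.mem (OFP.cons' true (OFP.cons' true OFP.p1))
  have h5 : IsOD (fun O v => p1 v ∈ T.V (Zb O)) :=
    (IsOD.comp (IsOD.subst T.hV isOD_Zb) OFP.p1)
  exact isOD_valid.and ((h0.not.and (h1.and (h3.not.and h5))).or (h0.and (h2.and h4.not).not))

/-- the machine -/
def CC : OLang := fun W => {v | Phi T (NN T W) v}

theorem CC_mem : CC T ∈ PC (Sig {fun Z => Z} 1) :=
  ⟨NN T, NN_mem T, _, isOD_Phi T, fun Z v => by rw [ans_eq]; rfl⟩

theorem mem_CC {W : Set (List Bool)} {v : List Bool} : v ∈ CC T W ↔ valid v ∧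
    ((sk 0 ∉ W ∧ Lt (kx v) (rb W v.length) ∧
      (∀ t, T.K (p1 v).length t → (t ∈ W ↔ t ∈ T.TT (Zb W))) ∧ p1 v ∈ B (Zb W)) ∨
    (sk 0 ∈ W ∧ ¬ (Lt (ky v) (rb W v.length) ∧ ∀ t, T.K (p1 v).length t → t ∉ W))) := by
  have h1 : v ∈ CC T W ↔ Phi T (NN T W) v := Iff.rfl
  rw [h1]
  unfold Phi
  rw [Zb_NN, cons_false_mem_NN, check_mem_NN, zero_mem_NN]
  have h2 : (¬ ∃ w, T.K (p1 v).length w ∧ ¬ T.R W w) ↔
      (∀ t, T.K (p1 v).length t → (t ∈ W ↔ t ∈ T.TT (Zb W))) := by
    rw [T.hTT]
    push Not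
    exact Iff.rfl
  have h3 : (¬ ∃ w, T.K (p1 v).length w ∧ w ∈ W) ↔ ∀ t, T.K (p1 v).length t → t ∉ W := by
    push Not
    exact Iff.rfl
  rw [h2, h3]
  refine and_congr_right fun _ => or_congr_left (and_congr_right fun _ => and_congr_right
    fun _ => and_congr_right fun h4 => ?_)
  exact T.hVB _ W h4 _ le_rfl

end

end Pool.Agent.LPHI
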