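import Pool.Agent.LPHI.Meas

/-!
# The LP-hierarchy: every local event has the probability of a threshold event
-/

set_option autoImplicit false

namespace Pool.Agent.LPHI

open Pool.Agent.PolyTime MeasureTheory

/-- probability of an event which is determined by finitely many distinct strings -/
theorem coin_count {ι : Type} [Fintype ι] [DecidableEq ι] (w : ι → List Bool)
    (hw : Function.Injective w) (P : Finset (ι → Bool)) :
    coin {ω | (fun i => ω (w i)) ∈ P} = (P.card : ENNReal) * (2⁻¹ : ENNReal) ^ Fintype.card ι := by
  classical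
  have h1 : ∀ f : ι → Bool, coin {ω | (fun i => ω (w i)) = f} =
      (2⁻¹ : ENNReal) ^ Fintype.card ι := by
    intro f
    obtain ⟨ω₀, hω₀⟩ : ∃ ω₀ : List Bool → Bool, ∀ i, ω₀ (w i) = f i :=
      ⟨Function.extend w f (fun _ => false), fun i => hw.extend_apply _ _ _⟩
    have h2 : {ω : List Bool → Bool | (fun i => ω (w i)) = f} = cyl (Finset.univ.image w) ω₀ := by
      ext ω
      simp only [cyl, Set.mem_ofPred_eq, Finset.mem_image, Finset.mem_univ, true_and,
        forall_exists_index, forall_apply_eq_imp_iff]
      constructor
      · intro h i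
        rw [hω₀, ← h]
      · intro h
        funext i
        rw [h i, hω₀]
    rw [h2, coin_cyl, Finset.card_image_of_injective _ hw, Finset.card_univ]
  have h3 : ∀ f : ι → Bool, MeasurableSet {ω : List Bool → Bool | (fun i => ω (w i)) = f} := by
    intro f
    have h4 : Measurable (fun ω : List Bool → Bool => fun i => ω (w i)) :=
      measurable_pi_lambda _ (fun i => measurable_pi_apply _)
    exact h4 (measurableSet_singleton f)
  have h5 : {ω : List Bool → Bool | (fun i => ω (w i)) ∈ P} =
      ⋃ f ∈ P, {ω | (fun i => ω (w i)) = f} := by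
    ext ω
    simp
  rw [h5, measure_biUnion_finset]
  · rw [Finset.sum_congr rfl (fun f _ => h1 f), Finset.sum_const, nsmul_eq_mul]
  · intro f _ g _ hfg
    rw [Function.onFun, Set.disjoint_left]
    intro ω hf hg
    exact hfg (hf.symm.trans hg)
  · exact fun f _ => h3 f

theorem card_strs_lt (n : ℕ) : (strs n).card < 2 ^ (n + 1) := by
  classical
  induction n with
  | zero =>
    have : strs 0 = {[]} := by
      ext y
      simp [mem_strs]
    rw [this]
    simp
  | succ n ih =>
    have h : strs (n + 1) ⊆ insert [] ((strs n).image (fun y => false :: y) ∪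
        (strs n).image (fun y => true :: y)) := by
      intro y hy
      rw [mem_strs] at hy
      rcases y with _ | ⟨b, y⟩
      · simp
      · have hy' : y ∈ strs n := by
          rw [mem_strs]
          simpa using hy
        cases b
        · simp [hy']
        · simp [hy']
    have h1 := Finset.card_le_card h
    have h2 := Finset.card_insert_le [] ((strs n).image (fun y => false :: y) ∪
        (strs n).image (fun y => true :: y))
    have h3 := Finset.card_union_le ((strs n).image (fun y => false :: y))
        ((strs n).image (fun y => true :: y))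
    have h4 := Finset.card_image_le (s := strs n) (f := fun y => false :: y)
    have h5 := Finset.card_image_le (s := strs n) (f := fun y => true :: y)
    have h6 : 2 ^ (n + 1 + 1) = 2 * 2 ^ (n + 1) := by ring
    omega

/-! ### binary values -/

/-- the value of a string, the last bit is the most significant one -/
def val : List Bool → ℕ
  | [] => 0
  | b :: w => b.toNat + 2 * val w

theorem val_lt (w : List Bool) : val w < 2 ^ w.length := by
  induction w with
  | nil => simp [val]
  | cons b w ih =>
    have : 2 ^ (b :: w).length = 2 * 2 ^ w.length := by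
      rw [List.length_cons]; ring
    rw [this, val]
    cases b <;> simp <;> omega

theorem val_append (v r : List Bool) : val (v ++ r) = val v + 2 ^ v.length * val r := by
  induction v with
  | nil => simp [val]
  | cons b v ih =>
    rw [List.cons_append, val, ih, val, List.length_cons]
    ring

/-- the string of length `T` with value `i` -/
def strOf : ℕ → ℕ → List Bool
  | 0, _ => []
  | T + 1, i => (i % 2 == 1) :: strOf T (i / 2)

theorem length_strOf (T i : ℕ) : (strOf T i).length = T := by
  induction T generalizing i with
  | zero => rfl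
  | succ T ih => simp [strOf, ih]

theorem val_strOf (T i : ℕ) (h : i < 2 ^ T) : val (strOf T i) = i := by
  induction T generalizing i with
  | zero =>
    have : i = 0 := by simpa using h
    simp [strOf, val, this]
  | succ T ih =>
    have h1 : i / 2 < 2 ^ T := by
      have : 2 ^ (T + 1) = 2 * 2 ^ T := by ring
      omega
    rw [strOf, val, ih _ h1]
    rcases Nat.mod_two_eq_zero_or_one i with h2 | h2 <;> simp [h2] <;> omega

theorem val_inj {w w' : List Bool} (hl : w.length = w'.length) (h : val w = val w') :
    w = w' := by
  induction w generalizing w' with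
  | nil =>
    rcases w' with _ | ⟨b, w'⟩
    · rfl
    · simp at hl
  | cons b w ih =>
    rcases w' with _ | ⟨b', w'⟩
    · simp at hl
    · simp only [List.length_cons, Nat.add_right_cancel_iff] at hl
      rw [val, val] at h
      have h1 : b = b' := by
        cases b <;> cases b' <;> simp at h ⊢ <;> omega
      subst h1
      have h2 : val w = val w' := by omega
      rw [ih hl h2]

/-- `ω` is below the threshold `a` on the strings of length `T` -/
def Less (T : ℕ) (ω a : List Bool → Bool) : Prop :=
  ∃ w : List Bool, w.length = T ∧ ω w = false ∧ a w = true ∧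
    ∀ w' : List Bool, w'.length = T → val w' < val w → ω w' = a w'

theorem less_iff (T : ℕ) (ω : List Bool → Bool) (f : Fin (2 ^ T) → Bool) :
    Less T ω (fun w => if h : val w < 2 ^ T then f ⟨val w, h⟩ else false) ↔
      toLex (fun i : Fin (2 ^ T) => ω (strOf T i)) < toLex f := by
  have key : toLex (fun i : Fin (2 ^ T) => ω (strOf T i)) < toLex f ↔
      ∃ i : Fin (2 ^ T), (∀ j < i, ω (strOf T j) = f j) ∧ ω (strOf T i) < f i := Iff.rfl
  rw [key]
  constructor
  · rintro ⟨w, hw, h1, h2, h3⟩
    have hlt : val w < 2 ^ T := by rw [← hw]; exact val_lt w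
    have hws : strOf T (val w) = w :=
      val_inj ((length_strOf _ _).trans hw.symm) (val_strOf _ _ hlt)
    refine ⟨⟨val w, hlt⟩, fun j hj => ?_, ?_⟩
    · have h4 := h3 (strOf T j) (length_strOf _ _) (by rw [val_strOf _ _ j.2]; exact hj)
      rw [h4]
      simp only [val_strOf _ _ j.2]
      simp [j.2]
    · simp only [hws, h1]
      simp only [hlt, dif_pos] at h2
      rw [h2]
      decide
  · rintro ⟨i, h1, h2⟩
    refine ⟨strOf T i, length_strOf _ _, ?_, ?_, ?_⟩
    · rcases hb : ω (strOf T i) with _ | _
      · rfl
      · rw [hb] at h2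
        exact absurd h2 (by cases f i <;> decide)
    · simp only [val_strOf _ _ i.2]
      rcases hb : f i with _ | _
      · rw [hb] at h2
        exact absurd h2 (by cases ω (strOf T i) <;> decide)
      · simp [i.2, hb]
    · intro w' hw' hlt
      rw [val_strOf _ _ i.2] at hlt
      have hlt' : val w' < 2 ^ T := by rw [← hw']; exact val_lt w'
      have hws : strOf T (val w') = w' :=
        val_inj ((length_strOf _ _).trans hw'.symm) (val_strOf _ _ hlt')
      have := h1 ⟨val w', hlt'⟩ hlt
      simp only [hws] at this
      rw [this]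
      simp [hlt']

open Classical in
/-- every number of assignments is the number of assignments below some threshold -/
theorem exists_threshold (M K : ℕ) (hK : K < 2 ^ M) :
    ∃ a : Fin M → Bool,
      (Finset.univ.filter (fun f : Fin M → Bool => toLex f < toLex a)).card = K := by
  have hcard : Fintype.card (Lex (Fin M → Bool)) = 2 ^ M := by
    have : Fintype.card (Lex (Fin M → Bool)) = Fintype.card (Fin M → Bool) :=
      Fintype.card_congr ofLex
    rw [this]; simp
  let e := Fintype.orderIsoFinOfCardEq (Lex (Fin M → Bool)) hcard
  obtain ⟨a, ha⟩ : ∃ a : Fin M → Bool, toLex a = e ⟨K, hK⟩ := ⟨ofLex (e ⟨K, hK⟩), rfl⟩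
  have hE : ∀ i : Fin (2 ^ M), ∃ f : Fin M → Bool, toLex f = e i := fun i => ⟨ofLex (e i), rfl⟩
  choose E hE' using hE
  refine ⟨a, ?_⟩
  have h1 : (Finset.univ.filter (fun f : Fin M → Bool => toLex f < toLex a)) =
      (Finset.Iio (⟨K, hK⟩ : Fin (2 ^ M))).image E := by
    ext f
    simp only [Finset.mem_filter, Finset.mem_univ, true_and, Finset.mem_image, Finset.mem_Iio]
    constructor
    · intro h
      refine ⟨e.symm (toLex f), ?_, ?_⟩
      · rw [← e.lt_iff_lt, ← ha, OrderIso.apply_symm_apply]
        exact h
      · have h2 := hE' (e.symm (toLex f))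
        rw [OrderIso.apply_symm_apply] at h2
        exact toLex.injective h2
    · rintro ⟨i, hi, rfl⟩
      rw [ha, hE' i]
      exact e.lt_iff_lt.2 hi
  rw [h1, Finset.card_image_of_injective, Fin.card_Iio]
  intro i j hij
  apply e.injective
  rw [← hE', ← hE', hij]

/-- an event depends on the strings of length at most `m` only -/
def DepOn (m : ℕ) (E : Set (List Bool → Bool)) : Prop :=
  ∀ ω ω', (∀ y : List Bool, y.length ≤ m → ω y = ω' y) → (ω ∈ E ↔ ω' ∈ E)

theorem exists_less {m : ℕ} {E : Set (List Bool → Bool)} (hE : DepOn m E) (hne : E ≠ Set.univ) :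
    ∃ a : List Bool → Bool, coin {ω | Less (m + 1) ω a} = coin E := by
  classical
  -- the event in terms of the restricted assignments
  let ext : (strs m → Bool) → List Bool → Bool := fun f y =>
    if h : y ∈ strs m then f ⟨y, h⟩ else false
  let P : Finset (strs m → Bool) := Finset.univ.filter (fun f => ext f ∈ E)
  have h1 : E = {ω | (fun i : strs m => ω i) ∈ P} := by
    ext ω
    simp only [Set.mem_ofPred_eq, P, Finset.mem_filter, Finset.mem_univ, true_and]
    refine hE _ _ (fun y hy => ?_)
    simp [ext, mem_strs.2 hy]
  have h2 : coin E = (P.card : ENNReal) * (2⁻¹ : ENNReal) ^ (strs m).card := by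
    conv_lhs => rw [h1]
    rw [coin_count (fun i : strs m => (i : List Bool)) Subtype.val_injective P]
    simp
  have h3 : P.card < 2 ^ (strs m).card := by
    have h4 : P ≠ Finset.univ := by
      intro h
      apply hne
      rw [h1, h]
      ext; simp
    have h5 := Finset.card_lt_card (Finset.ssubset_univ_iff.2 h4)
    simpa using h5
  have h6 : (strs m).card ≤ 2 ^ (m + 1) := (card_strs_lt m).le
  obtain ⟨d, hd⟩ := Nat.exists_eq_add_of_le h6
  have h7 : P.card * 2 ^ d < 2 ^ (2 ^ (m + 1)) := by
    rw [hd, pow_add]
    exact Nat.mul_lt_mul_of_pos_right h3 (by positivity)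
  obtain ⟨a, ha⟩ := exists_threshold (2 ^ (m + 1)) _ h7
  refine ⟨fun w => if h : val w < 2 ^ (m + 1) then a ⟨val w, h⟩ else false, ?_⟩
  have h8 : {ω : List Bool → Bool | Less (m + 1) ω
      (fun w => if h : val w < 2 ^ (m + 1) then a ⟨val w, h⟩ else false)} =
      {ω | (fun i : Fin (2 ^ (m + 1)) => ω (strOf (m + 1) i)) ∈
        Finset.univ.filter (fun f : Fin (2 ^ (m + 1)) → Bool => toLex f < toLex a)} := by
    ext ω
    simp only [Set.mem_ofPred_eq, Finset.mem_filter, Finset.mem_univ, true_and]
    exact less_iff _ _ _
  have hinj : Function.Injective (fun i : Fin (2 ^ (m + 1)) => strOf (m + 1) i) := by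
    intro i j hij
    have := congrArg val hij
    simp only [val_strOf _ _ i.2, val_strOf _ _ j.2] at this
    exact Fin.ext this
  rw [h8, coin_count _ hinj, ha, h2, Fintype.card_fin, hd, pow_add]
  push_cast
  rw [mul_assoc]
  congr 1
  rw [mul_comm ((2⁻¹ : ENNReal) ^ _), ← mul_assoc, ← mul_pow,
    ENNReal.mul_inv_cancel (by norm_num) (by norm_num), one_pow, one_mul]

end Pool.Agent.LPHI
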