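import Mathlib
import Pool.Agent.PolyTime.Classes

/-!
# The LP-hierarchy (MP_6e1f77_lc): definitions (folder of helper78)

Oracle dependent languages `Z ↦ B^Z`, the relativized polynomial hierarchy built by fixed oracle
machines, the fair coin measure on oracles, and the classes `L C` of the problem.
-/

set_option autoImplicit false

namespace Pool.Agent.LPHI

open Pool.Agent.PolyTime MeasureTheory

/-- Oracle dependent languages `Z ↦ B^Z`. -/
abbrev OLang := Set (List Bool) → Set (List Bool)

open Classical in
/-- Functions `(Z, x) ↦ F Z x` computed in polynomial time by one fixed machine with oracle `Z`: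
the least class that contains the polynomial-time functions of `x` (Turing machines), the oracle
call, and is closed under composition, pairing and iteration whose intermediate results are
polynomially bounded, uniformly in `Z`. -/
inductive OFP : (Set (List Bool) → List Bool → List Bool) → Prop
  | base {f : List Bool → List Bool} (hf : FP f) : OFP (fun _ x => f x)
  | oracle : OFP (fun Z x => [decide (x ∈ Z)])
  | comp {g f : Set (List Bool) → List Bool → List Bool} (hg : OFP g) (hf : OFP f) :
      OFP (fun Z x => g Z (f Z x))
  | pair {f g : Set (List Bool) → List Bool → List Bool} (hf : OFP f) (hg : OFP g) :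
      OFP (fun Z x => pr (f Z x) (g Z x))
  | iter {f g h : Set (List Bool) → List Bool → List Bool} (hf : OFP f) (hg : OFP g)
      (hh : OFP h) (p : Polynomial ℕ)
      (hp : ∀ Z x i, i ≤ (g Z x).length → ((f Z)^[i] (h Z x)).length ≤ p.eval x.length) :
      OFP (fun Z x => (f Z)^[(g Z x).length] (h Z x))

/-- `P^C` for a class `C` of oracle dependent languages. -/
def PC (C : Set OLang) : Set OLang :=
  {B | ∃ L ∈ C, ∃ F, OFP F ∧ ∀ Z x, x ∈ B Z ↔ F (L Z) x = [true]}

/-- `NP^C` for a class `C` of oracle dependent languages. -/
def NPC (C : Set OLang) : Set OLang :=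
  {B | ∃ L ∈ C, ∃ F, OFP F ∧ ∃ p : Polynomial ℕ, ∀ Z x, x ∈ B Z ↔
    ∃ y : List Bool, y.length ≤ p.eval x.length ∧ F (L Z) (pr x y) = [true]}

/-- complements -/
def co (C : Set OLang) : Set OLang := {B | (fun Z => (B Z)ᶜ) ∈ C}

/-- The classes `Σ_k` over the base class `C₀` of oracles. -/
def Sig (C₀ : Set OLang) : ℕ → Set OLang
  | 0 => PC C₀
  | k + 1 => NPC (Sig C₀ k)

/-- Names of the classes of the polynomial hierarchy. -/
inductive Level : Type
  | delta (k : ℕ) : Level
  | sigma (k : ℕ) : Level
  | pi (k : ℕ) : Level

/-- The classes `Δ_k`, `Σ_k`, `Π_k` over the base class `C₀` of oracles. -/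
def Cls (C₀ : Set OLang) : Level → Set OLang
  | .delta 0 => PC C₀
  | .delta (k + 1) => PC (Sig C₀ k)
  | .sigma k => Sig C₀ k
  | .pi k => co (Sig C₀ k)

/-- The classes of the relativized polynomial hierarchy, as classes of oracle dependent
languages `Z ↦ B^Z`: the base oracle is `Z` itself. -/
def RelPH (l : Level) : Set OLang := Cls {fun Z => Z} l

/-- The classes of the (unrelativized) polynomial hierarchy: no oracle. -/
def PH (l : Level) : Set (Set (List Bool)) := {A | (fun _ => A) ∈ Cls {fun _ => ∅} l}

/-- The join `A ⊕ Z` of two oracles. -/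
def join (A Z : Set (List Bool)) : Set (List Bool) :=
  {w | (∃ y ∈ A, w = false :: y) ∨ ∃ y ∈ Z, w = true :: y}

/-- The hierarchy with oracles `Z`, relativized to a fixed oracle `A`: machines have the
oracle `A ⊕ Z`. -/
def RelPHA (A : Set (List Bool)) (l : Level) : Set OLang := Cls {fun Z => join A Z} l

/-- The classes of the polynomial hierarchy relative to a fixed oracle `A`. -/
def PHA (A : Set (List Bool)) (l : Level) : Set (Set (List Bool)) :=
  {L | (fun _ => L) ∈ Cls {fun _ => A} l}

/-- The fair coin measure on oracles (given by characteristic functions). -/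
noncomputable def coin : Measure (List Bool → Bool) :=
  Measure.infinitePi (fun _ : List Bool => (PMF.uniformOfFintype Bool).toMeasure)

/-- the oracle with a given characteristic function -/
def ora (ω : List Bool → Bool) : Set (List Bool) := {x | ω x = true}

/-- The probability (over `Z`) that `x` is in `B^Z`. -/
noncomputable def prob (B : OLang) (x : List Bool) : ℝ := (coin {ω | x ∈ B (ora ω)}).toReal

/-- The `n`-th binary string `z_n` (by length, then lexicographically): `1 z_n` is the binary
representation of `n + 1`. -/
def zstr (n : ℕ) : List Bool := (Nat.bits (n + 1)).reverse.tail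

/-- `Lm(B)`: the triples `⟨x, z_k, z_n⟩` with `k ≥ 1` and `μ(Z : x ∈ B^Z) > n / k`. -/
def Lm (B : OLang) : Set (List Bool) :=
  {w | ∃ (x : List Bool) (k n : ℕ), 0 < k ∧ w = pr x (pr (zstr k) (zstr n)) ∧
    (n : ℝ) / k < prob B x}

/-- `L C`, for a class `C` of oracle dependent languages. -/
def LC (C : Set OLang) : Set (Set (List Bool)) := Lm '' C

end Pool.Agent.LPHI
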