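import Pool.Agent.LPHI.Compare

/-!
# The LP-hierarchy: counting strings of digits below a number
-/

set_option autoImplicit false

namespace Pool.Agent.LPHI

open Pool.Agent.PolyTime

theorem bits_reverse (n : ℕ) : (Nat.bits (n + 1)).reverse = true :: zstr n := by
  have h1 : Nat.bits (n + 1) ≠ [] := by
    intro h
    have h2 := Nat.digits_two_eq_bits (n + 1)
    rw [h] at h2
    simp at h2
  have h3 : (Nat.bits (n + 1)).getLast h1 = true := by
    have h4 := Nat.getLast_digit_ne_zero 2 (m := n + 1) (by omega)
    have h5 := Nat.digits_two_eq_bits (n + 1)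
    simp only [h5] at h4
    rw [List.getLast_map] at h4
    by_contra h6
    simp only [Bool.not_eq_true] at h6
    rw [h6] at h4
    simp at h4
  have h7 : (Nat.bits (n + 1)).reverse.head (by simpa using h1) = true := by
    rw [List.head_reverse]; exact h3
  unfold zstr
  conv_lhs => rw [← List.cons_head_tail (l := (Nat.bits (n + 1)).reverse) (by simpa using h1)]
  rw [h7]

theorem val_zstr (n : ℕ) : valMSB (true :: zstr n) = n + 1 := by
  rw [← bits_reverse, valMSB_reverse_bits]

theorem valMSB_inj {l m : List Bool} (h : l.length = m.length) (hv : valMSB l = valMSB m) :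
    l = m := by
  induction l generalizing m with
  | nil => exact (List.length_eq_zero_iff.1 h.symm).symm
  | cons b l ih =>
    rcases m with _ | ⟨c, m⟩
    · simp at h
    · simp only [List.length_cons, Nat.add_right_cancel_iff] at h
      rw [valMSB_cons, valMSB_cons, h] at hv
      have h1 := valMSB_lt l
      have h2 := valMSB_lt m
      rw [h] at h1
      have h3 : b = c := by
        cases b <;> cases c <;> simp at hv ⊢ <;> omega
      subst h3
      rw [ih h (by omega)]

theorem length_zstr_le {n a : ℕ} (h : n + 1 < 2 ^ a) : (zstr n).length + 1 ≤ a := by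
  have h1 : (true :: zstr n).length = Nat.size (n + 1) := by
    rw [← bits_reverse, List.length_reverse, Nat.size_eq_bits_len]
  rw [List.length_cons] at h1
  rw [h1]
  exact Nat.size_le.2 h

theorem exists_zstr (z : List Bool) : ∃ n, zstr n = z := by
  have h0 : 2 ^ z.length ≤ valMSB (true :: z) := by
    rw [valMSB_cons]; simp
  have h1 : 1 ≤ valMSB (true :: z) := le_trans (Nat.one_le_two_pow) h0
  refine ⟨valMSB (true :: z) - 1, ?_⟩
  have h2 : valMSB (true :: zstr (valMSB (true :: z) - 1)) = valMSB (true :: z) := by
    rw [val_zstr]; omega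
  have h3 : (true :: zstr (valMSB (true :: z) - 1)).length = (true :: z).length := by
    rw [← bits_reverse, List.length_reverse, Nat.size_eq_bits_len, List.length_cons]
    have h4 : valMSB (true :: z) - 1 + 1 = valMSB (true :: z) := by omega
    rw [h4]
    apply le_antisymm
    · refine Nat.size_le.2 ?_
      have := valMSB_lt (true :: z)
      rwa [List.length_cons] at this
    · rw [Nat.succ_le_iff]
      exact Nat.lt_size.2 h0
  have h5 := valMSB_inj h3 h2
  simpa using h5

theorem Lt_zstr {k : ℕ} {r : List Bool} : Lt (zstr k) r ↔ valMSB r < k := by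
  unfold Lt
  rw [val_zstr]
  omega

theorem rbl_congr {g g' : ℕ → Bool} {a : ℕ} (h : ∀ i < a, g i = g' i) : rbl g a = rbl g' a := by
  induction a with
  | zero => rfl
  | succ a ih =>
    rw [rbl, rbl, h a (by omega), ih (fun i hi => h i (by omega))]

theorem rbl_inj {g g' : ℕ → Bool} {a : ℕ} (h : rbl g a = rbl g' a) : ∀ i < a, g i = g' i := by
  induction a with
  | zero => intro i hi; omega
  | succ a ih =>
    rw [rbl, rbl, List.cons.injEq] at h
    intro i hi
    rcases Nat.lt_succ_iff_lt_or_eq.1 hi with h1 | rfl
    · exact ih h.2 i h1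
    · exact h.1

/-- the string of digits given by `f` -/
def rf {a : ℕ} (f : Fin a → Bool) : List Bool :=
  rbl (fun i => if h : i < a then f ⟨i, h⟩ else false) a

theorem length_rf {a : ℕ} (f : Fin a → Bool) : (rf f).length = a := length_rbl _ _

theorem rf_inj {a : ℕ} {f f' : Fin a → Bool} (h : rf f = rf f') : f = f' := by
  funext i
  have h1 := rbl_inj h i i.2
  simpa [i.2] using h1

open Classical in
theorem card_Lt {a k : ℕ} (hk : k ≤ 2 ^ a) :
    (Finset.univ.filter (fun f : Fin a → Bool => Lt (zstr k) (rf f))).card = k := by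
  let φ : (Fin a → Bool) → Fin (2 ^ a) := fun f =>
    ⟨valMSB (rf f), by have := valMSB_lt (rf f); rwa [length_rf] at this⟩
  have hinj : Function.Injective φ := by
    intro f f' h
    have h1 : valMSB (rf f) = valMSB (rf f') := congrArg Fin.val h
    exact rf_inj (valMSB_inj (by rw [length_rf, length_rf]) h1)
  have hbij : Function.Bijective φ := by
    rw [Fintype.bijective_iff_injective_and_card]
    exact ⟨hinj, by simp⟩
  have h1 : (Finset.univ.filter (fun f : Fin a → Bool => Lt (zstr k) (rf f))).card =
      (Finset.univ.filter (fun i : Fin (2 ^ a) => i.val < k)).card := by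
    refine Finset.card_bij (fun f _ => φ f) ?_ (fun f _ f' _ h => hinj h) ?_
    · intro f hf
      simp only [Finset.mem_filter, Finset.mem_univ, true_and] at hf ⊢
      exact Lt_zstr.1 hf
    · intro i hi
      obtain ⟨f, rfl⟩ := hbij.2 i
      refine ⟨f, ?_, rfl⟩
      simp only [Finset.mem_filter, Finset.mem_univ, true_and] at hi ⊢
      exact Lt_zstr.2 hi
  rw [h1, Fin.card_filter_val_lt]
  exact min_eq_right hk

end Pool.Agent.LPHI
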