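import Pool.Agent.LPHI.Oracle

/-!
# The LP-hierarchy: final statements
-/

set_option autoImplicit false

namespace Pool.Agent.LPHI

open Pool.Agent.PolyTime MeasureTheory

theorem sig_subset_succ (C₀ : Set OLang) (k : ℕ) : Sig C₀ k ⊆ Sig C₀ (k + 1) :=
  (subset_pc _).trans (pc_subset_npc _)

theorem sig_mono (C₀ : Set OLang) {k m : ℕ} (h : k ≤ m) : Sig C₀ k ⊆ Sig C₀ m := by
  induction m, h using Nat.le_induction with
  | base => exact subset_rfl
  | succ m _ ih => exact ih.trans (sig_subset_succ _ _)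

theorem co_mono {C D : Set OLang} (h : C ⊆ D) : co C ⊆ co D := fun _ hB => h hB

theorem delta_two_subset_delta (C₀ : Set OLang) (k : ℕ) :
    PC (Sig C₀ 1) ⊆ Cls C₀ (.delta (k + 2)) := pc_mono (sig_mono _ (by omega))

theorem delta_two_subset_sigma (C₀ : Set OLang) (k : ℕ) :
    PC (Sig C₀ 1) ⊆ Cls C₀ (.sigma (k + 2)) :=
  (pc_mono (sig_mono _ (by omega))).trans (pc_subset_npc (Sig C₀ (k + 1)))

theorem delta_two_subset_pi (C₀ : Set OLang) (k : ℕ) :
    PC (Sig C₀ 1) ⊆ Cls C₀ (.pi (k + 2)) := by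
  intro B hB
  have h1 : B ∈ co (PC (Sig C₀ 1)) := by rw [co_pc]; exact hB
  exact co_mono (delta_two_subset_sigma C₀ k) h1

theorem pc_subset_sig (C₀ : Set OLang) (k : ℕ) : PC C₀ ⊆ Sig C₀ k := sig_mono _ (Nat.zero_le k)

theorem pc_subset_cls (C₀ : Set OLang) (l : Level) : PC C₀ ⊆ Cls C₀ l := by
  match l with
  | .delta 0 => exact subset_rfl
  | .delta (k + 1) => exact (pc_subset_sig _ _).trans (subset_pc _)
  | .sigma k => exact pc_subset_sig _ _
  | .pi k =>
    intro B hB
    have h1 : B ∈ co (PC C₀) := by rw [co_pc]; exact hB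
    exact co_mono (pc_subset_sig _ _) h1

theorem cls_delta_one (C₀ : Set OLang) : Cls C₀ (.delta 1) = PC C₀ := pc_pc C₀

theorem cls_pi_zero (C₀ : Set OLang) : Cls C₀ (.pi 0) = PC C₀ := co_pc C₀

/-- the relations between the first classes -/
def FirstLevels (R : Level → Set OLang) : Prop :=
  LC (R (.delta 0)) ⊂ LC (R (.sigma 1)) ∧ LC (R (.delta 0)) ⊂ LC (R (.pi 1)) ∧
  ¬ LC (R (.sigma 1)) ⊆ LC (R (.pi 1)) ∧ ¬ LC (R (.pi 1)) ⊆ LC (R (.sigma 1)) ∧
  LC (R (.sigma 1)) ∪ LC (R (.pi 1)) ⊂ LC (R (.delta 2))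

theorem firstLevels_of_good {J : OLang} (hJ : GoodBase J) : FirstLevels (Cls {J}) :=
  ⟨lc_pc_ssubset_sigma hJ, lc_pc_ssubset_pi hJ, lc_sigma_one_not_subset hJ,
    lc_pi_one_not_subset hJ, lc_union_ssubset hJ⟩

theorem firstLevels : FirstLevels RelPH := firstLevels_of_good goodBase_id

theorem firstLevels_rel (A : Set (List Bool)) : FirstLevels (RelPHA A) :=
  firstLevels_of_good (goodBase_join A)

theorem pc_const_subset (A : Set (List Bool)) : PC {fun _ => A} ⊆ PC {fun Z => join A Z} := by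
  classical
  rintro B ⟨L, rfl, F, hF, hB⟩
  have h1 : OFP (fun W x => [@decide (x ∈ {y : List Bool | false :: y ∈ W})
      (Classical.propDecidable _)]) := by
    refine (OFP.query (OFP.base (FP.cons false))).congr (fun W x => ?_)
    simp
  refine ⟨fun Z => join A Z, rfl, _, OFP.subst (J := fun W => {y : List Bool | false :: y ∈ W})
    h1 hF, fun Z x => ?_⟩
  have h2 : {y : List Bool | false :: y ∈ join A Z} = A := by
    ext y; exact cons_false_mem_join
  rw [h2]
  exact hB Z x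

theorem sig_const_subset (A : Set (List Bool)) (k : ℕ) :
    Sig {fun _ => A} k ⊆ Sig {fun Z => join A Z} k := by
  induction k with
  | zero => exact pc_const_subset A
  | succ k ih => exact npc_mono ih

theorem cls_const_subset (A : Set (List Bool)) (l : Level) :
    Cls {fun _ => A} l ⊆ Cls {fun Z => join A Z} l := by
  match l with
  | .delta 0 => exact pc_const_subset A
  | .delta (k + 1) => exact pc_mono (sig_const_subset A k)
  | .sigma k => exact sig_const_subset A k
  | .pi k => exact co_mono (sig_const_subset A k)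

/-- **Oracle collapse.** -/
theorem exists_oracle : ∃ A : Set (List Bool),
    (∀ l, LC (RelPHA A l) ⊆ LC (RelPHA A (.delta 2))) ∧ (∀ l, PHA A l = PHA A (.delta 0)) := by
  obtain ⟨e, he⟩ := exists_enum_fam
  have h1 : ∀ n, Loc (e n) := by
    intro n
    obtain ⟨l, hl⟩ := (he (e n)).2 ⟨n, rfl⟩
    exact loc_relph l _ hl
  choose c hc using h1
  refine ⟨bigA e c, fun l => ?_, fun l => Set.Subset.antisymm ?_ ?_⟩
  · rintro _ ⟨B, hB, rfl⟩
    obtain ⟨B', hB', rfl⟩ := (cls_subst _ l B).1 hB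
    obtain ⟨n, rfl⟩ := (he B').1 ⟨l, hB'⟩
    obtain ⟨C, hC, hCp⟩ := exists_rep e c hc n
    exact ⟨C, hC, lm_eq_iff.2 hCp⟩
  · intro L hL
    obtain ⟨B', hB', hBL⟩ := (cls_subst _ l _).1 (cls_const_subset _ l hL)
    obtain ⟨n, rfl⟩ := (he B').1 ⟨l, hB'⟩
    refine ⟨fun _ => bigA e c, rfl, _, IsOD.mem (OFP.flagStr n (c n) OFP.id), fun Z x => ?_⟩
    rw [ans_eq]
    show x ∈ L ↔ flagStr n (c n) x ∈ bigA e c
    rw [flag_mem_bigA e c hc]
    have h2 : ev e n x (bigA e c) = {_ω : List Bool → Bool | x ∈ L} := by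
      ext ω
      have h3 : e n (join (bigA e c) (ora ω)) = L := (congrFun hBL (ora ω)).symm
      show x ∈ e n (join (bigA e c) (ora ω)) ↔ x ∈ L
      rw [h3]
    rw [h2]
    constructor
    · intro h
      ext ω
      simp [h]
    · intro h
      have h4 : (fun _ => false : List Bool → Bool) ∈ {_ω : List Bool → Bool | x ∈ L} := by
        rw [h]; trivial
      exact h4
  · intro L hL
    exact pc_subset_cls _ l hL

theorem lc_delta_two_of {A : Set (List Bool)}
    (h : ∀ l, LC (RelPHA A l) ⊆ LC (RelPHA A (.delta 2))) (k : ℕ) :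
    LC (RelPHA A (.delta (k + 2))) = LC (RelPHA A (.delta 2)) ∧
    LC (RelPHA A (.sigma (k + 2))) = LC (RelPHA A (.delta 2)) ∧
    LC (RelPHA A (.pi (k + 2))) = LC (RelPHA A (.delta 2)) :=
  ⟨(h _).antisymm (lc_mono (delta_two_subset_delta _ k)),
    (h _).antisymm (lc_mono (delta_two_subset_sigma _ k)),
    (h _).antisymm (lc_mono (delta_two_subset_pi _ k))⟩

theorem range_eq_of {A : Set (List Bool)}
    (h : ∀ l, LC (RelPHA A l) ⊆ LC (RelPHA A (.delta 2))) :
    Set.range (fun l => LC (RelPHA A l)) = {LC (RelPHA A (.delta 0)), LC (RelPHA A (.sigma 1)),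
      LC (RelPHA A (.pi 1)), LC (RelPHA A (.delta 2))} := by
  ext D
  simp only [Set.mem_range, Set.mem_insert_iff, Set.mem_singleton_iff]
  constructor
  · rintro ⟨l, rfl⟩
    match l with
    | .delta 0 => exact Or.inl rfl
    | .delta 1 =>
      left
      exact congrArg LC (cls_delta_one _)
    | .delta (k + 2) => exact Or.inr (Or.inr (Or.inr (lc_delta_two_of h k).1))
    | .sigma 0 => exact Or.inl rfl
    | .sigma 1 => exact Or.inr (Or.inl rfl)
    | .sigma (k + 2) => exact Or.inr (Or.inr (Or.inr (lc_delta_two_of h k).2.1))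
    | .pi 0 =>
      left
      exact congrArg LC (cls_pi_zero _)
    | .pi 1 => exact Or.inr (Or.inr (Or.inl rfl))
    | .pi (k + 2) => exact Or.inr (Or.inr (Or.inr (lc_delta_two_of h k).2.2))
  · rintro (rfl | rfl | rfl | rfl)
    · exact ⟨.delta 0, rfl⟩
    · exact ⟨.sigma 1, rfl⟩
    · exact ⟨.pi 1, rfl⟩
    · exact ⟨.delta 2, rfl⟩

/-- four different classes -/
theorem ncard_eq_four {R : Level → Set OLang} (h : FirstLevels R) :
    ({LC (R (.delta 0)), LC (R (.sigma 1)), LC (R (.pi 1)), LC (R (.delta 2))} :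
      Set (Set (Set (List Bool)))).ncard = 4 := by
  obtain ⟨h1, h2, h3, h4, h5⟩ := h
  have e1 : LC (R (.delta 0)) ≠ LC (R (.sigma 1)) := h1.ne
  have e2 : LC (R (.delta 0)) ≠ LC (R (.pi 1)) := h2.ne
  have e3 : LC (R (.sigma 1)) ≠ LC (R (.pi 1)) := fun h => h3 h.le
  have e4 : LC (R (.sigma 1)) ≠ LC (R (.delta 2)) := by
    intro h
    exact h5.2 (fun D hD => Or.inl (by rw [h]; exact hD))
  have e5 : LC (R (.pi 1)) ≠ LC (R (.delta 2)) := by
    intro h
    exact h5.2 (fun D hD => Or.inr (by rw [h]; exact hD))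
  have e6 : LC (R (.delta 0)) ≠ LC (R (.delta 2)) := by
    intro h
    have h6 : LC (R (.sigma 1)) ⊆ LC (R (.delta 0)) := by
      rw [h]
      exact fun D hD => h5.1 (Or.inl hD)
    exact h1.2 h6
  rw [Set.ncard_insert_of_notMem, Set.ncard_insert_of_notMem, Set.ncard_insert_of_notMem,
    Set.ncard_singleton]
  · simpa using e5
  · simp [e3, e4]
  · simp [e1, e2, e6]

end Pool.Agent.LPHI
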