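import Pool.Agent.LPHI.Digits

/-!
# Counting functions with a fixed point
-/

set_option autoImplicit false

namespace Pool.Agent.LPHI

open Pool.Agent.PolyTime

section

variable {V : Type} [Fintype V] [DecidableEq V]

open Classical in
theorem card_avoid (P : V → Prop) [DecidablePred P] :
    (Finset.univ.filter (fun f : V → V => ∀ j, P j → f j ≠ j)).card =
      (Fintype.card V - 1) ^ (Finset.univ.filter P).card *
        (Fintype.card V) ^ (Finset.univ.filter (fun j => ¬ P j)).card := by
  have h1 : (Finset.univ.filter (fun f : V → V => ∀ j, P j → f j ≠ j)) =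
      Fintype.piFinset (fun j => if P j then Finset.univ.erase j else Finset.univ) := by
    ext f
    simp only [Finset.mem_filter, Finset.mem_univ, true_and, Fintype.mem_piFinset]
    refine forall_congr' fun j => ?_
    by_cases h : P j <;> simp [h]
  rw [h1, Fintype.card_piFinset]
  have h2 : ∀ j, (if P j then Finset.univ.erase j else (Finset.univ : Finset V)).card =
      if P j then (Fintype.card V - 1) else Fintype.card V := by
    intro j
    split_ifs
    · rw [Finset.card_erase_of_mem (Finset.mem_univ _), Finset.card_univ]
    · rw [Finset.card_univ]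
  rw [Finset.prod_congr rfl (fun j _ => h2 j), Finset.prod_ite, Finset.prod_const,
    Finset.prod_const]

open Classical in
theorem card_fix : (Finset.univ.filter (fun f : V → V => ∃ j, f j = j)).card +
    (Fintype.card V - 1) ^ Fintype.card V = Fintype.card V ^ Fintype.card V := by
  have h1 := card_avoid (V := V) (fun _ => True)
  simp only [forall_const, Finset.filter_true, not_true_eq_false, Finset.filter_false,
    Finset.card_empty, pow_zero, mul_one, Finset.card_univ] at h1
  rw [← h1]
  have h2 := Finset.card_filter_add_card_filter_not (s := (Finset.univ : Finset (V → V)))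
    (fun f => ∃ j, f j = j)
  rw [Finset.card_univ, Fintype.card_fun] at h2
  rw [← h2]
  congr 2
  ext f
  simp

open Classical in
theorem card_before (r : V → ℕ) (hr : Function.Injective r) (hlt : ∀ v, r v < Fintype.card V) :
    (Finset.univ.filter (fun q : V × (V → V) => ∃ j, q.2 j = j ∧ r j < r q.1)).card =
      Fintype.card V * (Fintype.card V - 1) ^ Fintype.card V := by
  set N := Fintype.card V with hN
  have himg : Finset.univ.image r = Finset.range N := by
    refine Finset.eq_of_subset_of_card_le ?_ ?_
    · intro k hk
      obtain ⟨v, _, rfl⟩ := Finset.mem_image.1 hk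
      exact Finset.mem_range.2 (hlt v)
    · rw [Finset.card_image_of_injective _ hr, Finset.card_univ, Finset.card_range]
  have hcount : ∀ k ≤ N, (Finset.univ.filter (fun j => r j < k)).card = k := by
    intro k hk
    rw [← Finset.card_image_of_injective _ hr]
    have h1 : (Finset.univ.filter (fun j => r j < k)).image r = Finset.range k := by
      ext m
      simp only [Finset.mem_image, Finset.mem_filter, Finset.mem_univ, true_and,
        Finset.mem_range]
      constructor
      · rintro ⟨v, h, rfl⟩; exact h
      · intro h
        have h2 : m ∈ Finset.univ.image r := by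
          rw [himg]; exact Finset.mem_range.2 (by omega)
        obtain ⟨v, _, rfl⟩ := Finset.mem_image.1 h2
        exact ⟨v, h, rfl⟩
    rw [h1, Finset.card_range]
  have hcount' : ∀ k ≤ N, (Finset.univ.filter (fun j => ¬ r j < k)).card = N - k := by
    intro k hk
    have h1 := Finset.card_filter_add_card_filter_not (s := (Finset.univ : Finset V))
      (fun j => r j < k)
    rw [hcount k hk, Finset.card_univ, ← hN] at h1
    omega
  -- the complement
  have hcompl : (Finset.univ.filter
      (fun q : V × (V → V) => ¬ ∃ j, q.2 j = j ∧ r j < r q.1)).card =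
      ∑ k ∈ Finset.range N, (N - 1) ^ k * N ^ (N - k) := by
    rw [← himg, Finset.sum_image (fun _ _ _ _ h => hr h), Finset.card_filter,
      Fintype.sum_prod_type]
    refine Finset.sum_congr rfl (fun J _ => ?_)
    rw [← Finset.card_filter]
    have h1 := card_avoid (V := V) (fun j => r j < r J)
    rw [hcount _ (hlt J).le, hcount' _ (hlt J).le] at h1
    rw [← h1]
    congr 1
    ext f
    simp only [Finset.mem_filter, Finset.mem_univ, true_and]
    push Not
    exact ⟨fun h j h1 h2 => absurd h1 (not_lt.2 (h j h2)), fun h j h2 => by
      by_contra h3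
      push Not at h3
      exact h j h3 h2⟩
  have hsum := Finset.card_filter_add_card_filter_not
    (s := (Finset.univ : Finset (V × (V → V)))) (fun q => ∃ j, q.2 j = j ∧ r j < r q.1)
  rw [hcompl, Finset.card_univ, Fintype.card_prod, Fintype.card_fun, ← hN] at hsum
  -- the geometric sum
  have hgeo : (∑ k ∈ Finset.range N, (N - 1) ^ k * N ^ (N - k)) + N * (N - 1) ^ N = N * N ^ N := by
    rcases Nat.eq_zero_or_pos N with h0 | h0
    · rw [h0]; simp
    · have h1 : ∀ k ∈ Finset.range N, (N - 1) ^ k * N ^ (N - k) =
          N * ((N - 1) ^ k * N ^ (N - 1 - k)) := by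
        intro k hk
        rw [Finset.mem_range] at hk
        have h2 : N - k = (N - 1 - k) + 1 := by omega
        rw [h2, pow_succ]
        ring
      rw [Finset.sum_congr rfl h1, ← Finset.mul_sum, ← mul_add]
      congr 1
      have h3 := geom_sum₂_mul ((N : ℤ) - 1) (N : ℤ) N
      have h4 : ((N : ℤ) - 1 - N) = -1 := by ring
      rw [h4] at h3
      zify [h0]
      linarith
  omega

end

end Pool.Agent.LPHI
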