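import Pool.Agent.LPHI.Digits
import Pool.Agent.LPHI.Final

/-!
# The LP-hierarchy: many-one reductions to `LΔ_2`
-/

set_option autoImplicit false

namespace Pool.Agent.LPHI

open Pool.Agent.PolyTime MeasureTheory

/-! ### the counting -/

section

variable {a : ℕ} {S K : Type} [Fintype S] [Fintype K] [DecidableEq S] [DecidableEq K]

/-- the coordinates -/
abbrev Ix (a : ℕ) (S K : Type) : Type := Unit ⊕ (Fin a ⊕ (S ⊕ K))

/-- splitting an assignment -/
def spl (f : Ix a S K → Bool) : Bool × (Fin a → Bool) × (S → Bool) × (K → Bool) :=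
  (f (Sum.inl ()), fun i => f (Sum.inr (Sum.inl i)), fun i => f (Sum.inr (Sum.inr (Sum.inl i))),
    fun i => f (Sum.inr (Sum.inr (Sum.inr i))))

omit [Fintype S] [Fintype K] [DecidableEq S] [DecidableEq K] in
theorem spl_bij : Function.Bijective (spl (a := a) (S := S) (K := K)) := by
  constructor
  · intro f f' h
    simp only [spl, Prod.mk.injEq] at h
    obtain ⟨h1, h2, h3, h4⟩ := h
    funext i
    rcases i with ⟨⟩ | i | i | i
    · exact h1
    · exact congrFun h2 i
    · exact congrFun h3 i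
    · exact congrFun h4 i
  · rintro ⟨b, r, g, h⟩
    exact ⟨Sum.elim (fun _ => b) (Sum.elim r (Sum.elim g h)), rfl⟩

open Classical in
theorem card_main (U U' : (Fin a → Bool) → Prop) (τ : (S → Bool) → (K → Bool))
    (β : (S → Bool) → Prop) :
    (Finset.univ.filter (fun f : Ix a S K → Bool =>
      ((spl f).1 = false ∧ U (spl f).2.1 ∧ (spl f).2.2.2 = τ (spl f).2.2.1 ∧ β (spl f).2.2.1) ∨
      ((spl f).1 = true ∧ ¬ (U' (spl f).2.1 ∧ (spl f).2.2.2 = fun _ => false)))).card +
      (Finset.univ.filter U').card * 2 ^ Fintype.card S =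
    (Finset.univ.filter U).card * (Finset.univ.filter β).card +
      2 ^ a * 2 ^ Fintype.card S * 2 ^ Fintype.card K := by
  -- transport to the product
  have h1 : (Finset.univ.filter (fun f : Ix a S K → Bool =>
      ((spl f).1 = false ∧ U (spl f).2.1 ∧ (spl f).2.2.2 = τ (spl f).2.2.1 ∧ β (spl f).2.2.1) ∨
      ((spl f).1 = true ∧ ¬ (U' (spl f).2.1 ∧ (spl f).2.2.2 = fun _ => false)))).card =
      (Finset.univ.filter (fun q : Bool × (Fin a → Bool) × (S → Bool) × (K → Bool) =>
      (q.1 = false ∧ U q.2.1 ∧ q.2.2.2 = τ q.2.2.1 ∧ β q.2.2.1) ∨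
      (q.1 = true ∧ ¬ (U' q.2.1 ∧ q.2.2.2 = fun _ => false)))).card := by
    refine Finset.card_bij (fun f _ => spl f) ?_ (fun f _ f' _ h => spl_bij.1 h) ?_
    · intro f hf
      simpa using hf
    · intro q hq
      obtain ⟨f, rfl⟩ := spl_bij.2 q
      exact ⟨f, by simpa using hq, rfl⟩
  rw [h1]
  -- the two parts
  have h2 : (Finset.univ.filter (fun q : Bool × (Fin a → Bool) × (S → Bool) × (K → Bool) =>
      (q.1 = false ∧ U q.2.1 ∧ q.2.2.2 = τ q.2.2.1 ∧ β q.2.2.1) ∨
      (q.1 = true ∧ ¬ (U' q.2.1 ∧ q.2.2.2 = fun _ => false)))) =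
      ((Finset.univ.filter U ×ˢ Finset.univ.filter β).image
        (fun p => (false, p.1, p.2, τ p.2))) ∪
      (((Finset.univ : Finset ((Fin a → Bool) × (S → Bool) × (K → Bool))) \
        (Finset.univ.filter U' ×ˢ ((Finset.univ : Finset (S → Bool)) ×ˢ
          ({fun _ => false} : Finset (K → Bool))))).image (fun p => (true, p))) := by
    ext ⟨b, r, g, h⟩
    simp only [Finset.mem_filter, Finset.mem_univ, true_and, Finset.mem_union, Finset.mem_image,
      Finset.mem_product, Prod.mk.injEq, Prod.exists, Finset.mem_sdiff, Finset.mem_singleton]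
    constructor
    · rintro (⟨rfl, h3, rfl, h4⟩ | ⟨rfl, h3⟩)
      · exact Or.inl ⟨r, g, ⟨h3, h4⟩, rfl, rfl, rfl, rfl⟩
      · exact Or.inr ⟨r, g, h, h3, rfl, rfl, rfl, rfl⟩
    · rintro (⟨r', g', ⟨h3, h4⟩, rfl, rfl, rfl, rfl⟩ | ⟨r', g', h', h3, rfl, rfl, rfl, rfl⟩)
      · exact Or.inl ⟨rfl, h3, rfl, h4⟩
      · exact Or.inr ⟨rfl, h3⟩
  have h3 : Disjoint ((Finset.univ.filter U ×ˢ Finset.univ.filter β).image
        (fun p => (false, p.1, p.2, τ p.2)))
      (((Finset.univ : Finset ((Fin a → Bool) × (S → Bool) × (K → Bool))) \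
        (Finset.univ.filter U' ×ˢ ((Finset.univ : Finset (S → Bool)) ×ˢ
          ({fun _ => false} : Finset (K → Bool))))).image (fun p => (true, p))) := by
    rw [Finset.disjoint_left]
    rintro q hq hq'
    obtain ⟨p, _, rfl⟩ := Finset.mem_image.1 hq
    obtain ⟨p', _, h4⟩ := Finset.mem_image.1 hq'
    simp at h4
  have h4 : ((Finset.univ.filter U ×ˢ Finset.univ.filter β).image
        (fun p : (Fin a → Bool) × (S → Bool) => (false, p.1, p.2, τ p.2))).card =
      (Finset.univ.filter U).card * (Finset.univ.filter β).card := by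
    rw [Finset.card_image_of_injective, Finset.card_product]
    rintro ⟨r, g⟩ ⟨r', g'⟩ h
    simp only [Prod.mk.injEq, true_and] at h
    rw [h.1, h.2.1]
  have h5 : (((Finset.univ : Finset ((Fin a → Bool) × (S → Bool) × (K → Bool))) \
        (Finset.univ.filter U' ×ˢ ((Finset.univ : Finset (S → Bool)) ×ˢ
          ({fun _ => false} : Finset (K → Bool))))).image (fun p => (true, p))).card +
      (Finset.univ.filter U').card * 2 ^ Fintype.card S =
      2 ^ a * 2 ^ Fintype.card S * 2 ^ Fintype.card K := by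
    rw [Finset.card_image_of_injective _ (fun p p' h => (Prod.mk.inj h).2)]
    have h6 : (Finset.univ.filter U').card * 2 ^ Fintype.card S =
        (Finset.univ.filter U' ×ˢ ((Finset.univ : Finset (S → Bool)) ×ˢ
          ({fun _ => false} : Finset (K → Bool)))).card := by
      rw [Finset.card_product, Finset.card_product, Finset.card_singleton, mul_one,
        Finset.card_univ, Fintype.card_fun, Fintype.card_bool]
    rw [h6, Finset.card_sdiff_add_card_eq_card (Finset.subset_univ _), Finset.card_univ,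
      Fintype.card_prod, Fintype.card_prod, Fintype.card_fun, Fintype.card_fun, Fintype.card_fun,
      Fintype.card_bool, Fintype.card_fin, mul_assoc]
  rw [h2, Finset.card_union_of_disjoint h3, h4, add_assoc, h5]

end

/-! ### finite assignments -/

/-- the set of strings given by a finite assignment -/
def sset {M : ℕ} (g : {y // y ∈ strs M} → Bool) : Set (List Bool) :=
  {y | ∃ h : y ∈ strs M, g ⟨y, h⟩ = true}

theorem coin_count_real {ι : Type} [Fintype ι] [DecidableEq ι] (w : ι → List Bool)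
    (hw : Function.Injective w) (P : Finset (ι → Bool)) :
    (coin {ω | (fun i => ω (w i)) ∈ P}).toReal = (P.card : ℝ) / 2 ^ Fintype.card ι := by
  rw [coin_count w hw P]
  simp only [ENNReal.toReal_mul, ENNReal.toReal_natCast, ENNReal.toReal_pow, ENNReal.toReal_inv,
    ENNReal.toReal_ofNat, inv_pow, div_eq_mul_inv]

open Classical in
theorem prob_local {B : OLang} {x : List Bool} {M : ℕ}
    (hM : ∀ Z Z', (∀ y : List Bool, y.length ≤ M → (y ∈ Z ↔ y ∈ Z')) →
      (x ∈ B Z ↔ x ∈ B Z')) : prob B x = ((Finset.univ.filter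
        (fun g : {y // y ∈ strs M} → Bool => x ∈ B (sset g))).card : ℝ) /
        2 ^ Fintype.card {y // y ∈ strs M} := by
  unfold prob
  rw [← coin_count_real (fun y : {y // y ∈ strs M} => y.1) Subtype.val_injective]
  congr 2
  ext ω
  simp only [Set.mem_ofPred_eq, Finset.mem_filter, Finset.mem_univ, true_and]
  refine hM _ _ (fun y hy => ?_)
  simp only [ora, sset, Set.mem_ofPred_eq]
  exact ⟨fun h => ⟨mem_strs.2 hy, h⟩, fun ⟨_, h⟩ => h⟩

/-! ### the probability of the machine -/

section

variable {j : ℕ} {B : OLang} (T : Tab j B)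

open Classical in
theorem half_lt_prob_CC (hB : Loc B) {v : List Bool} (hv : valid v) {k n : ℕ} (hk0 : 0 < k)
    (hk : kx v = zstr k) (hn : ky v = zstr n) :
    (1 / 2 : ℝ) < prob (CC T) v ↔ (n : ℝ) / k < prob B (p1 v) := by
  set x := p1 v with hx
  set a := v.length with ha
  obtain ⟨c, hc⟩ := hB
  choose Mt hMt using T.hfin
  set Kf : Finset (List Bool) := (strs (T.q.eval x.length)).filter (T.K x.length) with hKf
  have hmemK : ∀ t, t ∈ Kf ↔ T.K x.length t := by
    intro t
    rw [hKf, Finset.mem_filter, mem_strs]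
    exact ⟨fun h => h.2, fun h => ⟨T.hq _ _ h, h⟩⟩
  set M : ℕ := (x.length + 2) ^ c + ∑ t ∈ Kf, Mt t with hM
  have hMB : ∀ Z Z', (∀ y : List Bool, y.length ≤ M → (y ∈ Z ↔ y ∈ Z')) →
      (x ∈ B Z ↔ x ∈ B Z') := fun Z Z' h => hc x Z Z' (fun y hy => h y (by omega))
  have hMT : ∀ t ∈ Kf, ∀ Z Z', (∀ y : List Bool, y.length ≤ M → (y ∈ Z ↔ y ∈ Z')) →
      (t ∈ T.TT Z ↔ t ∈ T.TT Z') := by
    intro t ht Z Z' h
    refine hMt t Z Z' (fun y hy => h y ?_)
    have := Finset.single_le_sum (f := Mt) (fun i _ => Nat.zero_le _) ht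
    omega
  let w : Ix a {y // y ∈ strs M} {t // t ∈ Kf} → List Bool :=
    Sum.elim (fun _ => sk 0) (Sum.elim (fun i => sk (i.1 + 1))
      (Sum.elim (fun y => false :: y.1) (fun t => t.1)))
  have hw : Function.Injective w := by
    refine Function.Injective.sumElim (fun _ _ _ => rfl) (Function.Injective.sumElim ?_
      (Function.Injective.sumElim ?_ Subtype.val_injective ?_) ?_) ?_
    · intro i i' h
      have := sk_inj.1 h
      exact Fin.ext (by omega)
    · intro y y' h
      exact Subtype.ext (List.cons_injective h)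
    · intro y t h
      obtain ⟨i, u, u', h1, _, h2⟩ := T.hkey _ _ ((hmemK t.1).1 t.2)
      exact cons_false_ne_key h1 (h.trans h2)
    · rintro i (y | t) h
      · exact cons_false_ne_sk h.symm
      · obtain ⟨i', u, u', h1, _, h2⟩ := T.hkey _ _ ((hmemK t.1).1 t.2)
        exact sk_ne_key h1 (h.trans h2)
    · rintro _ (i | y | t) h
      · have := sk_inj.1 h
        omega
      · exact cons_false_ne_sk h.symm
      · obtain ⟨i', u, u', h1, _, h2⟩ := T.hkey _ _ ((hmemK t.1).1 t.2)
        exact sk_ne_key h1 (h.trans h2)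
  let U : (Fin a → Bool) → Prop := fun r => Lt (kx v) (rf r)
  let U' : (Fin a → Bool) → Prop := fun r => Lt (ky v) (rf r)
  let τ : ({y // y ∈ strs M} → Bool) → ({t // t ∈ Kf} → Bool) := fun g t =>
    decide (t.1 ∈ T.TT (sset g))
  let β : ({y // y ∈ strs M} → Bool) → Prop := fun g => x ∈ B (sset g)
  have hev : prob (CC T) v = ((Finset.univ.filter
      (fun f : Ix a {y // y ∈ strs M} {t // t ∈ Kf} → Bool =>
      ((spl f).1 = false ∧ U (spl f).2.1 ∧ (spl f).2.2.2 = τ (spl f).2.2.1 ∧ β (spl f).2.2.1) ∨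
      ((spl f).1 = true ∧ ¬ (U' (spl f).2.1 ∧ (spl f).2.2.2 = fun _ => false)))).card : ℝ) /
      2 ^ Fintype.card (Ix a {y // y ∈ strs M} {t // t ∈ Kf}) := by
    unfold prob
    rw [← coin_count_real w hw]
    congr 2
    ext ω
    have e1 : sk 0 ∈ ora ω ↔ ω (sk 0) = true := Iff.rfl
    have e2 : rb (ora ω) v.length = rf (fun i : Fin a => ω (sk (i.1 + 1))) := by
      unfold rb rf
      rw [← ha]
      refine rbl_congr (fun i hi => ?_)
      rw [dif_pos hi, Bool.eq_iff_iff, decide_eq_true_iff]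
      exact Iff.rfl
    have e3 : ∀ y : List Bool, y.length ≤ M → (y ∈ Zb (ora ω) ↔
        y ∈ sset (fun y : {y // y ∈ strs M} => ω (false :: y.1))) := by
      intro y hy
      simp only [ora, Zb, sset, Set.mem_ofPred_eq]
      exact ⟨fun h => ⟨mem_strs.2 hy, h⟩, fun ⟨_, h⟩ => h⟩
    have e4 : (∀ t, T.K (p1 v).length t → (t ∈ ora ω ↔ t ∈ T.TT (Zb (ora ω)))) ↔
        (fun t : {t // t ∈ Kf} => ω t.1) = τ (fun y => ω (false :: y.1)) := by
      constructor
      · intro h
        funext t
        have h1 := h t.1 ((hmemK t.1).1 t.2)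
        rw [hMT t.1 t.2 _ _ e3] at h1
        simp only [τ]
        rw [Bool.eq_iff_iff, decide_eq_true_iff]
        exact h1
      · intro h t ht
        have h1 := congrFun h ⟨t, (hmemK t).2 ht⟩
        simp only [τ] at h1
        rw [Bool.eq_iff_iff, decide_eq_true_iff] at h1
        rw [hMT t ((hmemK t).2 ht) _ _ e3]
        exact h1
    have e5 : (∀ t, T.K (p1 v).length t → t ∉ ora ω) ↔
        (fun t : {t // t ∈ Kf} => ω t.1) = fun _ => false := by
      constructor
      · intro h
        funext t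
        have h1 := h t.1 ((hmemK t.1).1 t.2)
        simpa [ora] using h1
      · intro h t ht
        have h1 := congrFun h ⟨t, (hmemK t).2 ht⟩
        simpa [ora] using h1
    have e6 : p1 v ∈ B (Zb (ora ω)) ↔ β (fun y => ω (false :: y.1)) := hMB _ _ e3
    simp only [Set.mem_ofPred_eq, Finset.mem_filter, Finset.mem_univ, true_and]
    rw [mem_CC, e1, e2, e4, e5, e6]
    simp only [hv, true_and, spl, w, Sum.elim_inl, Sum.elim_inr, U, U', Bool.not_eq_true]
  have hka : k + 1 < 2 ^ a ∧ n + 1 < 2 ^ a := by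
    have h1 := val_zstr k
    have h2 := val_zstr n
    rw [← hk] at h1
    rw [← hn] at h2
    have h3 := valMSB_lt (true :: kx v)
    have h4 := valMSB_lt (true :: ky v)
    rw [List.length_cons] at h3 h4
    have h5 : a = 2 * (p1 v).length + 1 + (2 * (kx v).length + 1 + (ky v).length) := by
      rw [ha]
      conv_lhs => rw [hv.1]
      rw [length_pr, length_pr]
    have h6 : (kx v).length + 1 ≤ a := by omega
    have h7 : (ky v).length + 1 ≤ a := by omega
    have h8 := Nat.pow_le_pow_right (show 0 < 2 by norm_num) h6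
    have h9 := Nat.pow_le_pow_right (show 0 < 2 by norm_num) h7
    omega
  have hU : (Finset.univ.filter U).card = k := by
    have h := card_Lt (a := a) (k := k) (by omega)
    rw [← hk] at h
    convert h
  have hU' : (Finset.univ.filter U').card = n := by
    have h := card_Lt (a := a) (k := n) (by omega)
    rw [← hn] at h
    convert h
  have hcard := card_main U U' τ β
  rw [hU, hU'] at hcard
  rw [hev, prob_local hMB]
  generalize (Finset.univ.filter (fun f : Ix a {y // y ∈ strs M} {t // t ∈ Kf} → Bool =>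
      ((spl f).1 = false ∧ U (spl f).2.1 ∧ (spl f).2.2.2 = τ (spl f).2.2.1 ∧ β (spl f).2.2.1) ∨
      ((spl f).1 = true ∧ ¬ (U' (spl f).2.1 ∧ (spl f).2.2.2 = fun _ => false)))).card = P at *
  have hβ : (Finset.univ.filter β).card = (Finset.univ.filter
      (fun g : {y // y ∈ strs M} → Bool => x ∈ B (sset g))).card := rfl
  rw [← hβ]
  generalize (Finset.univ.filter β).card = b at *
  have hι : Fintype.card (Ix a {y // y ∈ strs M} {t // t ∈ Kf}) =
      1 + (a + (Fintype.card {y // y ∈ strs M} + Fintype.card {t // t ∈ Kf})) := by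
    simp only [Ix, Fintype.card_sum, Fintype.card_unit, Fintype.card_fin]
  rw [hι]
  generalize Fintype.card {y // y ∈ strs M} = s at *
  generalize Fintype.card {t // t ∈ Kf} = m at *
  have hcard' : (P : ℝ) + n * 2 ^ s = k * b + 2 ^ a * 2 ^ s * 2 ^ m := by exact_mod_cast hcard
  have hs : (0 : ℝ) < 2 ^ s := by positivity
  have hk' : (0 : ℝ) < k := by exact_mod_cast hk0
  have hden : (0 : ℝ) < 2 ^ a * 2 ^ s * 2 ^ m := by positivity
  rw [div_lt_div_iff₀ hk' hs, pow_add, pow_add, pow_add, pow_one, div_lt_div_iff₀ (by norm_num)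
    (by positivity)]
  constructor
  · intro h; nlinarith
  · intro h; nlinarith

end

theorem zstr_zero : zstr 0 = [] := by
  have h := val_zstr 0
  have h1 := length_zstr_le (n := 0) (a := 1) (by norm_num)
  have h2 : (zstr 0).length = 0 := by omega
  exact List.length_eq_zero_iff.1 h2

theorem zstr_ne_nil {k : ℕ} : zstr k ≠ [] ↔ 0 < k := by
  constructor
  · intro h
    rcases Nat.eq_zero_or_pos k with rfl | h1
    · exact absurd zstr_zero h
    · exact h1
  · intro h h1
    have h2 := zstr_injective (h1.trans zstr_zero.symm)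
    omega

theorem valid_triple {x : List Bool} {k n : ℕ} (hk : 0 < k) :
    valid (pr x (pr (zstr k) (zstr n))) := by
  unfold valid kx ky
  simp only [p1_pr, p2_pr, true_and]
  exact zstr_ne_nil.2 hk

theorem mem_lm_iff {j : ℕ} {B : OLang} (T : Tab j B) (hB : Loc B) (w : List Bool) :
    w ∈ Lm B ↔ pr w (pr (zstr 2) (zstr 1)) ∈ Lm (CC T) := by
  rw [mem_lm (by norm_num)]
  by_cases hv : valid w
  · obtain ⟨k, hk⟩ := exists_zstr (kx w)
    obtain ⟨n, hn⟩ := exists_zstr (ky w)
    have hk0 : 0 < k := by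
      rw [← zstr_ne_nil, hk]
      exact hv.2
    have h1 := half_lt_prob_CC T hB hv hk0 hk.symm hn.symm
    have h2 : w ∈ Lm B ↔ (n : ℝ) / k < prob B (p1 w) := by
      conv_lhs => rw [hv.1, ← hk, ← hn]
      exact mem_lm hk0
    rw [h2, ← h1]
    norm_num
  · constructor
    · rintro ⟨x, k, n, hk, rfl, _⟩
      exact absurd (valid_triple hk) hv
    · intro h
      exfalso
      have h1 : prob (CC T) w = 0 := by
        unfold prob
        have h2 : {ω : List Bool → Bool | w ∈ CC T (ora ω)} = ∅ := by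
          ext ω
          simp only [Set.mem_ofPred_eq, Set.mem_empty_iff_false, iff_false]
          intro h3
          exact hv ((mem_CC T).1 h3).1
        rw [h2]
        simp
      rw [h1] at h
      norm_num at h

theorem relph_subset_sig (l : Level) : ∃ k, RelPH l ⊆ Sig {fun Z => Z} k := by
  match l with
  | .delta 0 => exact ⟨0, subset_rfl⟩
  | .delta (k + 1) => exact ⟨k + 1, pc_subset_npc _⟩
  | .sigma k => exact ⟨k, subset_rfl⟩
  | .pi k => exact ⟨k + 1, (co_subset_pc _).trans (pc_subset_npc _)⟩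

/-- **Many-one collapse.** -/
theorem many_one (l : Level) : ∀ D ∈ LC (RelPH l), ∃ E ∈ LC (RelPH (.delta 2)),
    ∃ f : List Bool → List Bool, FP f ∧ ∀ w, w ∈ D ↔ f w ∈ E := by
  rintro _ ⟨B, hB, rfl⟩
  obtain ⟨k, hk⟩ := relph_subset_sig l
  obtain ⟨j, ⟨T⟩⟩ := exists_tab k B (hk hB)
  exact ⟨Lm (CC T), ⟨CC T, CC_mem T, rfl⟩, fun w => pr w (pr (zstr 2) (zstr 1)),
    FP.id.pair (FP.const _), mem_lm_iff T (loc_sig_id k B (hk hB))⟩

end Pool.Agent.LPHI
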