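import Pool.Agent.LPHI.Fixed
import Pool.Agent.LPHI.FixCount
import Pool.Agent.LPHI.ManyOne

/-!
# The LP-hierarchy: `LP` is a proper subclass of `LNP ∩ LcoNP`
-/

set_option autoImplicit false

namespace Pool.Agent.LPHI

open Pool.Agent.PolyTime MeasureTheory

theorem rf_surj {w : ℕ} {l : List Bool} (hl : l.length = w) : ∃ f : Fin w → Bool, rf f = l := by
  let φ : (Fin w → Bool) → Fin (2 ^ w) := fun f =>
    ⟨valMSB (rf f), by have := valMSB_lt (rf f); rwa [length_rf] at this⟩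
  have hinj : Function.Injective φ := by
    intro f f' h
    have h1 : valMSB (rf f) = valMSB (rf f') := congrArg Fin.val h
    exact rf_inj (valMSB_inj (by rw [length_rf, length_rf]) h1)
  have hbij : Function.Bijective φ := by
    rw [Fintype.bijective_iff_injective_and_card]
    exact ⟨hinj, by simp⟩
  obtain ⟨f, hf⟩ := hbij.2 ⟨valMSB l, by have := valMSB_lt l; rwa [hl] at this⟩
  exact ⟨f, valMSB_inj (by rw [length_rf, hl]) (congrArg Fin.val hf)⟩

/-- the coordinates of the coded function -/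
def cE {w : ℕ} (q : (Fin w → Bool) × Fin w) : List Bool :=
  false :: pr (rf q.1) (List.replicate q.2.1 true)

theorem cE_inj {w : ℕ} : Function.Injective (cE (w := w)) := by
  rintro ⟨j, i⟩ ⟨j', i'⟩ h
  unfold cE at h
  have h1 := List.cons_injective h
  rw [pr_inj] at h1
  have h2 := congrArg List.length h1.2
  simp only [List.length_replicate] at h2
  exact Prod.ext (rf_inj h1.1) (Fin.ext h2)

open Classical in
/-- the value of the coded function -/
theorem fv_rf {w : ℕ} (ω : List Bool → Bool) (j : Fin w → Bool) :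
    fv (ora ω) (rf j) = rf (fun i => ω (cE (j, i))) := by
  unfold fv
  rw [length_rf]
  unfold rf
  refine rbl_congr (fun i hi => ?_)
  rw [dif_pos hi, Bool.eq_iff_iff, decide_eq_true_iff]
  exact Iff.rfl

open Classical in
theorem rb_rf {w : ℕ} (ω : List Bool → Bool) :
    rb (ora ω) w = rf (fun i : Fin w => ω (sk (i.1 + 1))) := by
  unfold rb rf
  refine rbl_congr (fun i hi => ?_)
  rw [dif_pos hi, Bool.eq_iff_iff, decide_eq_true_iff]
  exact Iff.rfl

theorem card_Vw (w : ℕ) : Fintype.card (Fin w → Bool) = 2 ^ w := by simp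

open Classical in
theorem prob_fixE (x : List Bool) : prob fixE x * ((2 : ℝ) ^ x.length) ^ (2 ^ x.length) =
    ((2 : ℝ) ^ x.length) ^ (2 ^ x.length) - ((2 : ℝ) ^ x.length - 1) ^ (2 ^ x.length) := by
  set w := x.length with hw
  have hev : prob fixE x = ((Finset.univ.filter (fun g : (Fin w → Bool) × Fin w → Bool =>
      ∃ j, (fun i => g (j, i)) = j)).card : ℝ) / 2 ^ Fintype.card ((Fin w → Bool) × Fin w) := by
    unfold prob
    rw [← coin_count_real cE cE_inj]
    congr 2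
    ext ω
    simp only [fixE, Set.mem_ofPred_eq, Finset.mem_filter, Finset.mem_univ, true_and]
    constructor
    · rintro ⟨j, h1, h2⟩
      obtain ⟨f, rfl⟩ := rf_surj h1
      rw [fv_rf] at h2
      exact ⟨f, rf_inj h2⟩
    · rintro ⟨f, h⟩
      exact ⟨rf f, length_rf f, by rw [fv_rf, h]⟩
  have hcurry : (Finset.univ.filter (fun g : (Fin w → Bool) × Fin w → Bool =>
      ∃ j, (fun i => g (j, i)) = j)).card =
      (Finset.univ.filter (fun f : (Fin w → Bool) → (Fin w → Bool) => ∃ j, f j = j)).card := by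
    refine Finset.card_bij (fun g _ => fun j i => g (j, i)) ?_ ?_ ?_
    · intro g hg
      simpa using hg
    · intro g _ g' _ h
      funext ⟨j, i⟩
      exact congrFun (congrFun h j) i
    · intro f hf
      exact ⟨fun q => f q.1 q.2, by simpa using hf, rfl⟩
  have hc := card_fix (V := Fin w → Bool)
  rw [card_Vw] at hc
  have hc' : ((Finset.univ.filter (fun f : (Fin w → Bool) → (Fin w → Bool) =>
      ∃ j, f j = j)).card : ℝ) + ((2 : ℝ) ^ w - 1) ^ (2 ^ w) = ((2 : ℝ) ^ w) ^ (2 ^ w) := by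
    have h1 : 1 ≤ 2 ^ w := Nat.one_le_two_pow
    have h2 := congrArg (Nat.cast (R := ℝ)) hc
    push_cast [Nat.cast_sub h1] at h2
    exact h2
  have hden : (2 : ℝ) ^ Fintype.card ((Fin w → Bool) × Fin w) = ((2 : ℝ) ^ w) ^ (2 ^ w) := by
    rw [Fintype.card_prod, card_Vw, Fintype.card_fin, ← pow_mul, mul_comm]
  rw [hev, hcurry, hden, div_mul_cancel₀ _ (by positivity)]
  linarith

open Classical in
theorem prob_fixG (x : List Bool) : prob fixG x * ((2 : ℝ) ^ x.length) ^ (2 ^ x.length) =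
    ((2 : ℝ) ^ x.length - 1) ^ (2 ^ x.length) := by
  set w := x.length with hw
  let cG : Fin w ⊕ ((Fin w → Bool) × Fin w) → List Bool :=
    Sum.elim (fun i => sk (i.1 + 1)) cE
  have hcG : Function.Injective cG := by
    refine Function.Injective.sumElim ?_ cE_inj ?_
    · intro i i' h
      have := sk_inj.1 h
      exact Fin.ext (by omega)
    · intro i q h
      exact cons_false_ne_sk h.symm
  have hev : prob fixG x = ((Finset.univ.filter
      (fun g : Fin w ⊕ ((Fin w → Bool) × Fin w) → Bool =>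
      ∃ j : Fin w → Bool, (fun i => g (Sum.inr (j, i))) = j ∧
        valMSB (rf j) < valMSB (rf (fun i => g (Sum.inl i))))).card : ℝ) /
        2 ^ Fintype.card (Fin w ⊕ ((Fin w → Bool) × Fin w)) := by
    unfold prob
    rw [← coin_count_real cG hcG]
    congr 2
    ext ω
    simp only [fixG, Set.mem_ofPred_eq, Finset.mem_filter, Finset.mem_univ, true_and]
    rw [← hw, rb_rf]
    constructor
    · rintro ⟨j, h1, h2, h3⟩
      obtain ⟨f, rfl⟩ := rf_surj h1
      rw [fv_rf] at h2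
      exact ⟨f, rf_inj h2, h3⟩
    · rintro ⟨f, h, h3⟩
      refine ⟨rf f, length_rf f, ?_, h3⟩
      rw [fv_rf]
      exact congrArg rf h
  have hcurry : (Finset.univ.filter (fun g : Fin w ⊕ ((Fin w → Bool) × Fin w) → Bool =>
      ∃ j : Fin w → Bool, (fun i => g (Sum.inr (j, i))) = j ∧
        valMSB (rf j) < valMSB (rf (fun i => g (Sum.inl i))))).card =
      (Finset.univ.filter (fun q : (Fin w → Bool) × ((Fin w → Bool) → (Fin w → Bool)) =>
        ∃ j, q.2 j = j ∧ valMSB (rf j) < valMSB (rf q.1))).card := by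
    refine Finset.card_bij (fun g _ => (fun i => g (Sum.inl i), fun j i => g (Sum.inr (j, i))))
      ?_ ?_ ?_
    · intro g hg
      simpa using hg
    · intro g _ g' _ h
      rw [Prod.mk.injEq] at h
      funext q
      rcases q with i | ⟨j, i⟩
      · exact congrFun h.1 i
      · exact congrFun (congrFun h.2 j) i
    · rintro ⟨J, f⟩ hf
      exact ⟨Sum.elim J (fun q => f q.1 q.2), by simpa using hf, rfl⟩
  have hc := card_before (V := Fin w → Bool) (fun j => valMSB (rf j))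
    (fun f f' h => rf_inj (valMSB_inj (by rw [length_rf, length_rf]) h))
    (fun f => by have := valMSB_lt (rf f); rwa [length_rf, ← card_Vw] at this)
  rw [card_Vw] at hc
  have hc' : ((Finset.univ.filter (fun q : (Fin w → Bool) × ((Fin w → Bool) → (Fin w → Bool)) =>
        ∃ j, q.2 j = j ∧ valMSB (rf j) < valMSB (rf q.1))).card : ℝ) =
      (2 : ℝ) ^ w * ((2 : ℝ) ^ w - 1) ^ (2 ^ w) := by
    have h1 : 1 ≤ 2 ^ w := Nat.one_le_two_pow
    have h2 := congrArg (Nat.cast (R := ℝ)) hc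
    push_cast [Nat.cast_sub h1] at h2
    exact h2
  have hden : (2 : ℝ) ^ Fintype.card (Fin w ⊕ ((Fin w → Bool) × Fin w)) =
      2 ^ w * ((2 : ℝ) ^ w) ^ (2 ^ w) := by
    rw [Fintype.card_sum, Fintype.card_prod, card_Vw, Fintype.card_fin, pow_add, ← pow_mul,
      mul_comm (2 ^ w) w]
  rw [hev, hcurry, hden, hc']
  field_simp

theorem lm_fix : Lm fixE = Lm (fun Z => (fixG Z)ᶜ) := by
  rw [lm_eq_iff]
  intro x
  have h1 := prob_fixE x
  have h2 := prob_fixG x
  have h3 : prob (fun Z => (fixG Z)ᶜ) x = 1 - prob fixG x := by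
    have hJ : fixG ∈ Sig {fun Z => Z} 1 := fixG_mem goodBase_id
    obtain ⟨c, hc⟩ := loc_sig_id 1 _ hJ
    have hloc := prob_local (B := fixG) (x := x) (M := (x.length + 2) ^ c) (hc x)
    have hloc' := prob_local (B := fun Z => (fixG Z)ᶜ) (x := x) (M := (x.length + 2) ^ c)
      (fun Z Z' h => not_congr (hc x Z Z' h))
    classical
    have h5 := Finset.card_filter_add_card_filter_not
      (s := (Finset.univ : Finset ({y // y ∈ strs ((x.length + 2) ^ c)} → Bool)))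
      (fun g => x ∈ fixG (sset g))
    rw [Finset.card_univ, Fintype.card_fun, Fintype.card_bool] at h5
    have h6 := congrArg (Nat.cast (R := ℝ)) h5
    push_cast at h6
    rw [hloc, hloc', eq_sub_iff_add_eq, ← add_div, div_eq_one_iff_eq (by positivity), ← h6,
      add_comm]
    congr 2
    congr 1
    ext g
    simp
  rw [h3]
  have h4 : (0 : ℝ) < ((2 : ℝ) ^ x.length) ^ (2 ^ x.length) := by positivity
  have h5 : prob fixE x * ((2 : ℝ) ^ x.length) ^ (2 ^ x.length) =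
      (1 - prob fixG x) * ((2 : ℝ) ^ x.length) ^ (2 ^ x.length) := by
    rw [h1, sub_mul, one_mul, h2]
  exact mul_right_cancel₀ h4.ne' h5

/-- the example is not in `LP` -/
theorem lm_fix_not_mem {J : OLang} (hJ : FewQ J) : Lm fixE ∉ LC (PC {J}) := by
  rintro ⟨B, hB, hBE⟩
  have hpr := lm_eq_iff.1 hBE
  obtain ⟨k, hk⟩ := grain hJ hB
  obtain ⟨n, hn⟩ := exists_big (k + 1)
  -- a long string
  have hn' : (n + 3) ^ (k + 1) < 2 ^ (n + 1) := hn.trans (card_strs_lt n)
  set x : List Bool := List.replicate (n + 1) true with hx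
  have hxl : x.length = n + 1 := by simp [hx]
  obtain ⟨a, ha⟩ := hk x
  rw [hpr, hxl] at ha
  have h1 := prob_fixE x
  rw [hxl] at h1
  set t := (n + 1 + 2) ^ k with ht
  have htlt : t < (n + 1) * 2 ^ (n + 1) := by
    have h2 : (n + 3) ^ k ≤ (n + 3) ^ (k + 1) := Nat.pow_le_pow_right (by omega) (by omega)
    have h3 : 1 * 2 ^ (n + 1) ≤ (n + 1) * 2 ^ (n + 1) := Nat.mul_le_mul_right _ (by omega)
    have h4 : n + 1 + 2 = n + 3 := rfl
    rw [ht, h4]
    omega
  -- the integers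
  have h2 : (((2 : ℝ) ^ (n + 1)) ^ (2 ^ (n + 1)) - ((2 : ℝ) ^ (n + 1) - 1) ^ (2 ^ (n + 1))) *
      2 ^ t = a * ((2 : ℝ) ^ (n + 1)) ^ (2 ^ (n + 1)) := by
    rw [← h1, ← ha]; ring
  have h3 : (((2 : ℤ) ^ (n + 1)) ^ (2 ^ (n + 1)) - ((2 : ℤ) ^ (n + 1) - 1) ^ (2 ^ (n + 1))) *
      2 ^ t = a * ((2 : ℤ) ^ (n + 1)) ^ (2 ^ (n + 1)) := by exact_mod_cast h2
  obtain ⟨d, hd⟩ : ∃ d, (n + 1) * 2 ^ (n + 1) = t + (d + 1) :=
    ⟨(n + 1) * 2 ^ (n + 1) - t - 1, by omega⟩
  have h4 : ((2 : ℤ) ^ (n + 1)) ^ (2 ^ (n + 1)) = 2 ^ t * (2 * 2 ^ d) := by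
    rw [← pow_mul, hd, pow_add, pow_succ]
    ring
  have h5 : (2 : ℤ) ∣ ((2 : ℤ) ^ (n + 1) - 1) ^ (2 ^ (n + 1)) := by
    have h6 : ((((2 : ℤ) ^ (n + 1)) ^ (2 ^ (n + 1)) -
        ((2 : ℤ) ^ (n + 1) - 1) ^ (2 ^ (n + 1)))) = a * (2 * 2 ^ d) := by
      have h7 : ((2 : ℤ) ^ t) ≠ 0 := by positivity
      refine mul_right_cancel₀ h7 ?_
      rw [h3, h4]; ring
    refine ⟨2 ^ t * 2 ^ d - a * 2 ^ d, ?_⟩
    have h8 : ((2 : ℤ) ^ (n + 1) - 1) ^ (2 ^ (n + 1)) =
        ((2 : ℤ) ^ (n + 1)) ^ (2 ^ (n + 1)) - a * (2 * 2 ^ d) := by rw [← h6]; ring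
    rw [h8, h4]
    ring
  have h6 : (2 : ℤ) ∣ (2 : ℤ) ^ (n + 1) - 1 := Int.prime_two.dvd_of_dvd_pow h5
  have h7 : (2 : ℤ) ∣ (2 : ℤ) ^ (n + 1) := dvd_pow_self 2 (by omega)
  have h8 : (2 : ℤ) ∣ 1 := by
    have h9 := dvd_sub h7 h6
    have h10 : (2 : ℤ) ^ (n + 1) - ((2 : ℤ) ^ (n + 1) - 1) = 1 := by ring
    rwa [h10] at h9
  norm_num at h8

theorem lc_pc_ssubset_inter {J : OLang} (hJ : GoodBase J) (hJ' : FewQ J) :
    LC (PC {J}) ⊂ LC (Sig {J} 1) ∩ LC (co (Sig {J} 1)) := by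
  refine ⟨Set.subset_inter (lc_mono pc_subset_sig_one) (lc_mono pc_subset_co_sig_one),
    fun h => lm_fix_not_mem hJ' (h ⟨⟨fixE, fixE_mem hJ, rfl⟩, ?_⟩)⟩
  refine ⟨fun Z => (fixG Z)ᶜ, ?_, lm_fix.symm⟩
  show (fun Z => ((fixG Z)ᶜ)ᶜ) ∈ Sig {J} 1
  simpa using fixG_mem hJ

end Pool.Agent.LPHI
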