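import Pool.Agent.LPHI.Digits
import Pool.Agent.LPH.Meas

/-!
# The LP-hierarchy: a language in `NP` and one in `coNP` with the same probabilities

`Z` codes functions on the strings of length `w = |x|`. The first event: the function has a fixed
point. The second event: it has no fixed point before a random string.
-/

set_option autoImplicit false

namespace Pool.Agent.LPHI

open Pool.Agent.PolyTime MeasureTheory

/-! ### few queries (from the folder LPH of helper89) -/

theorem OFP.fpz {F : Set (List Bool) → List Bool → List Bool} (hF : OFP F) : LPH.FPZ F := by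
  induction hF with
  | base hf => exact LPH.FPZ.base hf
  | oracle => exact LPH.FPZ.oracle
  | comp _ _ ihg ihf => exact ihg.comp ihf
  | pair _ _ ihf ihg => exact ihf.pair ihg
  | iter _ _ _ p hp ihf ihg ihh => exact ihf.iter ihg ihh p hp

theorem qc_join (A : Set (List Bool)) {α : Type} {t : ℕ} {E : Set (List Bool) → α}
    (h : LPH.QC t E) : LPH.QC t (fun Z => E (join A Z)) := by
  classical
  induction h with
  | const t a => exact LPH.QC.const t a
  | @query t s F G _ _ ihF ihG =>
    rcases s with _ | ⟨b, y⟩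
    · refine (ihG.mono (Nat.le_succ t)).congr (fun Z => ?_)
      have : ([] : List Bool) ∉ join A Z := by simp [join]
      simp only [if_neg this]
    · cases b
      · by_cases hy : y ∈ A
        · refine (ihF.mono (Nat.le_succ t)).congr (fun Z => ?_)
          have : false :: y ∈ join A Z := cons_false_mem_join.2 hy
          simp only [if_pos this]
        · refine (ihG.mono (Nat.le_succ t)).congr (fun Z => ?_)
          have : false :: y ∉ join A Z := fun h => hy (cons_false_mem_join.1 h)
          simp only [if_neg this]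
      · refine (LPH.QC.query t y ihF ihG).congr (fun Z => ?_)
        by_cases hy : y ∈ Z
        · have : true :: y ∈ join A Z := cons_true_mem_join.2 hy
          simp only [if_pos this, if_pos hy]
        · have : true :: y ∉ join A Z := fun h => hy (cons_true_mem_join.1 h)
          simp only [if_neg this, if_neg hy]

/-- few queries are made through the base oracle -/
def FewQ (J : OLang) : Prop := ∀ F, OFP F → ∃ k : ℕ, ∀ x,
  LPH.QC ((x.length + 2) ^ k) (fun Z => F (J Z) x)

theorem fewQ_id : FewQ (fun Z => Z) := fun _ hF => hF.fpz.qc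

theorem fewQ_join (A : Set (List Bool)) : FewQ (fun Z => join A Z) := by
  intro F hF
  obtain ⟨k, hk⟩ := hF.fpz.qc
  exact ⟨k, fun x => qc_join A (hk x)⟩

theorem grain {J : OLang} (hJ : FewQ J) {B : OLang} (hB : B ∈ PC {J}) :
    ∃ k : ℕ, ∀ x, ∃ a : ℕ, prob B x * 2 ^ ((x.length + 2) ^ k) = a := by
  obtain ⟨L, rfl, F, hF, hB⟩ := hB
  obtain ⟨k, hk⟩ := hJ F hF
  refine ⟨k, fun x => ?_⟩
  obtain ⟨a, ha⟩ := ((hk x).map (fun u => (u = [true] : Prop))).grain
  refine ⟨a, ?_⟩
  rw [← ha]
  congr 1
  unfold prob LPH.mu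
  congr 2
  ext ω
  simp only [Set.mem_ofPred_eq]
  exact hB _ x

/-! ### the function coded by an oracle -/

open Classical in
/-- the value at `j` of the function coded by `W` -/
noncomputable def fv (W : Set (List Bool)) (j : List Bool) : List Bool :=
  rbl (fun i => decide (false :: pr j (List.replicate i true) ∈ W)) j.length

/-- one step of the evaluation -/
noncomputable def fstep (W : Set (List Bool)) (t : List Bool) : List Bool :=
  pr (p1 t) (pr (true :: p1 (p2 t)) (ans (false :: pr (p1 t) (p1 (p2 t)) ∈ W) ++ p2 (p2 t)))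

theorem ofp_fstep : OFP fstep :=
  OFP.p1.pair ((OFP.cons' true (OFP.p1' OFP.p2)).pair ((OFP.query (OFP.cons' false
    (OFP.p1.pair (OFP.p1' OFP.p2)))).append (OFP.p2' OFP.p2)))

theorem fstep_iter (W : Set (List Bool)) (j : List Bool) (i : ℕ) :
    (fstep W)^[i] (pr j (pr [] [])) = pr j (pr (List.replicate i true)
      (rbl (fun i => @decide (false :: pr j (List.replicate i true) ∈ W)
        (Classical.propDecidable _)) i)) := by
  induction i with
  | zero => rfl
  | succ i ih =>
    rw [Function.iterate_succ_apply', ih, fstep, p1_pr, p2_pr, p1_pr, p2_pr]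
    rfl

theorem ofp_fv : OFP fv := by
  have h1 : OFP (fun W j => (fstep W)^[j.length] (pr j (pr [] []))) := by
    refine OFP.iter ofp_fstep OFP.id (OFP.base (FP.id.pair (FP.const (pr [] []))))
      (5 * Polynomial.X + 2) (fun Z x i hi => ?_)
    rw [fstep_iter, length_pr, length_pr, length_rbl, List.length_replicate]
    simp only [Polynomial.eval_add, Polynomial.eval_mul, Polynomial.eval_ofNat,
      Polynomial.eval_X]
    omega
  refine (OFP.p2' (OFP.p2' h1)).congr (fun W v => ?_)
  rw [fstep_iter, p2_pr, p2_pr]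
  rfl

theorem IsOD.eq {F G : Set (List Bool) → List Bool → List Bool} (hF : OFP F) (hG : OFP G) :
    IsOD (fun W x => F W x = G W x) := by
  classical
  refine (OFP.ofFP (FP.decideEq FP.p1 FP.p2) (hF.pair hG)).congr (fun W x => ?_)
  rw [p1_pr, p2_pr]
  by_cases h : F W x = G W x
  · rw [ans_true h, decide_eq_true h]
  · rw [ans_false h, decide_eq_false h]

theorem isOD_fix : IsOD (fun W j => fv W j = j) := IsOD.eq ofp_fv OFP.id

/-- the function coded by `Z` has a fixed point of length `|x|` -/
def fixE : OLang := fun Z => {x | ∃ j : List Bool, j.length = x.length ∧ fv Z j = j}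

/-- the function coded by `Z` has a fixed point of length `|x|` before the random string -/
def fixG : OLang := fun Z => {x | ∃ j : List Bool, j.length = x.length ∧ fv Z j = j ∧
  valMSB j < valMSB (rb Z x.length)}

theorem mem_sig_one {J : OLang} (hJ : GoodBase J) {P : Set (List Bool) → List Bool → Prop}
    (hP : IsOD P) (p : Polynomial ℕ) :
    (fun Z => {x | ∃ y : List Bool, y.length ≤ p.eval x.length ∧ P Z (pr x y)} : OLang) ∈
      Sig {J} 1 := by
  obtain ⟨F, hF, hF'⟩ := hJ.read
  refine ⟨fun Z => Z, ⟨J, rfl, F, hF, fun Z y => (hF' Z y).symm⟩, _, hP, p, fun Z x => ?_⟩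
  simp only [Set.mem_ofPred_eq, ans_eq]

theorem fixE_mem {J : OLang} (hJ : GoodBase J) : fixE ∈ Sig {J} 1 := by
  have h1 : IsOD (fun Z t => (p2 t).length = (p1 t).length ∧ fv Z (p2 t) = p2 t) :=
    (IsOD.lenEq OFP.p2 OFP.p1).and (isOD_fix.comp OFP.p2)
  have h2 := mem_sig_one hJ h1 Polynomial.X
  have h3 : fixE = (fun Z => {x | ∃ y : List Bool, y.length ≤ (Polynomial.X : Polynomial ℕ).eval
      x.length ∧ ((p2 (pr x y)).length = (p1 (pr x y)).length ∧
        fv Z (p2 (pr x y)) = p2 (pr x y))}) := by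
    funext Z
    ext x
    simp only [fixE, Set.mem_ofPred_eq, p1_pr, p2_pr, Polynomial.eval_X]
    exact ⟨fun ⟨j, h1, h2⟩ => ⟨j, h1.le, h1, h2⟩, fun ⟨j, _, h1, h2⟩ => ⟨j, h1, h2⟩⟩
  rw [h3]
  exact h2

theorem isOD_valLt : IsOD (fun _ t => valMSB (p1 t) < valMSB (p2 t)) := by
  refine IsOD.pure (f := fun t => decide (valMSB (p1 t) < valMSB (p2 t))) ?_ (fun t => by simp)
  exact PolyTime.decide_lt (pt_valMSB (pt_p1 PolyTime.id)) (pt_valMSB (pt_p2 PolyTime.id))

theorem fixG_mem {J : OLang} (hJ : GoodBase J) : fixG ∈ Sig {J} 1 := by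
  have h0 : IsOD (fun Z t => valMSB (p2 t) < valMSB (rb Z (p1 t).length)) := by
    have h1 : OFP (fun Z t => rb Z (p1 t).length) := ofp_rb.comp OFP.p1
    exact (isOD_valLt.comp (OFP.p2.pair h1)).congr (fun Z t => by rw [p1_pr, p2_pr])
  have h1 : IsOD (fun Z t => (p2 t).length = (p1 t).length ∧ fv Z (p2 t) = p2 t ∧
      valMSB (p2 t) < valMSB (rb Z (p1 t).length)) :=
    (IsOD.lenEq OFP.p2 OFP.p1).and ((isOD_fix.comp OFP.p2).and h0)
  have h2 := mem_sig_one hJ h1 Polynomial.X
  have h3 : fixG = (fun Z => {x | ∃ y : List Bool, y.length ≤ (Polynomial.X : Polynomial ℕ).eval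
      x.length ∧ ((p2 (pr x y)).length = (p1 (pr x y)).length ∧
        fv Z (p2 (pr x y)) = p2 (pr x y) ∧
        valMSB (p2 (pr x y)) < valMSB (rb Z (p1 (pr x y)).length))}) := by
    funext Z
    ext x
    simp only [fixG, Set.mem_ofPred_eq, p1_pr, p2_pr, Polynomial.eval_X]
    exact ⟨fun ⟨j, h1, h2⟩ => ⟨j, h1.le, h1, h2⟩, fun ⟨j, _, h1, h2⟩ => ⟨j, h1, h2⟩⟩
  rw [h3]
  exact h2

end Pool.Agent.LPHI
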