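import Pool.Agent.LPHI.Search

/-!
# The LP-hierarchy: a `Δ_2` machine for threshold events with a stored threshold
-/

set_option autoImplicit false

namespace Pool.Agent.LPHI

open Pool.Agent.PolyTime

/-- the string under which information about the `n`-th language, the input `x` and the string
`u` is stored -/
def key (n : ℕ) (x u : List Bool) : List Bool := pr (List.replicate n true) (pr x u)

theorem key_inj {n n' : ℕ} {x x' u u' : List Bool} :
    key n x u = key n' x' u' ↔ n = n' ∧ x = x' ∧ u = u' := by
  unfold key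
  rw [pr_inj, pr_inj]
  constructor
  · rintro ⟨h1, h2⟩
    refine ⟨?_, h2⟩
    have := congrArg List.length h1
    simpa using this
  · rintro ⟨rfl, h2⟩
    exact ⟨rfl, h2⟩

theorem length_lt_key (n : ℕ) (x u : List Bool) : u.length < (key n x u).length := by
  unfold key
  rw [length_pr, length_pr]
  omega

/-- length of the strings on which the threshold is stored -/
def tlen (c : ℕ) (x : List Bool) : ℕ := (x.length + 2) ^ c + 1

/-- the string under which it is stored that the event is certain -/
def flagStr (n c : ℕ) (x : List Bool) : List Bool := key n x (true :: true :: pad c x)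

theorem IsOD.iff {P Q : Set (List Bool) → List Bool → Prop} (hP : IsOD P) (hQ : IsOD Q) :
    IsOD (fun W x => (P W x ↔ Q W x)) :=
  ((hP.and hQ).or (hP.not.and hQ.not)).congr (fun W x => by tauto)

theorem IsOD.imp {P Q : Set (List Bool) → List Bool → Prop} (hP : IsOD P) (hQ : IsOD Q) :
    IsOD (fun W x => (P W x → Q W x)) :=
  (hP.not.or hQ).congr (fun W x => by tauto)

theorem OFP.key (n : ℕ) {F G : Set (List Bool) → List Bool → List Bool} (hF : OFP F)
    (hG : OFP G) : OFP (fun W x => LPHI.key n (F W x) (G W x)) :=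
  OFP.pair (OFP.base (FP.const _)) (hF.pair hG)

theorem OFP.pad (c : ℕ) {F : Set (List Bool) → List Bool → List Bool} (hF : OFP F) :
    OFP (fun W x => PolyTime.pad c (F W x)) := OFP.ofFP (FP.pad c) hF

theorem OFP.flagStr (n c : ℕ) {F : Set (List Bool) → List Bool → List Bool} (hF : OFP F) :
    OFP (fun W x => LPHI.flagStr n c (F W x)) :=
  OFP.key n hF (OFP.cons' true (OFP.cons' true (OFP.pad c hF)))

/-- the test behind the `NP` set -/
def tst (n c : ℕ) (W : Set (List Bool)) (x q v : List Bool) : Prop :=
  false :: flagStr n c x ∈ W ∨ ((v ++ q.tail).length = (true :: pad c x).length ∧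
    ¬ (true :: (v ++ q.tail) ∈ W ↔ false :: key n x (v ++ q.tail) ∈ W) ∧
    (q.headD false = true → ¬ true :: (v ++ q.tail) ∈ W))

theorem isOD_tst (n c : ℕ) :
    IsOD (fun W t => tst n c W (PolyTime.p1 (PolyTime.p1 t)) (PolyTime.p2 (PolyTime.p1 t))
      (PolyTime.p2 t)) := by
  have hx : OFP (fun _ t => PolyTime.p1 (PolyTime.p1 t)) := OFP.p1' OFP.p1
  have hq : OFP (fun _ t => PolyTime.p2 (PolyTime.p1 t)) := OFP.p2' OFP.p1
  have hw : OFP (fun _ t => PolyTime.p2 t ++ (PolyTime.p2 (PolyTime.p1 t)).tail) :=
    OFP.append OFP.p2 (OFP.tail' hq)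
  refine IsOD.or (IsOD.mem (OFP.cons' false (OFP.flagStr n c hx))) ?_
  refine IsOD.and (IsOD.lenEq hw (OFP.cons' true (OFP.pad c hx))) ?_
  refine IsOD.and (IsOD.not (IsOD.iff (IsOD.mem (OFP.cons' true hw))
    (IsOD.mem (OFP.cons' false (OFP.key n hx hw))))) ?_
  exact IsOD.imp (IsOD.head hq) (IsOD.not (IsOD.mem (OFP.cons' true hw)))

/-- the `NP` set used in the search -/
def nSet (A : Set (List Bool)) (n c : ℕ) : OLang := fun Z =>
  {t | ∃ v : List Bool, v.length ≤ (t.length + 2) ^ c + 1 ∧
    tst n c (join A Z) (PolyTime.p1 t) (PolyTime.p2 t) v}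

theorem nSet_mem (A : Set (List Bool)) (n c : ℕ) :
    nSet A n c ∈ Sig {fun Z => join A Z} 1 := by
  refine ⟨fun Z => join A Z, subset_pc _ rfl, _, isOD_tst n c,
    (Polynomial.X + 2) ^ c + 1, fun Z t => ?_⟩
  simp only [nSet, Set.mem_ofPred_eq, ans_eq, p1_pr, p2_pr]
  simp

theorem tst_join {A Z : Set (List Bool)} {n c : ℕ} {x q v : List Bool} :
    tst n c (join A Z) x q v ↔ flagStr n c x ∈ A ∨ ((v ++ q.tail).length = tlen c x ∧
      ¬ (v ++ q.tail ∈ Z ↔ key n x (v ++ q.tail) ∈ A) ∧
      (q.headD false = true → v ++ q.tail ∉ Z)) := by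
  unfold tst tlen
  simp only [cons_true_mem_join, cons_false_mem_join, List.length_cons, length_pad]

/-! ### the search machine -/

open Classical in
/-- one step of the search with oracle `W` -/
noncomputable def sstep (W : Set (List Bool)) (t : List Bool) : List Bool :=
  if pr (p1 t) (false :: false :: p2 t) ∈ W then pr (p1 t) (false :: p2 t)
  else pr (p1 t) (true :: p2 t)

theorem ofp_sstep : OFP sstep := by
  refine (IsOD.mem (OFP.p1.pair (OFP.cons' false (OFP.cons' false OFP.p2)))).ite
    (OFP.p1.pair (OFP.cons' false OFP.p2)) (OFP.p1.pair (OFP.cons' true OFP.p2))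
    (fun W t h => ?_) (fun W t h => ?_)
  · rw [sstep, if_pos h]
  · rw [sstep, if_neg h]

open Classical in
/-- the last `j` bits found with oracle `W` -/
noncomputable def wsrch (W : Set (List Bool)) (x : List Bool) : ℕ → List Bool
  | 0 => []
  | j + 1 => (if pr x (false :: false :: wsrch W x j) ∈ W then false else true) :: wsrch W x j

theorem length_wsrch (W : Set (List Bool)) (x : List Bool) (j : ℕ) :
    (wsrch W x j).length = j := by
  induction j with
  | zero => rfl
  | succ j ih => simp [wsrch, ih]

theorem sstep_iter (W : Set (List Bool)) (x : List Bool) (j : ℕ) :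
    (sstep W)^[j] (pr x []) = pr x (wsrch W x j) := by
  induction j with
  | zero => rfl
  | succ j ih =>
    rw [Function.iterate_succ_apply', ih, sstep, wsrch]
    by_cases h : pr x (false :: false :: wsrch W x j) ∈ W
    · rw [if_pos h, if_pos (by rw [p1_pr, p2_pr]; exact h), p1_pr, p2_pr]
    · rw [if_neg h, if_neg (by rw [p1_pr, p2_pr]; exact h), p1_pr, p2_pr]

theorem isOD_final (c : ℕ) :
    IsOD (fun W x => pr x (true :: wsrch W x (tlen c x)) ∈ W) := by
  have hit : OFP (fun W x => (sstep W)^[(true :: pad c x).length] (pr x [])) := by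
    refine OFP.iter ofp_sstep (OFP.base (FP.cons' true (FP.pad c)))
      (OFP.base (FP.pair FP.id FP.nil)) (2 * Polynomial.X + 1 + ((Polynomial.X + 2) ^ c + 1))
      (fun Z x i hi => ?_)
    rw [sstep_iter, length_pr, length_wsrch]
    simp only [List.length_cons, length_pad] at hi
    simp only [Polynomial.eval_add, Polynomial.eval_mul, Polynomial.eval_ofNat,
      Polynomial.eval_X, Polynomial.eval_one, Polynomial.eval_pow]
    omega
  have h1 : OFP (fun W x => pr x (true :: wsrch W x (tlen c x))) := by
    refine (OFP.id.pair (OFP.cons' true (OFP.p2' hit))).congr (fun W x => ?_)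
    rw [sstep_iter, p2_pr]
    simp [tlen]
  exact IsOD.mem h1

open Classical in
/-- **The machine.** The event that the flag is set, or `Z` is below the stored threshold, is in
`Δ_2` relative to `A`. -/
theorem exists_delta_two (A : Set (List Bool)) (n c : ℕ) :
    ∃ C ∈ PC (Sig {fun Z => join A Z} 1), ∀ ω x, x ∈ C (ora ω) ↔
      (flagStr n c x ∈ A ∨ Less (tlen c x) ω (fun w => decide (key n x w ∈ A))) := by
  refine ⟨fun Z => {x | pr x (true :: wsrch (nSet A n c Z) x (tlen c x)) ∈ nSet A n c Z},
    ⟨nSet A n c, nSet_mem A n c, _, isOD_final c, fun Z x => by rw [ans_eq]; rfl⟩,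
    fun ω x => ?_⟩
  rw [Set.mem_ofPred_eq]
  by_cases hfl : flagStr n c x ∈ A
  · simp only [hfl, true_or, iff_true]
    refine ⟨[], by simp, ?_⟩
    rw [p1_pr, tst_join]
    exact Or.inl hfl
  · simp only [hfl, false_or]
    -- membership in the `NP` set
    have key1 : ∀ q : List Bool, pr x q ∈ nSet A n c (ora ω) ↔ ∃ v : List Bool,
        (v ++ q.tail).length = tlen c x ∧
        ¬ (v ++ q.tail ∈ ora ω ↔ key n x (v ++ q.tail) ∈ A) ∧
        (q.headD false = true → v ++ q.tail ∉ ora ω) := by
      intro q
      simp only [nSet, Set.mem_ofPred_eq, p1_pr, p2_pr, tst_join, hfl, false_or]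
      constructor
      · rintro ⟨v, _, h⟩
        exact ⟨v, h⟩
      · rintro ⟨v, h⟩
        refine ⟨v, ?_, h⟩
        have h1 := h.1
        rw [List.length_append, tlen] at h1
        have h2 : (x.length + 2) ^ c ≤ ((pr x q).length + 2) ^ c := by
          refine Nat.pow_le_pow_left ?_ c
          rw [length_pr]
          omega
        omega
    let D : List Bool → Prop := fun w => ω w ≠ decide (key n x w ∈ A)
    have hD : ∀ w, ¬ (w ∈ ora ω ↔ key n x w ∈ A) ↔ D w := by
      intro w
      simp only [D, ora, Set.mem_ofPred_eq]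
      by_cases h : key n x w ∈ A <;> cases ω w <;> simp [h]
    have hsr : ∀ j, wsrch (nSet A n c (ora ω)) x j = srch D (tlen c x) j := by
      intro j
      induction j with
      | zero => rfl
      | succ j ih =>
        rw [wsrch, srch, ih]
        have h2 : (pr x (false :: false :: srch D (tlen c x) j) ∈ nSet A n c (ora ω)) ↔
            ∃ v : List Bool, v.length + (j + 1) = tlen c x ∧
              D (v ++ false :: srch D (tlen c x) j) := by
          rw [key1]
          refine exists_congr fun v => ?_
          simp only [List.tail_cons, List.length_append, List.length_cons, length_srch, hD]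
          simp
        by_cases h3 : pr x (false :: false :: srch D (tlen c x) j) ∈ nSet A n c (ora ω)
        · rw [if_pos h3, if_pos (h2.1 h3)]
        · rw [if_neg h3, if_neg (fun h => h3 (h2.2 h))]
    rw [hsr, key1, ← srch_less]
    refine exists_congr fun v => ?_
    simp only [List.tail_cons, List.length_append, length_srch, hD]
    simp only [D, ora, Set.mem_ofPred_eq, ne_eq]
    simp

end Pool.Agent.LPHI
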