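import Pool.Agent.LPHI.Base

/-!
# The LP-hierarchy: the coin measure, and `Lm B` determines the probabilities
-/

set_option autoImplicit false

namespace Pool.Agent.LPHI

open Pool.Agent.PolyTime MeasureTheory

instance : IsProbabilityMeasure coin := by
  unfold coin; infer_instance

theorem coin_bit (b : Bool) :
    (PMF.uniformOfFintype Bool).toMeasure {b} = 2⁻¹ := by
  rw [PMF.toMeasure_apply_singleton _ _ (measurableSet_singleton b)]
  simp

/-- the cylinder of `ω₀` over `Q` -/
def cyl (Q : Finset (List Bool)) (ω₀ : List Bool → Bool) : Set (List Bool → Bool) :=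
  {ω | ∀ q ∈ Q, ω q = ω₀ q}

theorem cyl_eq_pi (Q : Finset (List Bool)) (ω₀ : List Bool → Bool) :
    cyl Q ω₀ = Set.pi (Q : Set (List Bool)) (fun q => {ω₀ q}) := by
  ext ω
  simp [cyl, Set.mem_pi]

theorem measurableSet_cyl (Q : Finset (List Bool)) (ω₀ : List Bool → Bool) :
    MeasurableSet (cyl Q ω₀) := by
  rw [cyl_eq_pi]
  exact MeasurableSet.pi Q.countable_toSet (fun _ _ => measurableSet_singleton _)

theorem coin_cyl (Q : Finset (List Bool)) (ω₀ : List Bool → Bool) :
    coin (cyl Q ω₀) = (2⁻¹ : ENNReal) ^ Q.card := by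
  rw [cyl_eq_pi]
  unfold coin
  rw [Measure.infinitePi_pi _ (fun _ _ => measurableSet_singleton _)]
  simp only [coin_bit, Finset.prod_const]

theorem coin_cyl_real (Q : Finset (List Bool)) (ω₀ : List Bool → Bool) :
    (coin (cyl Q ω₀)).toReal = (1 / 2 : ℝ) ^ Q.card := by
  rw [coin_cyl]
  simp

theorem le_coin {E : Set (List Bool → Bool)} {Q : Finset (List Bool)} {ω₀ : List Bool → Bool}
    (h : ∀ ω, (∀ q ∈ Q, ω q = ω₀ q) → ω ∈ E) : (1 / 2 : ℝ) ^ Q.card ≤ (coin E).toReal := by
  rw [← coin_cyl_real Q ω₀]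
  exact ENNReal.toReal_mono (measure_ne_top _ _) (measure_mono h)

theorem coin_le {E : Set (List Bool → Bool)} {Q : Finset (List Bool)} {ω₀ : List Bool → Bool}
    (h : ∀ ω, (∀ q ∈ Q, ω q = ω₀ q) → ω ∉ E) :
    (coin E).toReal ≤ 1 - (1 / 2 : ℝ) ^ Q.card := by
  have h1 : E ⊆ (cyl Q ω₀)ᶜ := fun ω hω hc => h ω hc hω
  have h2 : (coin E).toReal ≤ (coin (cyl Q ω₀)ᶜ).toReal :=
    ENNReal.toReal_mono (measure_ne_top _ _) (measure_mono h1)
  have h3 : (coin (cyl Q ω₀)ᶜ).toReal = 1 - (coin (cyl Q ω₀)).toReal :=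
    probReal_compl_eq_one_sub (measurableSet_cyl Q ω₀)
  rw [h3, coin_cyl_real] at h2
  exact h2

theorem prob_nonneg (B : OLang) (x : List Bool) : 0 ≤ prob B x := ENNReal.toReal_nonneg

theorem prob_le_one (B : OLang) (x : List Bool) : prob B x ≤ 1 := by
  unfold prob
  have : (coin {ω | x ∈ B (ora ω)}).toReal ≤ (1 : ENNReal).toReal :=
    ENNReal.toReal_mono (by simp) MeasureTheory.prob_le_one
  simpa using this

/-- the finite set of all strings of length at most `n` -/
noncomputable def strs (n : ℕ) : Finset (List Bool) := (List.finite_length_le Bool n).toFinset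

theorem mem_strs {n : ℕ} {y : List Bool} : y ∈ strs n ↔ y.length ≤ n := by
  simp [strs]

theorem zstr_injective : Function.Injective zstr := by
  have key : ∀ n : ℕ, (Nat.bits (n + 1)).reverse = true :: zstr n := by
    intro n
    have h1 : Nat.bits (n + 1) ≠ [] := by
      intro h
      have h2 := Nat.digits_two_eq_bits (n + 1)
      rw [h] at h2
      simp at h2
    have h3 : (Nat.bits (n + 1)).getLast h1 = true := by
      have h4 := Nat.getLast_digit_ne_zero 2 (m := n + 1) (by omega)
      have h5 := Nat.digits_two_eq_bits (n + 1)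
      simp only [h5] at h4
      rw [List.getLast_map] at h4
      by_contra h6
      simp only [Bool.not_eq_true] at h6
      rw [h6] at h4
      simp at h4
    have h7 : (Nat.bits (n + 1)).reverse.head (by simpa using h1) = true := by
      rw [List.head_reverse]; exact h3
    unfold zstr
    conv_lhs => rw [← List.cons_head_tail (l := (Nat.bits (n + 1)).reverse) (by simpa using h1)]
    rw [h7]
  intro n m h
  have h1 : (Nat.bits (n + 1)).reverse = (Nat.bits (m + 1)).reverse := by
    rw [key, key, h]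
  have h2 : Nat.bits (n + 1) = Nat.bits (m + 1) := List.reverse_injective h1
  have h3 : Nat.digits 2 (n + 1) = Nat.digits 2 (m + 1) := by
    rw [Nat.digits_two_eq_bits, Nat.digits_two_eq_bits, h2]
  have h4 := Nat.digits.injective 2 h3
  omega

theorem mem_lm {B : OLang} {x : List Bool} {k n : ℕ} (hk : 0 < k) :
    pr x (pr (zstr k) (zstr n)) ∈ Lm B ↔ (n : ℝ) / k < prob B x := by
  constructor
  · rintro ⟨x', k', n', hk', h, h'⟩
    rw [pr_inj, pr_inj] at h
    obtain ⟨rfl, h2, h3⟩ := h
    have h4 := zstr_injective h2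
    have h5 := zstr_injective h3
    subst h4 h5
    exact h'
  · intro h
    exact ⟨x, k, n, hk, rfl, h⟩

theorem prob_le_of_lm {B C : OLang} (h : Lm B = Lm C) (x : List Bool) : prob B x ≤ prob C x := by
  by_contra hlt
  push Not at hlt
  obtain ⟨q, hq1, hq2⟩ := exists_rat_btwn hlt
  have hq0 : 0 < q := by
    have : (0 : ℝ) < q := lt_of_le_of_lt (prob_nonneg C x) hq1
    exact_mod_cast this
  have hq : (q : ℝ) = (q.num.toNat : ℝ) / (q.den : ℝ) := by
    have h1 : ((q.num.toNat : ℤ) : ℝ) = (q.num : ℝ) := by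
      rw [Int.toNat_of_nonneg (Rat.num_nonneg.2 hq0.le)]
    have h2 : (q.num.toNat : ℝ) = (q.num : ℝ) := by exact_mod_cast h1
    rw [h2]
    exact Rat.cast_def q
  have h1 := (mem_lm (B := B) (x := x) (n := q.num.toNat) q.den_pos).2 (by rw [← hq]; exact hq2)
  rw [h] at h1
  have h2 := (mem_lm (B := C) (x := x) (n := q.num.toNat) q.den_pos).1 h1
  rw [← hq] at h2
  exact absurd h2 (not_lt.2 hq1.le)

theorem lm_eq_iff {B C : OLang} : Lm B = Lm C ↔ ∀ x, prob B x = prob C x := by
  constructor
  · intro h x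
    exact le_antisymm (prob_le_of_lm h x) (prob_le_of_lm h.symm x)
  · intro h
    unfold Lm
    simp only [h]

theorem mem_of_prob_one {B : OLang} (hB : Loc B) {x : List Bool} (h : prob B x = 1)
    (ω : List Bool → Bool) : x ∈ B (ora ω) := by
  obtain ⟨c, hc⟩ := hB
  by_contra hx
  have h1 : prob B x ≤ 1 - (1 / 2 : ℝ) ^ (strs ((x.length + 2) ^ c)).card := by
    refine coin_le (ω₀ := ω) (fun ω' hω' hmem => hx ?_)
    refine (hc x (ora ω) (ora ω') (fun y hy => ?_)).2 hmem
    have := hω' y (mem_strs.2 hy)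
    simp [ora, this]
  have h2 : (0 : ℝ) < (1 / 2 : ℝ) ^ (strs ((x.length + 2) ^ c)).card := by positivity
  linarith

theorem not_mem_of_prob_zero {B : OLang} (hB : Loc B) {x : List Bool} (h : prob B x = 0)
    (ω : List Bool → Bool) : x ∉ B (ora ω) := by
  obtain ⟨c, hc⟩ := hB
  intro hx
  have h1 : (1 / 2 : ℝ) ^ (strs ((x.length + 2) ^ c)).card ≤ prob B x := by
    refine le_coin (ω₀ := ω) (fun ω' hω' => ?_)
    refine (hc x (ora ω) (ora ω') (fun y hy => ?_)).1 hx
    have := hω' y (mem_strs.2 hy)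
    simp [ora, this]
  have h2 : (0 : ℝ) < (1 / 2 : ℝ) ^ (strs ((x.length + 2) ^ c)).card := by positivity
  linarith

theorem prob_const_of_mem {A : Set (List Bool)} {x : List Bool} (h : x ∈ A) :
    prob (fun _ => A) x = 1 := by
  unfold prob
  have : {ω : List Bool → Bool | x ∈ A} = Set.univ := by ext; simp [h]
  rw [this]; simp

theorem prob_const_of_not_mem {A : Set (List Bool)} {x : List Bool} (h : x ∉ A) :
    prob (fun _ => A) x = 0 := by
  unfold prob
  have : {ω : List Bool → Bool | x ∈ A} = ∅ := by ext; simp [h]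
  rw [this]; simp

end Pool.Agent.LPHI
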