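import Pool.Agent.LPHI.Machine

/-!
# The LP-hierarchy: an oracle relative to which it collapses to `L Δ_2`
-/

set_option autoImplicit false

namespace Pool.Agent.LPHI

open Pool.Agent.PolyTime Pool.Agent.Helper86.Rel MeasureTheory

/-! ### countability -/

theorem countable_ofp : {F : Set (List Bool) → List Bool → List Bool | OFP F}.Countable := by
  refine (Set.countable_range (fun c : Code => fun O x => c.eval O x)).mono ?_
  intro F hF
  obtain ⟨c, hc⟩ := exists_code_u hF
  exact ⟨c, funext fun O => funext fun x => hc O x⟩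

theorem countable_pc {C : Set OLang} (hC : C.Countable) : (PC C).Countable := by
  refine ((hC.prod countable_ofp).image (fun q : OLang × (Set (List Bool) → List Bool →
    List Bool) => (fun Z => {x : List Bool | q.2 (q.1 Z) x = [true]} : OLang))).mono ?_
  rintro B ⟨L, hL, F, hF, hB⟩
  refine ⟨(L, F), ⟨hL, hF⟩, ?_⟩
  funext Z
  ext x
  exact (hB Z x).symm

theorem countable_npc {C : Set OLang} (hC : C.Countable) : (NPC C).Countable := by
  have hcount : Countable (Polynomial ℕ) := by
    rw [← Cardinal.mk_le_aleph0_iff]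
    exact Polynomial.cardinalMk_le_max.trans (by simp)
  have hP : (Set.univ : Set (Polynomial ℕ)).Countable := Set.countable_univ
  refine (((hC.prod countable_ofp).prod hP).image (fun q : (OLang × (Set (List Bool) →
    List Bool → List Bool)) × Polynomial ℕ => (fun Z => {x : List Bool | ∃ y : List Bool,
      y.length ≤ q.2.eval x.length ∧ q.1.2 (q.1.1 Z) (pr x y) = [true]} : OLang))).mono ?_
  rintro B ⟨L, hL, F, hF, p, hB⟩
  refine ⟨((L, F), p), ⟨⟨hL, hF⟩, trivial⟩, ?_⟩
  funext Z
  ext x
  exact (hB Z x).symm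

theorem countable_sig {C₀ : Set OLang} (hC : C₀.Countable) (k : ℕ) : (Sig C₀ k).Countable := by
  induction k with
  | zero => exact countable_pc hC
  | succ k ih => exact countable_npc ih

theorem countable_co {C : Set OLang} (hC : C.Countable) : (co C).Countable := by
  refine (hC.image (fun B : OLang => (fun Z => (B Z)ᶜ : OLang))).mono ?_
  intro B hB
  exact ⟨_, hB, by simp⟩

theorem countable_cls {C₀ : Set OLang} (hC : C₀.Countable) (l : Level) :
    (Cls C₀ l).Countable := by
  match l with
  | .delta 0 => exact countable_pc hC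
  | .delta (k + 1) => exact countable_pc (countable_sig hC k)
  | .sigma k => exact countable_sig hC k
  | .pi k => exact countable_co (countable_sig hC k)

/-- levels are countable -/
theorem countable_level : Countable Level := by
  have h : Function.Injective (fun l : Level => match l with
    | .delta k => (0, k)
    | .sigma k => (1, k)
    | .pi k => ((2, k) : ℕ × ℕ)) := by
    rintro (k | k | k) (m | m | m) h <;> simp_all
  exact h.countable

theorem exists_enum_fam : ∃ e : ℕ → OLang, ∀ B, (∃ l, B ∈ RelPH l) ↔ ∃ n, e n = B := by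
  have h1 : {B : OLang | ∃ l, B ∈ RelPH l}.Countable := by
    have := countable_level
    have h2 : {B : OLang | ∃ l, B ∈ RelPH l} = ⋃ l, RelPH l := by
      ext B; simp
    rw [h2]
    exact Set.countable_iUnion (fun l => countable_cls (Set.countable_singleton _) l)
  have h3 : {B : OLang | ∃ l, B ∈ RelPH l}.Nonempty := by
    classical
    exact ⟨fun Z => Z, .delta 0, ⟨fun Z => Z, rfl, _, OFP.oracle, fun Z x => by simp⟩⟩
  obtain ⟨e, he⟩ := h1.exists_eq_range h3
  refine ⟨e, fun B => ?_⟩
  have h4 : B ∈ {B : OLang | ∃ l, B ∈ RelPH l} ↔ B ∈ Set.range e := by rw [he]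
  exact h4

/-! ### relativized classes are obtained by substitution -/

theorem pc_subst {J : OLang} {C C' : Set OLang}
    (h : ∀ B, B ∈ C ↔ ∃ B' ∈ C', B = fun Z => B' (J Z)) :
    ∀ B, B ∈ PC C ↔ ∃ B' ∈ PC C', B = fun Z => B' (J Z) := by
  intro B
  constructor
  · rintro ⟨L, hL, F, hF, hB⟩
    obtain ⟨L', hL', rfl⟩ := (h L).1 hL
    refine ⟨fun W => {x | F (L' W) x = [true]}, ⟨L', hL', F, hF, fun Z x => Iff.rfl⟩, ?_⟩
    funext Z
    ext x
    exact hB Z x
  · rintro ⟨B', ⟨L', hL', F, hF, hB⟩, rfl⟩
    exact ⟨_, (h _).2 ⟨L', hL', rfl⟩, F, hF, fun Z x => hB (J Z) x⟩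

theorem npc_subst {J : OLang} {C C' : Set OLang}
    (h : ∀ B, B ∈ C ↔ ∃ B' ∈ C', B = fun Z => B' (J Z)) :
    ∀ B, B ∈ NPC C ↔ ∃ B' ∈ NPC C', B = fun Z => B' (J Z) := by
  intro B
  constructor
  · rintro ⟨L, hL, F, hF, p, hB⟩
    obtain ⟨L', hL', rfl⟩ := (h L).1 hL
    refine ⟨fun W => {x | ∃ y : List Bool, y.length ≤ p.eval x.length ∧
      F (L' W) (pr x y) = [true]}, ⟨L', hL', F, hF, p, fun Z x => Iff.rfl⟩, ?_⟩
    funext Z
    ext x
    exact hB Z x
  · rintro ⟨B', ⟨L', hL', F, hF, p, hB⟩, rfl⟩
    exact ⟨_, (h _).2 ⟨L', hL', rfl⟩, F, hF, p, fun Z x => hB (J Z) x⟩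

theorem sig_subst (J : OLang) (k : ℕ) :
    ∀ B, B ∈ Sig {J} k ↔ ∃ B' ∈ Sig {fun Z => Z} k, B = fun Z => B' (J Z) := by
  have h0 : ∀ B, B ∈ ({J} : Set OLang) ↔ ∃ B' ∈ ({fun Z => Z} : Set OLang),
      B = fun Z => B' (J Z) := by
    intro B
    simp
  induction k with
  | zero => exact pc_subst h0
  | succ k ih => exact npc_subst ih

theorem cls_subst (J : OLang) (l : Level) :
    ∀ B, B ∈ Cls {J} l ↔ ∃ B' ∈ RelPH l, B = fun Z => B' (J Z) := by
  match l with
  | .delta 0 => exact sig_subst J 0
  | .delta (k + 1) => exact pc_subst (sig_subst J k)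
  | .sigma k => exact sig_subst J k
  | .pi k =>
    intro B
    constructor
    · intro hB
      obtain ⟨B', hB', h⟩ := (sig_subst J k _).1 hB
      refine ⟨fun W => (B' W)ᶜ, ?_, ?_⟩
      · show (fun W => ((B' W)ᶜ)ᶜ) ∈ Sig {fun Z => Z} k
        simpa using hB'
      · funext Z
        have h1 : (B Z)ᶜ = B' (J Z) := congrFun h Z
        show B Z = (B' (J Z))ᶜ
        rw [← h1, compl_compl]
    · rintro ⟨B', hB', rfl⟩
      exact (sig_subst J k _).2 ⟨_, hB', rfl⟩

/-! ### the construction -/

open Classical in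
/-- a threshold for the probability of the event `E` -/
noncomputable def thr (T : ℕ) (E : Set (List Bool → Bool)) : List Bool → Bool :=
  if h : ∃ a : List Bool → Bool, coin {ω | Less T ω a} = coin E then h.choose else fun _ => false

theorem thr_spec {m : ℕ} {E : Set (List Bool → Bool)} (hE : DepOn m E) (hne : E ≠ Set.univ) :
    coin {ω | Less (m + 1) ω (thr (m + 1) E)} = coin E := by
  have h := exists_less hE hne
  unfold thr
  rw [dif_pos h]
  exact h.choose_spec

theorem less_congr {T : ℕ} {ω a a' : List Bool → Bool}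
    (h : ∀ w : List Bool, w.length = T → a w = a' w) : Less T ω a ↔ Less T ω a' := by
  unfold Less
  refine exists_congr fun w => and_congr_right fun hw => ?_
  rw [h w hw]
  refine and_congr_right fun _ => and_congr_right fun _ => ?_
  refine forall_congr' fun w' => forall_congr' fun hw' => forall_congr' fun _ => ?_
  rw [h w' hw']

section
variable (e : ℕ → OLang) (c : ℕ → ℕ)

/-- the event that `x` is in the `n`-th language, with first oracle `S` -/
def ev (n : ℕ) (x : List Bool) (S : Set (List Bool)) : Set (List Bool → Bool) :=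
  {ω | x ∈ e n (join S (ora ω))}

/-- what is stored in the oracle -/
def rule (S : Set (List Bool)) (w : List Bool) : Prop :=
  ∃ (n : ℕ) (x u : List Bool), w = key n x u ∧
    ((u.length = tlen (c n) x ∧ thr (tlen (c n) x) (ev e n x S) u = true) ∨
      (u.length = tlen (c n) x + 1 ∧ ev e n x S = Set.univ))

/-- stages of the construction -/
def stage : ℕ → Set (List Bool)
  | 0 => ∅
  | m + 1 => {w | w ∈ stage m ∨ (w.length = m ∧ rule e c (stage m) w)}

/-- the oracle -/
def bigA : Set (List Bool) := {w | w ∈ stage e c (w.length + 1)}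

theorem length_of_mem_stage {m : ℕ} {w : List Bool} (h : w ∈ stage e c m) : w.length < m := by
  induction m with
  | zero => exact absurd h (Set.notMem_empty _)
  | succ m ih =>
    rcases h with h | h
    · have := ih h; omega
    · omega

theorem mem_stage_iff {m : ℕ} {w : List Bool} (h : w.length < m) :
    w ∈ stage e c m ↔ w ∈ bigA e c := by
  induction m with
  | zero => omega
  | succ m ih =>
    by_cases hm : w.length < m
    · rw [← ih hm]
      constructor
      · rintro (h1 | h1)
        · exact h1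
        · omega
      · exact fun h1 => Or.inl h1
    · have : m = w.length := by omega
      subst this
      rfl

variable (hloc : ∀ n x W W', (∀ y : List Bool, y.length ≤ (x.length + 2) ^ c n →
  (y ∈ W ↔ y ∈ W')) → (x ∈ e n W ↔ x ∈ e n W'))
include hloc

theorem ev_congr {n : ℕ} {x : List Bool} {S S' : Set (List Bool)}
    (h : ∀ y : List Bool, y.length ≤ (x.length + 2) ^ c n → (y ∈ S ↔ y ∈ S')) :
    ev e n x S = ev e n x S' := by
  ext ω
  refine hloc n x _ _ (fun y hy => ?_)
  rcases y with _ | ⟨b, y⟩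
  · simp [join]
  · have hy' : y.length ≤ (x.length + 2) ^ c n := by
      rw [List.length_cons] at hy
      omega
    cases b
    · rw [cons_false_mem_join, cons_false_mem_join, h y hy']
    · rw [cons_true_mem_join, cons_true_mem_join]

theorem depOn_ev (n : ℕ) (x : List Bool) (S : Set (List Bool)) :
    DepOn ((x.length + 2) ^ c n) (ev e n x S) := by
  intro ω ω' h
  refine hloc n x _ _ (fun y hy => ?_)
  rcases y with _ | ⟨b, y⟩
  · simp [join]
  · have hy' : y.length ≤ (x.length + 2) ^ c n := by
      rw [List.length_cons] at hy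
      omega
    cases b
    · rw [cons_false_mem_join, cons_false_mem_join]
    · rw [cons_true_mem_join, cons_true_mem_join]
      simp [ora, h y hy']

theorem mem_bigA_iff {w : List Bool} : w ∈ bigA e c ↔ rule e c (bigA e c) w := by
  have h1 : w ∈ bigA e c ↔ rule e c (stage e c w.length) w := by
    constructor
    · rintro (h | h)
      · have := length_of_mem_stage e c h
        omega
      · exact h.2
    · exact fun h => Or.inr ⟨rfl, h⟩
  rw [h1]
  unfold rule
  refine exists_congr fun n => exists_congr fun x => exists_congr fun u =>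
    and_congr_right fun hw => ?_
  have h2 : tlen (c n) x ≤ u.length → ev e n x (stage e c w.length) = ev e n x (bigA e c) := by
    intro hu
    refine ev_congr e c hloc (fun y hy => mem_stage_iff e c ?_)
    have h3 := length_lt_key n x u
    rw [← hw] at h3
    unfold tlen at hu
    omega
  constructor
  · rintro (⟨h3, h4⟩ | ⟨h3, h4⟩)
    · exact Or.inl ⟨h3, by rw [← h2 h3.ge]; exact h4⟩
    · exact Or.inr ⟨h3, by rw [← h2 (by omega)]; exact h4⟩
  · rintro (⟨h3, h4⟩ | ⟨h3, h4⟩)
    · exact Or.inl ⟨h3, by rw [h2 h3.ge]; exact h4⟩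
    · exact Or.inr ⟨h3, by rw [h2 (by omega)]; exact h4⟩

theorem key_mem_bigA {n : ℕ} {x u : List Bool} (hu : u.length = tlen (c n) x) :
    key n x u ∈ bigA e c ↔ thr (tlen (c n) x) (ev e n x (bigA e c)) u = true := by
  rw [mem_bigA_iff e c hloc]
  constructor
  · rintro ⟨n', x', u', hk, h⟩
    obtain ⟨rfl, rfl, rfl⟩ := key_inj.1 hk
    rcases h with h | h
    · exact h.2
    · omega
  · intro h
    exact ⟨n, x, u, rfl, Or.inl ⟨hu, h⟩⟩

theorem flag_mem_bigA {n : ℕ} {x : List Bool} :
    flagStr n (c n) x ∈ bigA e c ↔ ev e n x (bigA e c) = Set.univ := by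
  rw [mem_bigA_iff e c hloc]
  have hlen : (true :: true :: pad (c n) x).length = tlen (c n) x + 1 := by
    simp [tlen]
  constructor
  · rintro ⟨n', x', u', hk, h⟩
    obtain ⟨rfl, rfl, rfl⟩ := key_inj.1 hk
    rcases h with h | h
    · omega
    · exact h.2
  · intro h
    exact ⟨n, x, _, rfl, Or.inr ⟨hlen, h⟩⟩

/-- every language is represented in `Δ_2` -/
theorem exists_rep (n : ℕ) : ∃ C ∈ PC (Sig {fun Z => join (bigA e c) Z} 1), ∀ x,
    prob C x = prob (fun Z => e n (join (bigA e c) Z)) x := by
  classical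
  obtain ⟨C, hC, hC'⟩ := exists_delta_two (bigA e c) n (c n)
  refine ⟨C, hC, fun x => ?_⟩
  have h1 : {ω | x ∈ C (ora ω)} = {ω | flagStr n (c n) x ∈ bigA e c ∨
      Less (tlen (c n) x) ω (fun w => decide (key n x w ∈ bigA e c))} := by
    ext ω
    exact hC' ω x
  have h2 : {ω | x ∈ (fun Z => e n (join (bigA e c) Z)) (ora ω)} = ev e n x (bigA e c) := rfl
  unfold prob
  rw [h1, h2]
  by_cases hfl : flagStr n (c n) x ∈ bigA e c
  · have h3 := (flag_mem_bigA e c hloc).1 hfl
    rw [h3]
    congr 2
    ext ω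
    simp [hfl]
  · have h3 : ev e n x (bigA e c) ≠ Set.univ := fun h => hfl ((flag_mem_bigA e c hloc).2 h)
    have h4 := thr_spec (depOn_ev e c hloc n x (bigA e c)) h3
    rw [← h4]
    congr 2
    ext ω
    simp only [hfl, false_or, Set.mem_ofPred_eq]
    refine less_congr (fun w hw => ?_)
    have h5 := key_mem_bigA e c hloc (n := n) (x := x) hw
    by_cases h6 : key n x w ∈ bigA e c
    · rw [decide_eq_true h6]
      exact (h5.1 h6).symm
    · rw [decide_eq_false h6]
      have h7 : ¬ thr (tlen (c n) x) (ev e n x (bigA e c)) w = true := fun h => h6 (h5.2 h)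
      exact (Bool.eq_false_of_not_eq_true h7).symm

end

end Pool.Agent.LPHI
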