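import Pool.Agent.LPHI.Machine
import Pool.Agent.PolyTime.More

/-!
# The LP-hierarchy: predicates without oracle, small tools
-/

set_option autoImplicit false

namespace Pool.Agent.LPHI

open Pool.Agent.PolyTime

theorem IsOD.pure {P : List Bool → Prop} {f : List Bool → Bool} (hf : PolyTime f)
    (h : ∀ t, f t = true ↔ P t) : IsOD (fun _ t => P t) := by
  have h1 : FP (fun t => enc (f t)) := polyTime_from_string_iff.1 hf
  refine (OFP.base h1).congr (fun _ t => ?_)
  rw [enc_bool]
  cases hft : f t with
  | false => exact (ans_false (fun hp => by simp [(h t).2 hp] at hft)).symm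
  | true => exact (ans_true ((h t).1 hft)).symm

theorem IsOD.comp {P : Set (List Bool) → List Bool → Prop} (hP : IsOD P)
    {F : Set (List Bool) → List Bool → List Bool} (hF : OFP F) :
    IsOD (fun W x => P W (F W x)) := OFP.comp hP hF

theorem IsOD.eqTrue {F : Set (List Bool) → List Bool → List Bool} (hF : OFP F) :
    IsOD (fun W x => F W x = [true]) := by
  classical
  refine (OFP.ofFP fp_isTrue hF).congr (fun W x => ?_)
  unfold isTrue
  by_cases h : F W x = [true]
  · rw [ans_true h]; simp [h]
  · rw [ans_false h]; simp [h]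

/-- substitution of an oracle in a decidable predicate -/
theorem IsOD.subst {P : Set (List Bool) → List Bool → Prop} (hP : IsOD P) {J : OLang}
    (hJ : IsOD (fun W x => x ∈ J W)) : IsOD (fun W x => P (J W) x) := OFP.subst hJ hP

theorem IsOD.substF {F : Set (List Bool) → List Bool → List Bool} (hF : OFP F) {J : OLang}
    (hJ : IsOD (fun W x => x ∈ J W)) : OFP (fun W x => F (J W) x) := OFP.subst hJ hF

theorem IsOD.true : IsOD (fun _ _ => True) :=
  IsOD.pure (f := fun _ => Bool.true) (PolyTime.const _) (by simp)

theorem IsOD.false : IsOD (fun _ _ => False) :=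
  IsOD.pure (f := fun _ => Bool.false) (PolyTime.const _) (by simp)

theorem pt_p1 {f : List Bool → List Bool} (hf : PolyTime f) : PolyTime (fun t => p1 (f t)) :=
  polyTime_string_iff.2 ((FP.p1).comp (polyTime_string_iff.1 hf))

theorem pt_p2 {f : List Bool → List Bool} (hf : PolyTime f) : PolyTime (fun t => p2 (f t)) :=
  polyTime_string_iff.2 ((FP.p2).comp (polyTime_string_iff.1 hf))

theorem pt_pr {f g : List Bool → List Bool} (hf : PolyTime f) (hg : PolyTime g) :
    PolyTime (fun t => pr (f t) (g t)) :=
  polyTime_string_iff.2 ((polyTime_string_iff.1 hf).pair (polyTime_string_iff.1 hg))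

theorem pt_eval {f : List Bool → ℕ} (hf : PolyTime f) (p : Polynomial ℕ) :
    PolyTime (fun t => p.eval (f t)) := by
  induction p using Polynomial.induction_on' with
  | add p q hp hq => exact (hp.add hq).congr (fun t => by simp)
  | monomial n a =>
    exact ((PolyTime.const a).mul (hf.pow_const n)).congr (fun t => by simp)

/-- the oracle part of an oracle -/
def Zb : OLang := fun W => {y | false :: y ∈ W}

theorem isOD_Zb : IsOD (fun W x => x ∈ Zb W) := IsOD.mem (OFP.base (FP.cons Bool.false))

/-- components of a key -/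
def kx (t : List Bool) : List Bool := p1 (p2 t)

def ky (t : List Bool) : List Bool := p2 (p2 t)

theorem kx_key (i : ℕ) (x y : List Bool) : kx (key i x y) = x := by simp [kx, key]

theorem ky_key (i : ℕ) (x y : List Bool) : ky (key i x y) = y := by simp [ky, key]

theorem p2_key (i : ℕ) (x y : List Bool) : p2 (key i x y) = pr x y := by simp [key]

/-- is `t` a key of level `i`? -/
def isKey (i : ℕ) (t : List Bool) : Prop := t = key i (kx t) (ky t)

theorem isKey_key (i : ℕ) (x y : List Bool) : isKey i (key i x y) := by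
  unfold isKey
  rw [kx_key, ky_key]

theorem isKey_iff {i i' : ℕ} {x y : List Bool} : isKey i' (key i x y) ↔ i' = i := by
  unfold isKey
  rw [kx_key, ky_key, key_inj]
  constructor
  · rintro ⟨h, -⟩; exact h.symm
  · rintro rfl; exact ⟨rfl, rfl, rfl⟩

theorem pt_kx : PolyTime kx := pt_p1 (pt_p2 PolyTime.id)

theorem pt_ky : PolyTime ky := pt_p2 (pt_p2 PolyTime.id)

theorem isOD_isKey (i : ℕ) : IsOD (fun _ t => isKey i t) := by
  refine IsOD.pure (f := fun t => decide (t = key i (kx t) (ky t))) ?_ (fun t => by simp [isKey])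
  exact PolyTime.decideEq PolyTime.id (pt_pr (PolyTime.const _) (pt_pr pt_kx pt_ky))

theorem ofp_kx : OFP (fun _ t => kx t) := OFP.p1' OFP.p2

theorem ofp_ky : OFP (fun _ t => ky t) := OFP.p2' OFP.p2

theorem pr_pow_le {x y : List Bool} {e k : ℕ} (hy : y.length ≤ (x.length + 2) ^ e) :
    ((pr x y).length + 2) ^ k ≤ (x.length + 2) ^ ((e + 4) * k) := by
  have h1 : (pr x y).length + 2 ≤ (x.length + 2) ^ (e + 2) + 2 := by
    rw [length_pr]
    have h3 : (x.length + 2) ^ (e + 2) = (x.length + 2) ^ e * ((x.length + 2) * (x.length + 2)) := by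
      ring
    have h4 : 1 ≤ (x.length + 2) ^ e := Nat.one_le_pow _ _ (by omega)
    have h5 : (x.length + 2) ^ e * (2 * x.length + 2) ≤
        (x.length + 2) ^ e * ((x.length + 2) * (x.length + 2)) :=
      Nat.mul_le_mul_left _ (by nlinarith)
    have h6 : 1 * (2 * x.length + 1) ≤ (x.length + 2) ^ e * (2 * x.length + 1) :=
      Nat.mul_le_mul_right _ h4
    have h7 : (x.length + 2) ^ e * (2 * x.length + 2) =
      (x.length + 2) ^ e * (2 * x.length + 1) + (x.length + 2) ^ e := by ring
    omega
  exact (Nat.pow_le_pow_left h1 k).trans (pow_pow_le _ _ _)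

end Pool.Agent.LPHI
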