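import Pool.Agent.LPHI.Meas

/-!
# The LP-hierarchy: inclusions between the classes `L C` imply inclusions between the classes of
the polynomial hierarchy
-/

set_option autoImplicit false

namespace Pool.Agent.LPHI

open Pool.Agent.PolyTime MeasureTheory

theorem pc_mono {C C' : Set OLang} (h : C ⊆ C') : PC C ⊆ PC C' := by
  rintro B ⟨L, hL, F, hF, hB⟩
  exact ⟨L, h hL, F, hF, hB⟩

theorem npc_mono {C C' : Set OLang} (h : C ⊆ C') : NPC C ⊆ NPC C' := by
  rintro B ⟨L, hL, F, hF, p, hB⟩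
  exact ⟨L, h hL, F, hF, p, hB⟩

theorem pc_empty_le : PC {fun _ => ∅} ⊆ PC {fun Z => Z} := by
  rintro B ⟨L, rfl, F, hF, hB⟩
  exact ⟨fun Z => Z, rfl, fun _ x => F ∅ x, OFP.base hF.fp, hB⟩

theorem sig_empty_le (k : ℕ) : Sig {fun _ => ∅} k ⊆ Sig {fun Z => Z} k := by
  induction k with
  | zero => exact pc_empty_le
  | succ k ih => exact npc_mono ih

theorem cls_empty_le (l : Level) : Cls {fun _ => ∅} l ⊆ Cls {fun Z => Z} l := by
  match l with
  | .delta 0 => exact pc_empty_le
  | .delta (k + 1) => exact pc_mono (sig_empty_le k)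
  | .sigma k => exact sig_empty_le k
  | .pi k => exact fun B hB => sig_empty_le k hB

theorem pc_restrict {C C' : Set OLang} (h : ∀ B ∈ C, (fun _ => B ∅) ∈ C') :
    ∀ B ∈ PC C, (fun _ => B ∅) ∈ PC C' := by
  rintro B ⟨L, hL, F, hF, hB⟩
  exact ⟨_, h L hL, F, hF, fun _ x => hB ∅ x⟩

theorem npc_restrict {C C' : Set OLang} (h : ∀ B ∈ C, (fun _ => B ∅) ∈ C') :
    ∀ B ∈ NPC C, (fun _ => B ∅) ∈ NPC C' := by
  rintro B ⟨L, hL, F, hF, p, hB⟩
  exact ⟨_, h L hL, F, hF, p, fun _ x => hB ∅ x⟩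

theorem sig_restrict (k : ℕ) :
    ∀ B ∈ Sig {fun Z => Z} k, (fun _ => B ∅) ∈ Sig {fun _ => ∅} k := by
  have h0 : ∀ B ∈ ({fun Z => Z} : Set OLang), (fun _ => B ∅) ∈ ({fun _ => ∅} : Set OLang) := by
    rintro B rfl
    rfl
  induction k with
  | zero => exact pc_restrict h0
  | succ k ih => exact npc_restrict ih

theorem cls_restrict (l : Level) :
    ∀ B ∈ Cls {fun Z => Z} l, (fun _ => B ∅) ∈ Cls {fun _ => ∅} l := by
  match l with
  | .delta 0 => exact sig_restrict 0
  | .delta (k + 1) => exact pc_restrict (sig_restrict k)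
  | .sigma k => exact sig_restrict k
  | .pi k => exact fun B hB => sig_restrict k _ hB

theorem loc_relph (l : Level) : ∀ B ∈ RelPH l, Loc B :=
  loc_cls (by rintro B rfl; exact loc_id) l

/-- **Transfer.** -/
theorem ph_subset_of_lc_subset {l l' : Level} (h : LC (RelPH l) ⊆ LC (RelPH l')) :
    PH l ⊆ PH l' := by
  intro A hA
  have h1 : Lm (fun _ => A) ∈ LC (RelPH l) := ⟨_, cls_empty_le l hA, rfl⟩
  obtain ⟨C, hC, hCA⟩ := h h1
  have hloc := loc_relph l' C hC
  have hpr := lm_eq_iff.1 hCA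
  have h2 : C ∅ = A := by
    have h0 : ora (fun _ => false) = ∅ := by
      ext x; simp [ora]
    ext x
    constructor
    · intro hx
      by_contra hxA
      have := not_mem_of_prob_zero hloc ((hpr x).trans (prob_const_of_not_mem hxA))
        (fun _ => false)
      rw [h0] at this
      exact this hx
    · intro hx
      have := mem_of_prob_one hloc ((hpr x).trans (prob_const_of_mem hx)) (fun _ => false)
      rwa [h0] at this
  have h3 := cls_restrict l' C hC
  rw [h2] at h3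
  exact h3

theorem ph_eq_of_lc_eq {l l' : Level} (h : LC (RelPH l) = LC (RelPH l')) : PH l = PH l' :=
  (ph_subset_of_lc_subset h.le).antisymm (ph_subset_of_lc_subset h.ge)

theorem finite_ph_of_finite_lc (h : (Set.range fun l => LC (RelPH l)).Finite) :
    (Set.range PH).Finite := by
  classical
  have hne : Nonempty Level := ⟨.delta 0⟩
  have h1 : ∀ D : Set (Set (List Bool)), D ∈ Set.range (fun l => LC (RelPH l)) →
      ∃ l, LC (RelPH l) = D := fun D hD => hD
  choose! s hs using h1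
  refine (h.image (fun D => PH (s D))).subset ?_
  rintro _ ⟨l, rfl⟩
  exact ⟨LC (RelPH l), ⟨l, rfl⟩, ph_eq_of_lc_eq (hs _ ⟨l, rfl⟩)⟩

end Pool.Agent.LPHI
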