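import Pool.Agent.LPHI.Meas
import Pool.Agent.LPHI.Transfer

/-!
# The LP-hierarchy: the first levels are different
-/

set_option autoImplicit false

namespace Pool.Agent.LPHI

open Pool.Agent.PolyTime MeasureTheory Filter Topology

/-! ### small machines -/

/-- is the string equal to `[true]`? -/
def isTrue (t : List Bool) : List Bool := [decide (t = [true])]

theorem fp_isTrue : FP isTrue := by
  refine (FP.cases FP.id (FP.const [false]) (FP.const [false])
    (FP.ite_nil FP.tail (FP.const [true]) (FP.const [false]))).congr (fun x => ?_)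
  unfold isTrue
  rcases x with _ | ⟨b, r⟩
  · simp
  · cases b
    · simp
    · rcases r with _ | ⟨c, r⟩ <;> simp

/-- negation of an answer -/
def notAns (t : List Bool) : List Bool := [decide (t ≠ [true])]

theorem fp_notAns : FP notAns := by
  refine (FP.cases FP.id (FP.const [true]) (FP.const [true])
    (FP.ite_nil FP.tail (FP.const [false]) (FP.const [true]))).congr (fun x => ?_)
  unfold notAns
  rcases x with _ | ⟨b, r⟩
  · simp
  · cases b
    · simp
    · rcases r with _ | ⟨c, r⟩ <;> simp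

open Classical in
theorem OFP.query {F : Set (List Bool) → List Bool → List Bool} (hF : OFP F) :
    OFP (fun W x => [decide (F W x ∈ W)]) := OFP.comp OFP.oracle hF

theorem OFP.not {F : Set (List Bool) → List Bool → List Bool} (hF : OFP F) :
    OFP (fun W x => [decide (F W x ≠ [true])]) := OFP.ofFP fp_notAns hF

/-- the set accepted by a machine -/
def acc (F : Set (List Bool) → List Bool → List Bool) (W : Set (List Bool)) : Set (List Bool) :=
  {y | F W y = [true]}

open Classical in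
theorem ofp_decide {F : Set (List Bool) → List Bool → List Bool} (hF : OFP F) :
    OFP (fun W x => [decide (x ∈ acc F W)]) := by
  refine (OFP.ofFP fp_isTrue hF).congr (fun W x => ?_)
  unfold isTrue acc
  simp

/-! ### general inclusions -/

theorem subset_pc (C : Set OLang) : C ⊆ PC C := by
  classical
  intro B hB
  exact ⟨B, hB, _, OFP.oracle, fun Z x => by simp⟩

theorem co_subset_pc (C : Set OLang) : co C ⊆ PC C := by
  classical
  intro B hB
  refine ⟨_, hB, _, OFP.not OFP.oracle, fun Z x => by simp⟩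

theorem pc_pc (C : Set OLang) : PC (PC C) = PC C := by
  refine Set.Subset.antisymm ?_ (subset_pc _)
  rintro B ⟨L, ⟨L1, hL1, F1, hF1, hL⟩, F, hF, hB⟩
  refine ⟨L1, hL1, _, OFP.subst (ofp_decide hF1) hF, fun Z x => ?_⟩
  rw [hB]
  have : acc F1 (L1 Z) = L Z := by
    ext y; exact (hL Z y).symm
  rw [this]

theorem npc_pc (C : Set OLang) : NPC (PC C) ⊆ NPC C := by
  rintro B ⟨L, ⟨L1, hL1, F1, hF1, hL⟩, F, hF, p, hB⟩
  refine ⟨L1, hL1, _, OFP.subst (ofp_decide hF1) hF, p, fun Z x => ?_⟩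
  rw [hB]
  have : acc F1 (L1 Z) = L Z := by
    ext y; exact (hL Z y).symm
  rw [this]

theorem pc_subset_npc (C : Set OLang) : PC C ⊆ NPC C := by
  rintro B ⟨L, hL, F, hF, hB⟩
  refine ⟨L, hL, _, hF.comp OFP.p1, 0, fun Z x => ?_⟩
  rw [hB]
  constructor
  · intro h
    exact ⟨[], by simp, by simpa using h⟩
  · rintro ⟨y, _, h⟩
    simpa using h

theorem co_pc (C : Set OLang) : co (PC C) = PC C := by
  have h : ∀ B, B ∈ PC C → (fun Z => (B Z)ᶜ) ∈ PC C := by
    rintro B ⟨L, hL, F, hF, hB⟩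
    refine ⟨L, hL, _, OFP.not hF, fun Z x => ?_⟩
    simp [hB]
  ext B
  constructor
  · intro hB
    have := h _ hB
    simpa using this
  · exact h B

/-! ### base oracles -/

/-- what is needed of the base oracle `J Z` -/
structure GoodBase (J : OLang) : Prop where
  read : ∃ F, OFP F ∧ ∀ Z y, F (J Z) y = [true] ↔ y ∈ Z
  cert : ∀ F, OFP F → ∃ k : ℕ, ∀ Z x, ∃ Q : Finset (List Bool), Q.card ≤ (x.length + 2) ^ k ∧
    ∀ Z', (∀ q ∈ Q, (q ∈ Z' ↔ q ∈ Z)) → F (J Z') x = F (J Z) x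

theorem goodBase_id : GoodBase (fun Z => Z) := by
  classical
  constructor
  · exact ⟨_, OFP.oracle, fun Z y => by simp⟩
  · intro F hF
    obtain ⟨k, hk⟩ := hF.use
    refine ⟨k, fun Z x => ?_⟩
    obtain ⟨_, Q, hQ, _, hQ'⟩ := hk Z x
    exact ⟨Q, hQ, hQ'⟩

theorem cons_true_mem_join {A Z : Set (List Bool)} {y : List Bool} :
    true :: y ∈ join A Z ↔ y ∈ Z := by
  simp [join]

theorem cons_false_mem_join {A Z : Set (List Bool)} {y : List Bool} :
    false :: y ∈ join A Z ↔ y ∈ A := by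
  simp [join]

theorem goodBase_join (A : Set (List Bool)) : GoodBase (fun Z => join A Z) := by
  classical
  constructor
  · refine ⟨_, OFP.query (OFP.base (FP.cons true)), fun Z y => ?_⟩
    simp [cons_true_mem_join]
  · intro F hF
    obtain ⟨k, hk⟩ := hF.use
    refine ⟨k, fun Z x => ?_⟩
    obtain ⟨_, Q, hQ, _, hQ'⟩ := hk (join A Z) x
    refine ⟨Q.image List.tail, Finset.card_image_le.trans hQ, fun Z' h => ?_⟩
    refine hQ' _ (fun q hq => ?_)
    rcases q with _ | ⟨b, y⟩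
    · simp [join]
    · cases b
      · simp only [cons_false_mem_join]
      · simp only [cons_true_mem_join]
        exact h y (Finset.mem_image.2 ⟨_, hq, rfl⟩)

/-! ### the probabilities of the first level -/

section
variable {J : OLang} (hJ : GoodBase J)
include hJ

theorem sig_one_cert {B : OLang} (hB : B ∈ Sig {J} 1) : ∃ k : ℕ, ∀ Z x, x ∈ B Z →
    ∃ Q : Finset (List Bool), Q.card ≤ (x.length + 2) ^ k ∧
      ∀ Z', (∀ q ∈ Q, (q ∈ Z' ↔ q ∈ Z)) → x ∈ B Z' := by
  obtain ⟨L, rfl, F, hF, p, hB⟩ := npc_pc _ hB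
  obtain ⟨k, hk⟩ := hJ.cert F hF
  obtain ⟨e, he⟩ := exists_pow_bound p
  refine ⟨(e + 4) * k, fun Z x hx => ?_⟩
  obtain ⟨y, hy, hFy⟩ := (hB Z x).1 hx
  obtain ⟨Q, hQ, hQ'⟩ := hk Z (pr x y)
  refine ⟨Q, hQ.trans ?_, fun Z' h => (hB Z' x).2 ⟨y, hy, by rw [hQ' Z' h]; exact hFy⟩⟩
  have h1 : (pr x y).length + 2 ≤ (x.length + 2) ^ (e + 2) + 2 := by
    rw [length_pr]
    have h2 := hy.trans (he x.length)
    have h3 : (x.length + 2) ^ (e + 2) = (x.length + 2) ^ e * ((x.length + 2) * (x.length + 2)) := by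
      ring
    have h4 : 1 ≤ (x.length + 2) ^ e := Nat.one_le_pow _ _ (by omega)
    have h5 : (x.length + 2) ^ e * (2 * x.length + 2) ≤
        (x.length + 2) ^ e * ((x.length + 2) * (x.length + 2)) :=
      Nat.mul_le_mul_left _ (by nlinarith)
    have h6 : 1 * (2 * x.length + 1) ≤ (x.length + 2) ^ e * (2 * x.length + 1) :=
      Nat.mul_le_mul_right _ h4
    have h7 : (x.length + 2) ^ e * (2 * x.length + 2) =
      (x.length + 2) ^ e * (2 * x.length + 1) + (x.length + 2) ^ e := by ring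
    omega
  exact (Nat.pow_le_pow_left h1 k).trans (pow_pow_le _ _ _)

omit hJ in
theorem half_pow_anti {a b : ℕ} (h : a ≤ b) : (1 / 2 : ℝ) ^ b ≤ (1 / 2 : ℝ) ^ a :=
  pow_le_pow_of_le_one (by norm_num) (by norm_num) h

theorem prob_sig_one {B : OLang} (hB : B ∈ Sig {J} 1) : ∃ k : ℕ, ∀ x,
    prob B x = 0 ∨ (1 / 2 : ℝ) ^ ((x.length + 2) ^ k) ≤ prob B x := by
  obtain ⟨k, hk⟩ := sig_one_cert hJ hB
  refine ⟨k, fun x => ?_⟩
  by_cases h : ∃ ω, x ∈ B (ora ω)
  · right
    obtain ⟨ω₀, h0⟩ := h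
    obtain ⟨Q, hQ, hQ'⟩ := hk _ _ h0
    refine (half_pow_anti hQ).trans (le_coin (ω₀ := ω₀) (fun ω hω => hQ' _ (fun q hq => ?_)))
    have := hω q hq
    simp [ora, this]
  · left
    push Not at h
    unfold prob
    have : {ω | x ∈ B (ora ω)} = ∅ := by
      ext ω; simp [h ω]
    rw [this]; simp

theorem prob_pi_one {B : OLang} (hB : B ∈ co (Sig {J} 1)) : ∃ k : ℕ, ∀ x,
    prob B x = 1 ∨ prob B x ≤ 1 - (1 / 2 : ℝ) ^ ((x.length + 2) ^ k) := by
  obtain ⟨k, hk⟩ := sig_one_cert hJ hB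
  refine ⟨k, fun x => ?_⟩
  by_cases h : ∃ ω, x ∉ B (ora ω)
  · right
    obtain ⟨ω₀, h0⟩ := h
    obtain ⟨Q, hQ, hQ'⟩ := hk (ora ω₀) x h0
    have h1 : prob B x ≤ 1 - (1 / 2 : ℝ) ^ Q.card := by
      refine coin_le (ω₀ := ω₀) (fun ω hω => hQ' (ora ω) (fun q hq => ?_))
      have := hω q hq
      simp [ora, this]
    have h2 := half_pow_anti hQ
    linarith
  · left
    push Not at h
    unfold prob
    have : {ω | x ∈ B (ora ω)} = Set.univ := by
      ext ω; simp [h ω]
    rw [this]; simp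

end

/-! ### the example -/

/-- some string of length at most `|x|` is in the oracle -/
def exE : OLang := fun Z => {x | ∃ y ∈ Z, y.length ≤ x.length}

theorem exE_mem {J : OLang} (hJ : GoodBase J) : exE ∈ Sig {J} 1 := by
  classical
  obtain ⟨F, hF, hF'⟩ := hJ.read
  refine ⟨fun Z => Z, ⟨J, rfl, F, hF, fun Z y => (hF' Z y).symm⟩, _, OFP.query OFP.p2,
    Polynomial.X, fun Z x => ?_⟩
  simp only [exE, Set.mem_ofPred_eq, p2_pr, Polynomial.eval_X, List.cons.injEq, and_true,
    decide_eq_true_eq]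
  exact ⟨fun ⟨y, h1, h2⟩ => ⟨y, h2, h1⟩, fun ⟨y, h1, h2⟩ => ⟨y, h2, h1⟩⟩

theorem event_exE (x : List Bool) :
    {ω | x ∈ exE (ora ω)} = (cyl (strs x.length) (fun _ => false))ᶜ := by
  ext ω
  simp only [exE, ora, cyl, Set.mem_ofPred_eq, Set.mem_compl_iff, mem_strs]
  push Not
  constructor
  · rintro ⟨y, h1, h2⟩
    exact ⟨y, h2, by simp [h1]⟩
  · rintro ⟨y, h1, h2⟩
    exact ⟨y, by simpa using h2, h1⟩

theorem prob_exE (x : List Bool) : prob exE x = 1 - (1 / 2 : ℝ) ^ (strs x.length).card := by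
  unfold prob
  rw [event_exE, ← coin_cyl_real (strs x.length) (fun _ => false)]
  exact probReal_compl_eq_one_sub (measurableSet_cyl _ _)

theorem prob_exE_compl (x : List Bool) :
    prob (fun Z => (exE Z)ᶜ) x = (1 / 2 : ℝ) ^ (strs x.length).card := by
  unfold prob
  rw [← coin_cyl_real (strs x.length) (fun _ => false)]
  congr 2
  have h := event_exE x
  ext ω
  have h1 : (ω ∈ {ω | x ∈ exE (ora ω)}) ↔ ω ∈ (cyl (strs x.length) (fun _ => false))ᶜ := by
    rw [h]
  simp only [Set.mem_ofPred_eq, Set.mem_compl_iff] at h1 ⊢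
  tauto

theorem two_pow_le_card_strs (n : ℕ) : 2 ^ n ≤ (strs n).card := by
  have h1 : Fintype.card (Fin n → Bool) = 2 ^ n := by simp
  rw [← h1, ← Finset.card_univ]
  refine Finset.card_le_card_of_injOn (fun f => List.ofFn f) (fun f _ => ?_) ?_
  · simp [mem_strs]
  · intro f _ g _ h
    exact List.ofFn_injective h

theorem exists_big (k : ℕ) : ∃ n, (n + 3) ^ k < (strs n).card := by
  have h1 : Tendsto (fun n : ℕ => (n : ℝ) ^ k / 2 ^ n) atTop (𝓝 0) :=
    tendsto_pow_const_div_const_pow_of_one_lt k (by norm_num)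
  have h2 : ∀ᶠ n : ℕ in atTop, (n : ℝ) ^ k / 2 ^ n < 1 / 8 := h1.eventually (gt_mem_nhds (by norm_num))
  obtain ⟨N, hN⟩ := eventually_atTop.1 h2
  have h3 := hN (N + 3) (by omega)
  refine ⟨N, lt_of_lt_of_le ?_ (two_pow_le_card_strs N)⟩
  rw [div_lt_iff₀ (by positivity)] at h3
  have h4 : ((N + 3 : ℕ) : ℝ) ^ k < (2 : ℝ) ^ N := by
    have : (2 : ℝ) ^ (N + 3) = 8 * 2 ^ N := by ring
    rw [this] at h3
    linarith
  exact_mod_cast h4

section
variable {J : OLang} (hJ : GoodBase J)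
include hJ

theorem exE_not_pi {B : OLang} (hB : B ∈ co (Sig {J} 1)) (a : Bool → Bool)
    (h : ∀ x : List Bool, x ≠ [] → a (x.headD false) = true → prob B x = prob exE x)
    (ha : ∃ b, a b = true) : False := by
  obtain ⟨k, hk⟩ := prob_pi_one hJ hB
  obtain ⟨n, hn⟩ := exists_big k
  obtain ⟨b, hb⟩ := ha
  have hx : (List.replicate (n + 1) b) ≠ [] := by simp
  have h1 := h _ hx (by simpa [List.replicate_succ] using hb)
  rw [prob_exE] at h1
  have hlen : (List.replicate (n + 1) b).length = n + 1 := List.length_replicate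
  have hk' := hk (List.replicate (n + 1) b)
  rw [hlen] at h1 hk'
  have hpos : (0 : ℝ) < (1 / 2 : ℝ) ^ (strs (n + 1)).card := by positivity
  have hmono : (strs n).card ≤ (strs (n + 1)).card := by
    refine Finset.card_le_card (fun y hy => mem_strs.2 ?_)
    have := mem_strs.1 hy
    omega
  rcases hk' with h2 | h2
  · linarith
  · have h3 : (1 / 2 : ℝ) ^ ((n + 1 + 2) ^ k) ≤ (1 / 2 : ℝ) ^ (strs (n + 1)).card := by linarith
    have h4 : (strs (n + 1)).card ≤ (n + 1 + 2) ^ k := by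
      by_contra hlt
      push Not at hlt
      have := pow_lt_pow_right_of_lt_one₀ (by norm_num : (0 : ℝ) < 1 / 2) (by norm_num) hlt
      linarith
    have h5 : n + 1 + 2 = n + 3 := by ring
    rw [h5] at h4
    omega

theorem exE_compl_not_sigma {B : OLang} (hB : B ∈ Sig {J} 1) (a : Bool → Bool)
    (h : ∀ x : List Bool, x ≠ [] → a (x.headD false) = true →
      prob B x = prob (fun Z => (exE Z)ᶜ) x)
    (ha : ∃ b, a b = true) : False := by
  obtain ⟨k, hk⟩ := prob_sig_one hJ hB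
  obtain ⟨n, hn⟩ := exists_big k
  obtain ⟨b, hb⟩ := ha
  have hx : (List.replicate (n + 1) b) ≠ [] := by simp
  have h1 := h _ hx (by simpa [List.replicate_succ] using hb)
  rw [prob_exE_compl] at h1
  have hlen : (List.replicate (n + 1) b).length = n + 1 := List.length_replicate
  have hk' := hk (List.replicate (n + 1) b)
  rw [hlen] at h1 hk'
  have hpos : (0 : ℝ) < (1 / 2 : ℝ) ^ (strs (n + 1)).card := by positivity
  have hmono : (strs n).card ≤ (strs (n + 1)).card := by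
    refine Finset.card_le_card (fun y hy => mem_strs.2 ?_)
    have := mem_strs.1 hy
    omega
  rcases hk' with h2 | h2
  · linarith
  · have h3 : (1 / 2 : ℝ) ^ ((n + 1 + 2) ^ k) ≤ (1 / 2 : ℝ) ^ (strs (n + 1)).card := by linarith
    have h4 : (strs (n + 1)).card ≤ (n + 1 + 2) ^ k := by
      by_contra hlt
      push Not at hlt
      have := pow_lt_pow_right_of_lt_one₀ (by norm_num : (0 : ℝ) < 1 / 2) (by norm_num) hlt
      linarith
    have h5 : n + 1 + 2 = n + 3 := by ring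
    rw [h5] at h4
    omega

/-- `L Σ_1` is not contained in `L Π_1` -/
theorem lc_sigma_one_not_subset : ¬ LC (Sig {J} 1) ⊆ LC (co (Sig {J} 1)) := by
  intro h
  obtain ⟨B, hB, hBE⟩ := h ⟨exE, exE_mem hJ, rfl⟩
  exact exE_not_pi hJ hB (fun _ => true) (fun x _ _ => lm_eq_iff.1 hBE x) ⟨true, rfl⟩

/-- `L Π_1` is not contained in `L Σ_1` -/
theorem lc_pi_one_not_subset : ¬ LC (co (Sig {J} 1)) ⊆ LC (Sig {J} 1) := by
  intro h
  have h1 : (fun Z => (exE Z)ᶜ) ∈ co (Sig {J} 1) := by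
    show (fun Z => ((exE Z)ᶜ)ᶜ) ∈ Sig {J} 1
    simpa using exE_mem hJ
  obtain ⟨B, hB, hBE⟩ := h ⟨_, h1, rfl⟩
  exact exE_compl_not_sigma hJ hB (fun _ => true) (fun x _ _ => lm_eq_iff.1 hBE x) ⟨true, rfl⟩

omit hJ in
theorem lc_mono {C D : Set OLang} (h : C ⊆ D) : LC C ⊆ LC D := Set.image_mono h

omit hJ in
theorem pc_subset_co_sig_one : PC {J} ⊆ co (Sig {J} 1) := by
  intro B hB
  have h1 : B ∈ co (PC {J}) := by rw [co_pc]; exact hB
  exact (subset_pc _).trans (pc_subset_npc _) h1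

omit hJ in
theorem pc_subset_sig_one : PC {J} ⊆ Sig {J} 1 :=
  (subset_pc _).trans (pc_subset_npc _)

/-- the mixed example -/
def exG : OLang := fun Z => {x | (x ∈ exE Z ∧ x.headD false = true) ∨
  (x ∉ exE Z ∧ x.headD false = false)}

theorem exG_mem : exG ∈ PC (Sig {J} 1) := by
  classical
  refine ⟨exE, exE_mem hJ, _, OFP.cases OFP.id (OFP.not OFP.oracle) (OFP.not OFP.oracle)
    OFP.oracle, fun Z x => ?_⟩
  rcases x with _ | ⟨b, x⟩
  · simp [exG]
  · cases b <;> simp [exG]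

/-- `L Σ_1 ∪ L Π_1` is a proper subset of `L Δ_2` -/
theorem lc_union_ssubset :
    LC (Sig {J} 1) ∪ LC (co (Sig {J} 1)) ⊂ LC (PC (Sig {J} 1)) := by
  have hT : ∀ x : List Bool, x ≠ [] → x.headD false = true → prob exG x = prob exE x := by
    intro x _ hx
    unfold prob
    congr 2
    ext ω
    simp only [exG, Set.mem_ofPred_eq, hx]
    simp
  have hF : ∀ x : List Bool, x ≠ [] → x.headD false = false →
      prob exG x = prob (fun Z => (exE Z)ᶜ) x := by
    intro x _ hx
    unfold prob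
    congr 2
    ext ω
    simp only [exG, Set.mem_ofPred_eq, hx]
    simp
  refine ⟨Set.union_subset (lc_mono (subset_pc _)) (lc_mono (co_subset_pc _)), fun h => ?_⟩
  rcases h ⟨exG, exG_mem hJ, rfl⟩ with ⟨B, hB, hBG⟩ | ⟨B, hB, hBG⟩
  · refine exE_compl_not_sigma hJ hB (fun b => !b) (fun x hx hb => ?_) ⟨false, rfl⟩
    rw [lm_eq_iff.1 hBG x]
    exact hF x hx (by simpa using hb)
  · refine exE_not_pi hJ hB (fun b => b) (fun x hx hb => ?_) ⟨true, rfl⟩
    rw [lm_eq_iff.1 hBG x]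
    exact hT x hx hb

theorem lc_pc_ssubset_sigma : LC (PC {J}) ⊂ LC (Sig {J} 1) := by
  refine ⟨lc_mono pc_subset_sig_one, fun h => lc_sigma_one_not_subset hJ ?_⟩
  exact h.trans (lc_mono pc_subset_co_sig_one)

theorem lc_pc_ssubset_pi : LC (PC {J}) ⊂ LC (co (Sig {J} 1)) := by
  refine ⟨lc_mono pc_subset_co_sig_one, fun h => lc_pi_one_not_subset hJ ?_⟩
  exact h.trans (lc_mono pc_subset_sig_one)

end

end Pool.Agent.LPHI
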