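import Pool.Agent.LPHI.Count
import Pool.Agent.LPHI.Strict

/-!
# The LP-hierarchy: threshold events are in `Δ_2`
-/

set_option autoImplicit false

namespace Pool.Agent.LPHI

open Pool.Agent.PolyTime

/-! ### search for the first difference -/

open Classical in
/-- the last `j` bits of the first string with property `D`, found bit by bit -/
noncomputable def srch (D : List Bool → Prop) (T : ℕ) : ℕ → List Bool
  | 0 => []
  | j + 1 => (if ∃ v : List Bool, v.length + (j + 1) = T ∧ D (v ++ false :: srch D T j)
      then false else true) :: srch D T j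

theorem length_srch (D : List Bool → Prop) (T j : ℕ) : (srch D T j).length = j := by
  induction j with
  | zero => rfl
  | succ j ih => simp [srch, ih]

theorem srch_spec {D : List Bool → Prop} {T : ℕ} {w : List Bool} (hw : w.length = T)
    (hD : D w) (hmin : ∀ w' : List Bool, w'.length = T → val w' < val w → ¬ D w') (j : ℕ)
    (hj : j ≤ T) : ∃ v : List Bool, v.length + j = T ∧ w = v ++ srch D T j := by
  classical
  induction j with
  | zero => exact ⟨w, by simpa using hw, by simp [srch]⟩
  | succ j ih =>
    obtain ⟨v, hv, hwv⟩ := ih (by omega)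
    have hne : v ≠ [] := by
      rintro rfl
      simp at hv
      omega
    obtain ⟨v', b, rfl⟩ : ∃ v' b, v = v' ++ [b] :=
      ⟨v.dropLast, v.getLast hne, (List.dropLast_append_getLast hne).symm⟩
    have hlen : v'.length + (j + 1) = T := by
      simp at hv
      omega
    refine ⟨v', hlen, ?_⟩
    have hwv' : w = v' ++ b :: srch D T j := by rw [hwv]; simp
    cases b with
    | false =>
      have : ∃ v : List Bool, v.length + (j + 1) = T ∧ D (v ++ false :: srch D T j) :=
        ⟨v', hlen, by rw [← hwv']; exact hD⟩
      rw [srch, if_pos this]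
      exact hwv'
    | true =>
      have : ¬ ∃ v : List Bool, v.length + (j + 1) = T ∧ D (v ++ false :: srch D T j) := by
        rintro ⟨v'', h1, h2⟩
        refine hmin _ ?_ ?_ h2
        · simp [length_srch]
          omega
        · rw [hwv', val_append, val_append, val, val]
          have h3 : v''.length = v'.length := by omega
          have h4 := val_lt v''
          rw [h3] at h4 ⊢
          simp only [Bool.toNat_true, Bool.toNat_false]
          have h5 : 2 ^ v'.length * (1 + 2 * val (srch D T j)) =
            2 ^ v'.length + 2 ^ v'.length * (0 + 2 * val (srch D T j)) := by ring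
          rw [h5]
          omega
      rw [srch, if_neg this]
      exact hwv'

theorem exists_least {D : List Bool → Prop} {T : ℕ} (h : ∃ w : List Bool, w.length = T ∧ D w) :
    ∃ w : List Bool, w.length = T ∧ D w ∧
      ∀ w' : List Bool, w'.length = T → val w' < val w → ¬ D w' := by
  classical
  have h1 : ∃ n, ∃ w : List Bool, w.length = T ∧ D w ∧ val w = n := by
    obtain ⟨w, hw, hD⟩ := h
    exact ⟨_, w, hw, hD, rfl⟩
  obtain ⟨w, hw, hD, hval⟩ := Nat.find_spec h1
  refine ⟨w, hw, hD, fun w' hw' hlt hD' => ?_⟩
  exact Nat.find_min h1 (by rw [← hval]; exact hlt) ⟨w', hw', hD', rfl⟩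

theorem srch_eq {D : List Bool → Prop} {T : ℕ} {w : List Bool} (hw : w.length = T)
    (hD : D w) (hmin : ∀ w' : List Bool, w'.length = T → val w' < val w → ¬ D w') :
    srch D T T = w := by
  obtain ⟨v, hv, hwv⟩ := srch_spec hw hD hmin T le_rfl
  have : v = [] := by
    rw [← List.length_eq_zero_iff]
    omega
  rw [hwv, this]
  rfl

/-- the search decides the threshold event -/
theorem srch_less (T : ℕ) (ω a : List Bool → Bool) :
    (∃ v : List Bool, v.length + T = T ∧ ω (v ++ srch (fun w => ω w ≠ a w) T T) ≠
      a (v ++ srch (fun w => ω w ≠ a w) T T) ∧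
      ω (v ++ srch (fun w => ω w ≠ a w) T T) = false) ↔ Less T ω a := by
  constructor
  · rintro ⟨v, hv, h1, h2⟩
    have hv' : v = [] := by
      rw [← List.length_eq_zero_iff]
      omega
    subst hv'
    rw [List.nil_append] at h1 h2
    obtain ⟨w, hw, hD, hmin⟩ := exists_least (D := fun w => ω w ≠ a w) (T := T)
      ⟨_, length_srch _ _ _, h1⟩
    have h3 := srch_eq hw hD hmin
    rw [h3] at h1 h2
    refine ⟨w, hw, h2, ?_, fun w' hw' hlt => ?_⟩
    · rw [h2] at h1
      cases h4 : a w
      · rw [h4] at h1; exact absurd rfl h1
      · rfl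
    · have := hmin w' hw' hlt
      push Not at this
      exact this
  · rintro ⟨w, hw, h1, h2, h3⟩
    have hD : ω w ≠ a w := by rw [h1, h2]; decide
    have h4 := srch_eq (D := fun w => ω w ≠ a w) hw hD (fun w' hw' hlt => by
      push Not
      exact h3 w' hw' hlt)
    refine ⟨[], by simp, ?_, ?_⟩
    · rw [List.nil_append, h4]; exact hD
    · rw [List.nil_append, h4]; exact h1

/-! ### decidable predicates of oracle machines -/

open Classical in
/-- the answer string of a proposition -/
noncomputable def ans (p : Prop) : List Bool := [decide p]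

theorem ans_eq {p : Prop} : ans p = [true] ↔ p := by
  unfold ans; simp

theorem ans_true {p : Prop} (h : p) : ans p = [true] := ans_eq.2 h

theorem ans_false {p : Prop} (h : ¬ p) : ans p = [false] := by
  unfold ans; simp [h]

/-- the predicate `P` is decided by an oracle machine -/
def IsOD (P : Set (List Bool) → List Bool → Prop) : Prop := OFP (fun W x => ans (P W x))

theorem IsOD.mem {F : Set (List Bool) → List Bool → List Bool} (hF : OFP F) :
    IsOD (fun W x => F W x ∈ W) := OFP.query hF

theorem IsOD.ite {P : Set (List Bool) → List Bool → Prop}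
    {f g : Set (List Bool) → List Bool → List Bool} (hP : IsOD P) (hf : OFP f) (hg : OFP g)
    {h : Set (List Bool) → List Bool → List Bool}
    (h1 : ∀ W x, P W x → h W x = f W x) (h2 : ∀ W x, ¬ P W x → h W x = g W x) : OFP h := by
  refine (OFP.cases hP hg hg hf).congr (fun W x => ?_)
  by_cases hp : P W x
  · rw [ans_true hp, h1 W x hp]
  · rw [ans_false hp, h2 W x hp]

theorem IsOD.and {P Q : Set (List Bool) → List Bool → Prop} (hP : IsOD P) (hQ : IsOD Q) :
    IsOD (fun W x => P W x ∧ Q W x) := by
  refine hP.ite hQ (OFP.base (FP.const [false])) (fun W x h => ?_) (fun W x h => ?_)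
  · simp [h]
  · exact ans_false (by tauto)

theorem IsOD.or {P Q : Set (List Bool) → List Bool → Prop} (hP : IsOD P) (hQ : IsOD Q) :
    IsOD (fun W x => P W x ∨ Q W x) := by
  refine hP.ite (OFP.base (FP.const [true])) hQ (fun W x h => ?_) (fun W x h => ?_)
  · exact ans_true (by tauto)
  · simp [h]

theorem IsOD.not {P : Set (List Bool) → List Bool → Prop} (hP : IsOD P) :
    IsOD (fun W x => ¬ P W x) := by
  refine hP.ite (OFP.base (FP.const [false])) (OFP.base (FP.const [true])) (fun W x h => ?_)
    (fun W x h => ?_)
  · exact ans_false (by tauto)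
  · exact ans_true h

theorem IsOD.congr {P Q : Set (List Bool) → List Bool → Prop} (hP : IsOD P)
    (h : ∀ W x, P W x ↔ Q W x) : IsOD Q := by
  have : P = Q := funext fun W => funext fun x => propext (h W x)
  rwa [← this]

/-- equality of lengths of the two components -/
theorem fp_eqLen : FP (fun t => ans ((PolyTime.p1 t).length = (PolyTime.p2 t).length)) := by
  refine (FP.ite_nil (FP.dropLen FP.p1 FP.p2) (FP.ite_nil (FP.dropLen FP.p2 FP.p1)
    (FP.const [true]) (FP.const [false])) (FP.const [false])).congr (fun t => ?_)
  by_cases h1 : (PolyTime.p2 t).drop (PolyTime.p1 t).length = []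
  · rw [if_pos h1]
    rw [List.drop_eq_nil_iff] at h1
    by_cases h2 : (PolyTime.p1 t).drop (PolyTime.p2 t).length = []
    · rw [if_pos h2]
      rw [List.drop_eq_nil_iff] at h2
      exact (ans_true (le_antisymm h2 h1)).symm
    · rw [if_neg h2]
      rw [List.drop_eq_nil_iff] at h2
      exact (ans_false (by omega)).symm
  · rw [if_neg h1]
    rw [List.drop_eq_nil_iff] at h1
    exact (ans_false (by omega)).symm

theorem IsOD.lenEq {F G : Set (List Bool) → List Bool → List Bool} (hF : OFP F) (hG : OFP G) :
    IsOD (fun W x => (F W x).length = (G W x).length) := by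
  refine (OFP.ofFP fp_eqLen (hF.pair hG)).congr (fun W x => ?_)
  simp

theorem IsOD.head {F : Set (List Bool) → List Bool → List Bool} (hF : OFP F) :
    IsOD (fun W x => (F W x).headD false = true) := by
  refine (OFP.cases hF (OFP.base (FP.const [false])) (OFP.base (FP.const [false]))
    (OFP.base (FP.const [true]))).congr (fun W x => ?_)
  beta_reduce
  generalize F W x = t
  rcases t with _ | ⟨b, r⟩
  · exact (ans_false (by simp)).symm
  · cases b
    · exact (ans_false (by simp)).symm
    · exact (ans_true (by simp)).symm

theorem OFP.append {F G : Set (List Bool) → List Bool → List Bool} (hF : OFP F) (hG : OFP G) :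
    OFP (fun W x => F W x ++ G W x) := by
  refine (OFP.ofFP (FP.append FP.p1 FP.p2) (hF.pair hG)).congr (fun W x => ?_)
  simp

theorem OFP.cons' (b : Bool) {F : Set (List Bool) → List Bool → List Bool} (hF : OFP F) :
    OFP (fun W x => b :: F W x) := OFP.ofFP (FP.cons b) hF

theorem OFP.tail' {F : Set (List Bool) → List Bool → List Bool} (hF : OFP F) :
    OFP (fun W x => (F W x).tail) := OFP.ofFP FP.tail hF

end Pool.Agent.LPHI
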