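import Pool.Agent.LPHI.Pure

/-!
# The LP-hierarchy: tables

For `B` in `Σ_j` there is a table (a set of strings, exponentially many for every size `s`) which is
determined by the oracle `Zb W`, is locally checkable, and from which membership in `B` is read off.
-/

set_option autoImplicit false

namespace Pool.Agent.LPHI

open Pool.Agent.PolyTime

/-- A locally checkable table for `B`. -/
structure Tab (j : ℕ) (B : OLang) where
  /-- the correct table -/
  TT : OLang
  /-- how to read `B` in the table -/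
  V : OLang
  /-- the local rule -/
  R : Set (List Bool) → List Bool → Prop
  /-- the strings of the table for inputs of length at most `s` -/
  K : ℕ → List Bool → Prop
  /-- a length bound -/
  q : Polynomial ℕ
  hV : IsOD (fun W x => x ∈ V W)
  hR : IsOD R
  hK : IsOD (fun _ t => K (p1 t).length (p2 t))
  hq : ∀ s t, K s t → t.length ≤ q.eval s
  hkey : ∀ s t, K s t → ∃ i x y, 0 < i ∧ i ≤ j ∧ t = key i x y
  hTT : ∀ s W, (∀ t, K s t → (t ∈ W ↔ t ∈ TT (Zb W))) ↔ ∀ t, K s t → R W t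
  hVB : ∀ s W, (∀ t, K s t → (t ∈ W ↔ t ∈ TT (Zb W))) →
    ∀ x : List Bool, x.length ≤ s → (x ∈ V W ↔ x ∈ B (Zb W))
  hfin : ∀ t, ∃ M, ∀ Z Z', (∀ y : List Bool, y.length ≤ M → (y ∈ Z ↔ y ∈ Z')) →
    (t ∈ TT Z ↔ t ∈ TT Z')

theorem tab_zero {B : OLang} (hB : B ∈ PC {fun Z => Z}) : Nonempty (Tab 0 B) := by
  obtain ⟨L, rfl, F, hF, hB⟩ := hB
  refine ⟨{
    TT := fun _ => ∅
    V := fun W => B (Zb W)
    R := fun _ _ => True
    K := fun _ _ => False
    q := 0
    hV := ?_
    hR := IsOD.true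
    hK := IsOD.false
    hq := fun _ _ h => h.elim
    hkey := fun _ _ h => h.elim
    hTT := fun s W => ⟨fun _ _ _ => trivial, fun _ _ h => h.elim⟩
    hVB := fun s W _ x _ => Iff.rfl
    hfin := fun t => ⟨0, fun _ _ _ => Iff.rfl⟩ }⟩
  refine (IsOD.eqTrue (IsOD.substF hF isOD_Zb)).congr (fun W x => ?_)
  exact (hB (Zb W) x).symm

/-! ### the next level -/

section

variable {j : ℕ} {B L : OLang} {F : Set (List Bool) → List Bool → List Bool} {p : Polynomial ℕ}

/-- the test -/
def Gt (F : Set (List Bool) → List Bool → List Bool) (p : Polynomial ℕ) (O : Set (List Bool))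
    (z : List Bool) : Prop := (p2 z).length ≤ p.eval (p1 z).length ∧ F O z = [true]

theorem isOD_Gt (hF : OFP F) : IsOD (Gt F p) := by
  refine (IsOD.pure (P := fun z => (p2 z).length ≤ p.eval (p1 z).length)
    (f := fun z => decide ((p2 z).length ≤ p.eval (p1 z).length)) ?_ (fun z => by simp)).and
    (IsOD.eqTrue hF)
  exact PolyTime.decide_le (pt_p2 PolyTime.id).length (pt_eval (pt_p1 PolyTime.id).length p)

/-- some certificate below `y` -/
def Dx (F : Set (List Bool) → List Bool → List Bool) (p : Polynomial ℕ) (L : OLang) (e : ℕ)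
    (Z : Set (List Bool)) (x y : List Bool) : Prop :=
  ∃ y' : List Bool, (y' ++ y).length ≤ (x.length + 2) ^ e ∧ Gt F p (L Z) (pr x (y' ++ y))

theorem Dx_iff {e : ℕ} {Z : Set (List Bool)} {x y : List Bool}
    (hy : y.length ≤ (x.length + 2) ^ e) : Dx F p L e Z x y ↔ (Gt F p (L Z) (pr x y) ∨
      (y.length < (x.length + 2) ^ e ∧ (Dx F p L e Z x (false :: y) ∨
        Dx F p L e Z x (true :: y)))) := by
  constructor
  · rintro ⟨y', h1, h2⟩
    rcases List.eq_nil_or_concat y' with rfl | ⟨y'', b, rfl⟩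
    · left
      simpa using h2
    · right
      have e1 : (y'' ++ [b]) ++ y = y'' ++ (b :: y) := by simp
      rw [List.concat_eq_append, e1] at h1 h2
      refine ⟨?_, ?_⟩
      · rw [List.length_append, List.length_cons] at h1
        omega
      · cases b with
        | false => exact Or.inl ⟨y'', h1, h2⟩
        | true => exact Or.inr ⟨y'', h1, h2⟩
  · rintro (h | ⟨h1, ⟨y', h2, h3⟩ | ⟨y', h2, h3⟩⟩)
    · exact ⟨[], by simpa using hy, by simpa using h⟩
    · refine ⟨y' ++ [false], ?_, ?_⟩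
      · simpa using h2
      · simpa using h3
    · refine ⟨y' ++ [true], ?_, ?_⟩
      · simpa using h2
      · simpa using h3

/-- the new table -/
def TTn (j : ℕ) (F : Set (List Bool) → List Bool → List Bool) (p : Polynomial ℕ) (L : OLang)
    (e : ℕ) (TT : OLang) : OLang := fun Z =>
  {t | (isKey (j + 1) t ∧ Dx F p L e Z (kx t) (ky t)) ∨ (¬ isKey (j + 1) t ∧ t ∈ TT Z)}

/-- the new rule -/
def Rn (j : ℕ) (F : Set (List Bool) → List Bool → List Bool) (p : Polynomial ℕ) (e : ℕ)
    (V : OLang) (R : Set (List Bool) → List Bool → Prop) (W : Set (List Bool)) (t : List Bool) :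
    Prop :=
  (isKey (j + 1) t ∧ (t ∈ W ↔ (Gt F p (V W) (pr (kx t) (ky t)) ∨
    ((ky t).length < ((kx t).length + 2) ^ e ∧ (key (j + 1) (kx t) (false :: ky t) ∈ W ∨
      key (j + 1) (kx t) (true :: ky t) ∈ W))))) ∨ (¬ isKey (j + 1) t ∧ R W t)

/-- the new strings -/
def Kn (j e d : ℕ) (K : ℕ → List Bool → Prop) (s : ℕ) (t : List Bool) : Prop :=
  (isKey (j + 1) t ∧ (kx t).length ≤ s ∧ (ky t).length ≤ ((kx t).length + 2) ^ e) ∨
    K ((s + 2) ^ d) t

theorem isOD_Rn {e : ℕ} {V : OLang} {R : Set (List Bool) → List Bool → Prop} (hF : OFP F)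
    (hV : IsOD (fun W x => x ∈ V W)) (hR : IsOD R) : IsOD (Rn j F p e V R) := by
  refine ((isOD_isKey (j + 1)).and (IsOD.iff (IsOD.mem OFP.id) (IsOD.or ?_ ?_))).or
    ((isOD_isKey (j + 1)).not.and hR)
  · exact IsOD.comp ((isOD_Gt hF).subst hV) (ofp_kx.pair ofp_ky)
  · refine IsOD.and ?_ (IsOD.or ?_ ?_)
    · refine IsOD.pure (f := fun t => decide ((ky t).length < ((kx t).length + 2) ^ e)) ?_
        (fun t => by simp)
      exact PolyTime.decide_lt pt_ky.length ((pt_kx.length.add (PolyTime.const 2)).pow_const e)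
    · exact IsOD.mem (OFP.key _ ofp_kx (OFP.cons' false ofp_ky))
    · exact IsOD.mem (OFP.key _ ofp_kx (OFP.cons' true ofp_ky))

theorem isOD_Kn {e d : ℕ} {K : ℕ → List Bool → Prop}
    (hK : IsOD (fun _ t => K (p1 t).length (p2 t))) :
    IsOD (fun _ t => Kn j e d K (p1 t).length (p2 t)) := by
  refine IsOD.or ?_ ?_
  · refine ((isOD_isKey (j + 1)).comp OFP.p2).and ?_
    refine IsOD.pure (P := fun t => (kx (p2 t)).length ≤ (p1 t).length ∧
      (ky (p2 t)).length ≤ ((kx (p2 t)).length + 2) ^ e)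
      (f := fun t => decide ((kx (p2 t)).length ≤ (p1 t).length) &&
        decide ((ky (p2 t)).length ≤ ((kx (p2 t)).length + 2) ^ e)) ?_ (fun t => by simp)
    have h1 : PolyTime (fun t => kx (p2 t)) := pt_kx.comp (pt_p2 PolyTime.id)
    have h2 : PolyTime (fun t => ky (p2 t)) := pt_ky.comp (pt_p2 PolyTime.id)
    exact (PolyTime.decide_le h1.length (pt_p1 PolyTime.id).length).and
      (PolyTime.decide_le h2.length ((h1.length.add (PolyTime.const 2)).pow_const e))
  · refine (hK.comp ((OFP.pad d OFP.p1).pair OFP.p2)).congr (fun _ t => ?_)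
    rw [p1_pr, p2_pr, length_pad]

theorem mem_TTn_old {e : ℕ} {TT : OLang} {Z : Set (List Bool)} {t : List Bool}
    (h : ¬ isKey (j + 1) t) : t ∈ TTn j F p L e TT Z ↔ t ∈ TT Z := by
  unfold TTn
  simp only [Set.mem_ofPred_eq]
  tauto

theorem mem_TTn_new {e : ℕ} {TT : OLang} {Z : Set (List Bool)} {x y : List Bool} :
    key (j + 1) x y ∈ TTn j F p L e TT Z ↔ Dx F p L e Z x y := by
  unfold TTn
  simp only [Set.mem_ofPred_eq, kx_key, ky_key]
  have := isKey_key (j + 1) x y
  tauto

theorem Rn_old {e : ℕ} {V : OLang} {R : Set (List Bool) → List Bool → Prop}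
    {W : Set (List Bool)} {t : List Bool} (h : ¬ isKey (j + 1) t) :
    Rn j F p e V R W t ↔ R W t := by
  unfold Rn
  tauto

theorem Rn_new {e : ℕ} {V : OLang} {R : Set (List Bool) → List Bool → Prop}
    {W : Set (List Bool)} {x y : List Bool} :
    Rn j F p e V R W (key (j + 1) x y) ↔ (key (j + 1) x y ∈ W ↔ (Gt F p (V W) (pr x y) ∨
    (y.length < (x.length + 2) ^ e ∧ (key (j + 1) x (false :: y) ∈ W ∨
      key (j + 1) x (true :: y) ∈ W)))) := by
  unfold Rn
  simp only [kx_key, ky_key]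
  have := isKey_key (j + 1) x y
  tauto

theorem Kn_new {e d s : ℕ} {K : ℕ → List Bool → Prop} {x y : List Bool}
    (hx : x.length ≤ s) (hy : y.length ≤ (x.length + 2) ^ e) :
    Kn j e d K s (key (j + 1) x y) :=
  Or.inl ⟨isKey_key _ _ _, by rwa [kx_key], by rwa [ky_key, kx_key]⟩

theorem Tab.not_isKey (T : Tab j L) {s : ℕ} {t : List Bool} (h : T.K s t) :
    ¬ isKey (j + 1) t := by
  obtain ⟨i, x, y, _, hi, rfl⟩ := T.hkey s t h
  rw [isKey_iff]
  omega

theorem gt_congr (T : Tab j L) {e k : ℕ} (hk : ∀ O x, (F O x).length ≤ (x.length + 2) ^ k ∧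
      ∃ Q : Finset (List Bool), Q.card ≤ (x.length + 2) ^ k ∧
        (∀ q ∈ Q, q.length ≤ (x.length + 2) ^ k) ∧
        ∀ O', (∀ q ∈ Q, (q ∈ O' ↔ q ∈ O)) → F O' x = F O x) {s : ℕ} {W : Set (List Bool)}
    (hA : ∀ t, T.K ((s + 2) ^ ((e + 4) * k)) t → (t ∈ W ↔ t ∈ T.TT (Zb W))) {x y : List Bool}
    (hx : x.length ≤ s) (hy : y.length ≤ (x.length + 2) ^ e) :
    Gt F p (T.V W) (pr x y) ↔ Gt F p (L (Zb W)) (pr x y) := by
  obtain ⟨_, Q, _, hQ, hQ'⟩ := hk (L (Zb W)) (pr x y)
  unfold Gt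
  rw [hQ' (T.V W) (fun q hq => T.hVB _ W hA q ?_)]
  exact (hQ q hq).trans ((pr_pow_le hy).trans (Nat.pow_le_pow_left (by omega) _))

theorem tab_succ (T : Tab j L) (hF : OFP F) (hL : Loc L)
    (hB : ∀ Z x, x ∈ B Z ↔ ∃ y : List Bool, y.length ≤ p.eval x.length ∧
      F (L Z) (pr x y) = [true]) : Nonempty (Tab (j + 1) B) := by
  obtain ⟨e, he⟩ := exists_pow_bound p
  obtain ⟨k, hk⟩ := hF.use
  obtain ⟨c, hc⟩ := hL.eval hF
  refine ⟨{
    TT := TTn j F p L e T.TT
    V := fun W => {x | key (j + 1) x [] ∈ W}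
    R := Rn j F p e T.V T.R
    K := Kn j e ((e + 4) * k) T.K
    q := Polynomial.C (2 * (j + 1) + 1) + (2 * Polynomial.X + 1) + (Polynomial.X + 2) ^ e +
      T.q.comp ((Polynomial.X + 2) ^ ((e + 4) * k))
    hV := IsOD.mem (OFP.key _ OFP.id (OFP.base (FP.const _)))
    hR := isOD_Rn hF T.hV T.hR
    hK := isOD_Kn T.hK
    hq := ?_
    hkey := ?_
    hTT := ?_
    hVB := ?_
    hfin := ?_ }⟩
  · -- length bound
    rintro s t (⟨h1, h2, h3⟩ | h)
    · rw [h1]
      simp only [Polynomial.eval_add, Polynomial.eval_C, Polynomial.eval_mul,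
        Polynomial.eval_ofNat, Polynomial.eval_X, Polynomial.eval_one, Polynomial.eval_pow]
      have h4 : ((kx t).length + 2) ^ e ≤ (s + 2) ^ e := Nat.pow_le_pow_left (by omega) e
      unfold key
      rw [length_pr, length_pr, List.length_replicate]
      omega
    · have h4 := T.hq _ _ h
      simp only [Polynomial.eval_add, Polynomial.eval_comp, Polynomial.eval_pow,
        Polynomial.eval_X, Polynomial.eval_ofNat]
      omega
  · rintro s t (⟨h1, _, _⟩ | h)
    · exact ⟨j + 1, kx t, ky t, by omega, le_rfl, h1⟩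
    · obtain ⟨i, x, y, h1, h2, h3⟩ := T.hkey _ _ h
      exact ⟨i, x, y, h1, by omega, h3⟩
  · intro s W
    constructor
    · intro h
      have hA : ∀ t, T.K ((s + 2) ^ ((e + 4) * k)) t → (t ∈ W ↔ t ∈ T.TT (Zb W)) := by
        intro t ht
        rw [h t (Or.inr ht), mem_TTn_old (T.not_isKey ht)]
      have hR := (T.hTT _ W).1 hA
      rintro t (⟨h1, h2, h3⟩ | h')
      · rw [h1, Rn_new, h _ (Kn_new h2 h3), mem_TTn_new, Dx_iff h3, gt_congr T hk hA h2 h3]
        refine or_congr_right (and_congr_right fun h4 => ?_)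
        rw [h _ (Kn_new h2 (by rw [List.length_cons]; omega)), mem_TTn_new,
          h _ (Kn_new h2 (by rw [List.length_cons]; omega)), mem_TTn_new]
      · rw [Rn_old (T.not_isKey h')]
        exact hR t h'
    · intro h
      have hA : ∀ t, T.K ((s + 2) ^ ((e + 4) * k)) t → (t ∈ W ↔ t ∈ T.TT (Zb W)) := by
        refine (T.hTT _ W).2 (fun t ht => ?_)
        exact (Rn_old (T.not_isKey ht)).1 (h t (Or.inr ht))
      have key1 : ∀ (n : ℕ) (x y : List Bool), x.length ≤ s → y.length ≤ (x.length + 2) ^ e →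
          (x.length + 2) ^ e - y.length = n →
          (key (j + 1) x y ∈ W ↔ Dx F p L e (Zb W) x y) := by
        intro n
        induction n with
        | zero =>
          intro x y hx hy hn
          have h1 := h _ (Kn_new hx hy)
          rw [Rn_new] at h1
          rw [h1, Dx_iff hy, gt_congr T hk hA hx hy]
          have h2 : ¬ y.length < (x.length + 2) ^ e := by omega
          simp only [h2, false_and, or_false]
        | succ n ih =>
          intro x y hx hy hn
          have h1 := h _ (Kn_new hx hy)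
          rw [Rn_new] at h1
          rw [h1, Dx_iff hy, gt_congr T hk hA hx hy]
          refine or_congr_right (and_congr_right fun h4 => ?_)
          rw [ih x (false :: y) hx (by rw [List.length_cons]; omega)
            (by rw [List.length_cons]; omega),
            ih x (true :: y) hx (by rw [List.length_cons]; omega)
            (by rw [List.length_cons]; omega)]
      rintro t (⟨h1, h2, h3⟩ | h')
      · rw [h1, mem_TTn_new]
        exact key1 _ _ _ h2 h3 rfl
      · rw [hA t h', mem_TTn_old (T.not_isKey h')]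
  · intro s W h x hx
    have h1 : x ∈ {x | key (j + 1) x [] ∈ W} ↔ key (j + 1) x [] ∈ W := Iff.rfl
    rw [h1, h _ (Kn_new hx (by simp)), mem_TTn_new, hB]
    unfold Dx Gt
    simp only [List.append_nil, p1_pr, p2_pr]
    constructor
    · rintro ⟨y, _, h2, h3⟩
      exact ⟨y, h2, h3⟩
    · rintro ⟨y, h2, h3⟩
      exact ⟨y, h2.trans (he _), h2, h3⟩
  · intro t
    by_cases ht : isKey (j + 1) t
    · refine ⟨(2 * (kx t).length + 1 + ((kx t).length + 2) ^ e + 2) ^ c, fun Z Z' hZ => ?_⟩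
      rw [ht, mem_TTn_new, mem_TTn_new]
      unfold Dx Gt
      refine exists_congr fun y' => and_congr_right fun hy' => ?_
      rw [hc _ Z Z' (fun y hy => hZ y (hy.trans (Nat.pow_le_pow_left ?_ c)))]
      rw [length_pr]
      omega
    · obtain ⟨M, hM⟩ := T.hfin t
      refine ⟨M, fun Z Z' hZ => ?_⟩
      rw [mem_TTn_old ht, mem_TTn_old ht]
      exact hM Z Z' hZ

end

theorem loc_sig_id (k : ℕ) : ∀ B ∈ Sig {fun Z => Z} k, Loc B :=
  loc_sig (by rintro B rfl; exact loc_id) k

theorem exists_tab (k : ℕ) : ∀ B ∈ Sig {fun Z => Z} k, ∃ j, Nonempty (Tab j B) := by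
  induction k with
  | zero => exact fun B hB => ⟨0, tab_zero hB⟩
  | succ k ih =>
    rintro B ⟨L, hL, F, hF, p, hB⟩
    obtain ⟨j, ⟨T⟩⟩ := ih L hL
    exact ⟨j + 1, tab_succ T hF (loc_sig_id k L hL) hB⟩

end Pool.Agent.LPHI
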