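import Pool.Agent.LPHI.Final

/-!
# The LP-hierarchy: the transfer theorem relative to an oracle
-/

set_option autoImplicit false

namespace Pool.Agent.LPHI

open Pool.Agent.PolyTime MeasureTheory

theorem pc_restrict_join (A : Set (List Bool)) :
    ∀ B ∈ PC {fun Z => join A Z}, (fun _ => B ∅) ∈ PC {fun _ => A} := by
  classical
  rintro B ⟨L, rfl, F, hF, hB⟩
  -- membership in `join W ∅` is decided with oracle `W`
  have h1 : OFP (fun W x => [@decide (x ∈ join W ∅) (Classical.propDecidable _)]) := by
    refine OFP.congr (F := fun W x => match x with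
      | [] => [false]
      | false :: _ => [@decide (x.tail ∈ W) (Classical.propDecidable _)]
      | true :: _ => [false]) ?_ (fun W x => ?_)
    · exact OFP.cases OFP.id (OFP.base (FP.const [false]))
        (OFP.query (OFP.base FP.tail)) (OFP.base (FP.const [false]))
    · rcases x with _ | ⟨b, y⟩
      · simp [join]
      · cases b
        · by_cases hy : y ∈ W
          · simp [join, hy]
          · simp [join, hy]
        · simp [join]
  refine ⟨fun _ => A, rfl, _, OFP.subst h1 hF, fun Z x => ?_⟩
  exact hB ∅ x

theorem sig_restrict_join (A : Set (List Bool)) (k : ℕ) :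
    ∀ B ∈ Sig {fun Z => join A Z} k, (fun _ => B ∅) ∈ Sig {fun _ => A} k := by
  induction k with
  | zero => exact pc_restrict_join A
  | succ k ih => exact npc_restrict ih

theorem cls_restrict_join (A : Set (List Bool)) (l : Level) :
    ∀ B ∈ Cls {fun Z => join A Z} l, (fun _ => B ∅) ∈ Cls {fun _ => A} l := by
  match l with
  | .delta 0 => exact sig_restrict_join A 0
  | .delta (k + 1) => exact pc_restrict (sig_restrict_join A k)
  | .sigma k => exact sig_restrict_join A k
  | .pi k => exact fun B hB => sig_restrict_join A k _ hB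

theorem loc_relpha (A : Set (List Bool)) (l : Level) : ∀ B ∈ RelPHA A l, Loc B :=
  loc_cls (by rintro B rfl; exact loc_join A) l

theorem pha_subset_of_lc_subset {A : Set (List Bool)} {l l' : Level}
    (h : LC (RelPHA A l) ⊆ LC (RelPHA A l')) : PHA A l ⊆ PHA A l' := by
  intro L hL
  have h1 : Lm (fun _ => L) ∈ LC (RelPHA A l) := ⟨_, cls_const_subset A l hL, rfl⟩
  obtain ⟨C, hC, hCA⟩ := h h1
  have hloc := loc_relpha A l' C hC
  have hpr := lm_eq_iff.1 hCA
  have h2 : C ∅ = L := by
    have h0 : ora (fun _ => false) = ∅ := by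
      ext x; simp [ora]
    ext x
    constructor
    · intro hx
      by_contra hxA
      have := not_mem_of_prob_zero hloc ((hpr x).trans (prob_const_of_not_mem hxA))
        (fun _ => false)
      rw [h0] at this
      exact this hx
    · intro hx
      have := mem_of_prob_one hloc ((hpr x).trans (prob_const_of_mem hx)) (fun _ => false)
      rwa [h0] at this
  have h3 := cls_restrict_join A l' C hC
  rw [h2] at h3
  exact h3

theorem pha_eq_of_lc_eq {A : Set (List Bool)} {l l' : Level}
    (h : LC (RelPHA A l) = LC (RelPHA A l')) : PHA A l = PHA A l' :=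
  (pha_subset_of_lc_subset h.le).antisymm (pha_subset_of_lc_subset h.ge)

theorem finite_pha_of_finite_lc (A : Set (List Bool))
    (h : (Set.range fun l => LC (RelPHA A l)).Finite) : (Set.range (PHA A)).Finite := by
  classical
  have hne : Nonempty Level := ⟨.delta 0⟩
  have h1 : ∀ D : Set (Set (List Bool)), D ∈ Set.range (fun l => LC (RelPHA A l)) →
      ∃ l, LC (RelPHA A l) = D := fun D hD => hD
  choose! s hs using h1
  refine (h.image (fun D => PHA A (s D))).subset ?_
  rintro _ ⟨l, rfl⟩
  exact ⟨LC (RelPHA A l), ⟨l, rfl⟩, pha_eq_of_lc_eq (hs _ ⟨l, rfl⟩)⟩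

end Pool.Agent.LPHI
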